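import Pool.Agent.P.MP_8d9088_nt.Euler

/-! Functions that are polynomials in `p y` modulo `p ^ K`, and the telescoping operator. -/

namespace Pool.Agent.P.MP_8d9088_nt

open Polynomial Finset

variable {p : ℕ} [hp : Fact p.Prime]

/-- `f y` is a polynomial in `p y` modulo `p ^ K`. -/
def Apx (p : ℕ) [Fact p.Prime] (K : ℕ) (f : ℚ → ℚ) : Prop :=
  ∃ P : (R p)[X], ∀ y ∈ R p, D p K (f y - aeval ((p : ℚ) * y) P)

theorem D.pow {x : ℚ} (hx : D p 1 x) (k : ℕ) : D p k (x ^ k) := by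
  obtain ⟨u, hu, rfl⟩ := hx
  exact ⟨u ^ k, pow_mem hu k, by ring⟩

variable {K : ℕ} {f g : ℚ → ℚ}

theorem Apx.mem (hf : Apx p K f) {y : ℚ} (hy : y ∈ R p) : f y ∈ R p := by
  obtain ⟨P, hP⟩ := hf
  exact (hP y hy).mem_of_sub (aeval_mem P (mul_mem (nat_mem p) hy))

theorem Apx.near (hf : Apx p K f) (h : ∀ y ∈ R p, D p K (g y - f y)) : Apx p K g := by
  obtain ⟨P, hP⟩ := hf
  exact ⟨P, fun y hy => (h y hy).trans (hP y hy)⟩

theorem Apx.congr (hf : Apx p K f) (h : ∀ y, g y = f y) : Apx p K g :=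
  hf.near fun y _ => (D.zero K).of_eq (by rw [h, sub_self])

theorem Apx.poly (P : (R p)[X]) : Apx p K (fun y => aeval ((p : ℚ) * y) P) :=
  ⟨P, fun _ _ => (D.zero K).of_eq (sub_self _)⟩

theorem Apx.const {c : ℚ} (hc : c ∈ R p) : Apx p K (fun _ => c) :=
  (Apx.poly (C ⟨c, hc⟩)).congr fun y => by simp; rfl

theorem Apx.id : Apx p K (fun y => (p : ℚ) * y) :=
  (Apx.poly X).congr fun y => by simp

theorem Apx.add (hf : Apx p K f) (hg : Apx p K g) : Apx p K (fun y => f y + g y) := by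
  obtain ⟨P, hP⟩ := hf
  obtain ⟨Q, hQ⟩ := hg
  exact ⟨P + Q, fun y hy => ((hP y hy).add (hQ y hy)).of_eq (by rw [map_add]; ring)⟩

theorem Apx.mul (hf : Apx p K f) (hg : Apx p K g) : Apx p K (fun y => f y * g y) := by
  have hg' := fun y hy => hg.mem (y := y) hy
  obtain ⟨P, hP⟩ := hf
  obtain ⟨Q, hQ⟩ := hg
  exact ⟨P * Q, fun y hy => ((hP y hy).mul_sub (hQ y hy)
    (aeval_mem P (mul_mem (nat_mem p) hy)) (hg' y hy)).of_eq (by rw [map_mul])⟩

theorem Apx.sub (hf : Apx p K f) (hg : Apx p K g) : Apx p K (fun y => f y - g y) :=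
  (hf.add ((Apx.const (neg_mem (one_mem _))).mul hg)).congr fun y => by ring

theorem Apx.pow (hf : Apx p K f) (n : ℕ) : Apx p K (fun y => f y ^ n) := by
  induction n with
  | zero => exact (Apx.const (one_mem _)).congr fun y => by simp
  | succ n ih => exact (ih.mul hf).congr fun y => by ring

theorem Apx.sum {ι : Type*} (s : Finset ι) {F : ι → ℚ → ℚ} (h : ∀ i ∈ s, Apx p K (F i)) :
    Apx p K (fun y => ∑ i ∈ s, F i y) := by
  classical
  induction s using Finset.induction_on with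
  | empty => exact (Apx.const (zero_mem _)).congr fun y => by simp
  | insert a s ha ih =>
    exact ((h a (mem_insert_self a s)).add
      (ih fun i hi => h i (mem_insert_of_mem hi))).congr fun y => by rw [sum_insert ha]

theorem Apx.prod {ι : Type*} (s : Finset ι) {F : ι → ℚ → ℚ} (h : ∀ i ∈ s, Apx p K (F i)) :
    Apx p K (fun y => ∏ i ∈ s, F i y) := by
  classical
  induction s using Finset.induction_on with
  | empty => exact (Apx.const (one_mem _)).congr fun y => by simp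
  | insert a s ha ih =>
    exact ((h a (mem_insert_self a s)).mul
      (ih fun i hi => h i (mem_insert_of_mem hi))).congr fun y => by rw [prod_insert ha]

theorem Apx.affine (hf : Apx p K f) {a b : ℚ} (ha : a ∈ R p) (hb : b ∈ R p) :
    Apx p K (fun y => f (a * y + b)) := by
  obtain ⟨P, hP⟩ := hf
  refine ⟨P.comp (C ⟨a, ha⟩ * X + C ⟨p * b, mul_mem (nat_mem p) hb⟩), fun y hy => ?_⟩
  refine (hP _ (add_mem (mul_mem ha hy) hb)).of_eq ?_
  rw [aeval_comp]
  have : aeval ((p : ℚ) * y) (C (⟨a, ha⟩ : R p) * X + C ⟨p * b, mul_mem (nat_mem p) hb⟩)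
      = p * (a * y + b) := by
    simp only [map_add, map_mul, aeval_C, aeval_X]
    show a * (p * y) + p * b = _
    ring
  rw [this]

theorem Apx.lin {c : ℚ} (hc : c ∈ R p) : Apx p K (fun y => (p : ℚ) * y + c) :=
  Apx.id.add (Apx.const hc)

theorem Apx.inv_lin {c : ℚ} (hc : U p c) : Apx p K (fun y => ((p : ℚ) * y + c)⁻¹) := by
  have h1 : Apx p K (fun y => c⁻¹ * ∑ j ∈ range K, (-c⁻¹ * ((p : ℚ) * y)) ^ j) :=
    (Apx.const hc.inv).mul (Apx.sum _ fun j _ => ((Apx.const (neg_mem hc.inv)).mul Apx.id).pow j)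
  refine h1.near fun y hy => ?_
  have hu : U p ((p : ℚ) * y + c) := hc.of_sub ((D.p_mul hy).of_eq (by ring))
  have h2 : D p 1 (-c⁻¹ * ((p : ℚ) * y)) := (D.p_mul hy).lmul (neg_mem hc.inv)
  refine ((h2.pow K).div hu).of_eq ?_
  have h3 := geom_sum_mul (-c⁻¹ * ((p : ℚ) * y)) K
  have h4 := hu.ne
  have h5 := hc.ne
  have h6 : -c⁻¹ * ((p : ℚ) * y) - 1 = -(c⁻¹ * (p * y + c)) := by field_simp; ring
  rw [h6] at h3
  rw [eq_div_iff h4, sub_mul, inv_mul_cancel₀ h4]
  linear_combination h3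

theorem Apx.sub_neg (hf : Apx p K f) (hK : 1 ≤ K) {y z : ℚ} (hy : y ∈ R p) (hz : z ∈ R p) :
    D p 1 (f y - f z) := by
  obtain ⟨P, hP⟩ := hf
  obtain ⟨r, hr, h⟩ := aeval_lip P (mul_mem (nat_mem p) hy) (mul_mem (nat_mem p) hz)
  have h1 : D p 1 ((p : ℚ) * ((y - z) * r)) := D.p_mul (mul_mem (sub_mem hy hz) hr)
  exact ((((hP y hy).mono hK).sub ((hP z hz).mono hK)).add h1).of_eq (by linear_combination h)

/-- The telescoping operator. -/
def Lam (h : ℚ → ℚ) (u : ℚ) : ℚ := (u + 1) ^ 4 * h (u + 2) - (u - 1) ^ 4 * h (u - 2)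

theorem two_unit (h3 : 3 < p) : U p 2 := by
  have := U.lt (p := p) (c := 2) (by norm_num) (by omega)
  simpa using this

theorem three_unit (h3 : 3 < p) : U p 3 := by
  have := U.lt (p := p) (c := 3) (by norm_num) (by omega)
  simpa using this

theorem four_unit (h3 : 3 < p) : U p 4 := by
  have := (two_unit h3).mul (two_unit h3)
  rwa [show (2 : ℚ) * 2 = 4 by norm_num] at this

theorem odd_part (h3 : 3 < p) (t : ℕ) : ∀ g : (R p)[X], g.natDegree ≤ 2 * t + 2 →
    ∃ (h : ℚ → ℚ) (κ : ℚ), (∀ u : ℚ, aeval u g - aeval (-u) g = Lam h u + κ * u) ∧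
      ∀ u ∈ R p, (t.factorial : ℚ) * h u ∈ R p := by
  induction t with
  | zero =>
    intro g hg
    refine ⟨fun _ => 0, 2 * (g.coeff 1 : ℚ), fun u => ?_, fun u _ => by simp⟩
    rw [aeval_eq_sum_range' (n := 3) (by omega), aeval_eq_sum_range' (n := 3) (by omega)]
    simp only [sum_range_succ, range_zero, sum_empty, Lam, Algebra.smul_def]
    show _ = _ + 2 * (algebraMap (R p) ℚ (g.coeff 1)) * u
    ring
  | succ t ih =>
    intro g hg
    set G : (R p)[X] := (X + C 1) ^ 4 * (X + C 2) ^ (2 * t) with hG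
    have hm1 : (X + C 1 : (R p)[X]).Monic := monic_X_add_C _
    have hm2 : (X + C 2 : (R p)[X]).Monic := monic_X_add_C _
    have hGm : G.Monic := (hm1.pow _).mul (hm2.pow _)
    have hGd : G.natDegree = 2 * t + 4 := by
      rw [hG, (hm1.pow _).natDegree_mul (hm2.pow _), hm1.natDegree_pow, hm2.natDegree_pow,
        natDegree_X_add_C, natDegree_X_add_C]
      ring
    have hG4 : G.coeff (2 * t + 4) = 1 := by rw [← hGd]; exact hGm
    have hG3 : G.coeff (2 * t + 3) = 4 * ((t : R p) + 1) := by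
      have h1 : G.nextCoeff = 4 * ((t : R p) + 1) := by
        rw [hG, (hm1.pow _).nextCoeff_mul (hm2.pow _), hm1.nextCoeff_pow, hm2.nextCoeff_pow,
          nextCoeff_X_add_C, nextCoeff_X_add_C]
        simp only [nsmul_eq_mul]
        push_cast
        ring
      rw [nextCoeff_of_natDegree_pos (by omega), hGd] at h1
      exact h1
    set a := g.coeff (2 * t + 3) with ha
    set b := 4 * ((t : R p) + 1) * g.coeff (2 * t + 4) - a with hb
    obtain ⟨h, κ, h1, h2⟩ := ih (C (4 * ((t : R p) + 1)) * g - C a * G - C b * X ^ (2 * t + 4)) (by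
      rw [natDegree_le_iff_coeff_eq_zero]
      intro N hN
      simp only [coeff_sub, coeff_C_mul, coeff_X_pow]
      by_cases e3 : N = 2 * t + 3
      · subst e3
        rw [hG3, if_neg (by omega)]; ring
      by_cases e4 : N = 2 * t + 4
      · subst e4
        rw [hG4, if_pos rfl, hb]; ring
      · rw [if_neg e4, coeff_eq_zero_of_natDegree_lt (p := g) (by omega),
          coeff_eq_zero_of_natDegree_lt (p := G) (by omega)]
        ring)
    have ht : (4 * ((t : ℚ) + 1)) ≠ 0 := by positivity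
    refine ⟨fun u => (h u + (a : ℚ) * u ^ (2 * t)) / (4 * ((t : ℚ) + 1)),
      κ / (4 * ((t : ℚ) + 1)), fun u => ?_, fun u hu => ?_⟩
    · have h4 := h1 u
      have e1 : ∀ v : ℚ, aeval v (C (4 * ((t : R p) + 1)) * g - C a * G - C b * X ^ (2 * t + 4))
          = 4 * ((t : ℚ) + 1) * aeval v g - (a : ℚ) * ((v + 1) ^ 4 * (v + 2) ^ (2 * t))
            - (b : ℚ) * v ^ (2 * t + 4) := by
        intro v
        simp only [hG, map_sub, map_mul, map_pow, map_add, aeval_C, aeval_X, map_one,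
          map_natCast, map_ofNat]
        rfl
      rw [e1, e1] at h4
      have e2 : (-u) ^ (2 * t + 4) = u ^ (2 * t + 4) := Even.neg_pow ⟨t + 2, by ring⟩ u
      have e3 : (-u + 2) ^ (2 * t) = (u - 2) ^ (2 * t) := by
        rw [show -u + 2 = -(u - 2) by ring]; exact Even.neg_pow ⟨t, by ring⟩ _
      rw [e2, e3] at h4
      simp only [Lam] at h4 ⊢
      field_simp
      linear_combination h4
    · have : ((t + 1).factorial : ℚ) * ((h u + (a : ℚ) * u ^ (2 * t)) / (4 * ((t : ℚ) + 1)))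
          = ((t.factorial : ℚ) * h u + (t.factorial : ℚ) * ((a : ℚ) * u ^ (2 * t))) / 4 := by
        rw [Nat.factorial_succ]; push_cast; field_simp
      rw [this]
      exact div_mem (add_mem (h2 u hu)
        (mul_mem (nat_mem _) (mul_mem a.2 (pow_mem hu _)))) (four_unit h3)

theorem pow_div_factorial (h3 : 3 < p) {t : ℕ} (ht : 2 ≤ t) :
    (p : ℚ) ^ (2 * t - 4) / (t.factorial : ℚ) ∈ R p := by
  obtain ⟨e, n', hn', he⟩ :=
    Nat.exists_eq_pow_mul_and_not_dvd t.factorial_ne_zero p hp.out.ne_one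
  have h1 : e ≤ padicValNat p t.factorial :=
    (padicValNat_dvd_iff_le t.factorial_ne_zero).1 ⟨n', he⟩
  have h2 := sub_one_mul_padicValNat_factorial (p := p) t
  have h5 : 5 ≤ p := by
    rcases Nat.lt_or_ge p 5 with h | h
    · have : p = 4 := by omega
      have h4 := hp.out
      rw [this] at h4
      exact absurd h4 (by norm_num)
    · exact h
  have h4 : 4 * e ≤ t :=
    le_trans (Nat.mul_le_mul (by omega : 4 ≤ p - 1) h1) (by rw [h2]; omega)
  obtain ⟨d, hd⟩ := Nat.exists_eq_add_of_le (show e ≤ 2 * t - 4 by omega)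
  have hu : U p (n' : ℚ) := U.nat hn'
  have : (p : ℚ) ^ (2 * t - 4) / (t.factorial : ℚ) = (p : ℚ) ^ d / n' := by
    have h1 := hu.ne
    have h2 : (p : ℚ) ≠ 0 := p_ne
    rw [he, hd]; push_cast; field_simp; ring
  rw [this]
  exact div_mem (pow_mem (nat_mem p) d) hu

/-- Functions of the form `p ^ 4 Λ h + κ u` with `h` constant modulo `p`. -/
def Good (p : ℕ) [Fact p.Prime] (f : ℚ → ℚ) : Prop :=
  ∃ (h : ℚ → ℚ) (κ c : ℚ), (p : ℚ) * c ∈ R p ∧ (∀ u, f u = (p : ℚ) ^ 4 * Lam h u + κ * u) ∧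
    ∀ u ∈ R p, D p 1 (h u - c)

theorem Good.add (hf : Good p f) (hg : Good p g) : Good p (fun u => f u + g u) := by
  obtain ⟨h, κ, c, h1, h2, h3⟩ := hf
  obtain ⟨h', κ', c', h1', h2', h3'⟩ := hg
  refine ⟨fun u => h u + h' u, κ + κ', c + c', ?_, fun u => ?_, fun u hu => ?_⟩
  · rw [mul_add]; exact add_mem h1 h1'
  · simp only [h2 u, h2' u, Lam]; ring
  · exact ((h3 u hu).add (h3' u hu)).of_eq (by ring)

theorem good_lin (κ : ℚ) (h : ∀ u, f u = κ * u) : Good p f :=
  ⟨fun _ => 0, κ, 0, by simp, fun u => by simp [Lam, h], fun _ _ => (D.zero 1).of_eq (by simp)⟩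

theorem good_monomial (h3 : 3 < p) (j : ℕ) {a : ℚ} (ha : a ∈ R p) :
    Good p (fun u => a * ((p : ℚ) * u) ^ j - a * (-((p : ℚ) * u)) ^ j) := by
  have hp0 : (p : ℚ) ≠ 0 := p_ne
  rcases Nat.lt_or_ge j 5 with hj | hj
  · interval_cases j
    · exact good_lin 0 fun u => by ring
    · exact good_lin (2 * a * p) fun u => by ring
    · exact good_lin 0 fun u => by ring
    · refine ⟨fun _ => a / (4 * p), -2 * a * p ^ 3, a / (4 * p), ?_, fun u => ?_,
        fun _ _ => (D.zero 1).of_eq (by simp)⟩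
      · rw [show (p : ℚ) * (a / (4 * p)) = a / 4 by field_simp]
        exact div_mem ha (four_unit h3)
      · simp only [Lam]; field_simp; ring
    · exact good_lin 0 fun u => by ring
  · obtain ⟨h, κ, h1, h2⟩ := odd_part h3 ((j - 1) / 2) (X ^ j) (by
      rw [natDegree_X_pow]; omega)
    obtain ⟨d, hd⟩ := Nat.exists_eq_add_of_le (show 5 + (2 * ((j - 1) / 2) - 4) ≤ j by omega)
    set t := (j - 1) / 2 with ht
    refine ⟨fun u => a * (p : ℚ) ^ (j - 4) * h u, a * (p : ℚ) ^ j * κ, 0, by simp,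
      fun u => ?_, fun u hu => ?_⟩
    · have h4 := h1 u
      simp only [map_pow, aeval_X] at h4
      have e : (p : ℚ) ^ j = (p : ℚ) ^ 4 * (p : ℚ) ^ (j - 4) := by
        rw [← pow_add]; congr 1; omega
      beta_reduce
      rw [← mul_neg, mul_pow, mul_pow]
      simp only [Lam] at h4 ⊢
      rw [e]
      linear_combination a * (p : ℚ) ^ 4 * (p : ℚ) ^ (j - 4) * h4
    · have h5 := pow_div_factorial h3 (t := t) (by omega)
      have e : (p : ℚ) ^ (j - 4) = p * (p : ℚ) ^ (2 * t - 4) * (p : ℚ) ^ d := by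
        rw [← pow_succ', ← pow_add]; congr 1; omega
      have hf : (t.factorial : ℚ) ≠ 0 := by exact_mod_cast t.factorial_ne_zero
      refine (D.p_mul (mul_mem (mul_mem ha (pow_mem (nat_mem p) d))
        (mul_mem h5 (h2 u hu)))).of_eq ?_
      rw [e]; field_simp; ring

theorem good_poly (h3 : 3 < p) (P : (R p)[X]) :
    Good p (fun u => aeval ((p : ℚ) * u) P - aeval (-((p : ℚ) * u)) P) := by
  induction P using Polynomial.induction_on' with
  | add P Q hP hQ =>
    obtain ⟨h, κ, c, h1, h2, h4⟩ := hP.add hQ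
    exact ⟨h, κ, c, h1, fun u => by rw [← h2 u]; beta_reduce; rw [map_add, map_add]; ring, h4⟩
  | monomial j a =>
    obtain ⟨h, κ, c, h1, h2, h4⟩ := good_monomial h3 j a.2
    exact ⟨h, κ, c, h1, fun u => by
      rw [← h2 u]; beta_reduce; rw [aeval_monomial, aeval_monomial]; rfl, h4⟩

/-- An odd function that is a polynomial in `p u` modulo `p ^ K` telescopes up to a multiple
of `u`. -/
theorem Apx.odd (h3 : 3 < p) (hf : Apx p K f) (ho : ∀ u ∈ R p, D p K (f (-u) + f u)) :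
    ∃ (h : ℚ → ℚ) (κ c : ℚ), (p : ℚ) * c ∈ R p ∧
      (∀ u ∈ R p, D p K (f u - ((p : ℚ) ^ 4 * Lam h u + κ * u))) ∧
      ∀ u ∈ R p, D p 1 (h u - c) := by
  obtain ⟨P, hP⟩ := hf
  obtain ⟨h, κ, c, h1, h2, h4⟩ := good_poly h3 P
  refine ⟨fun u => h u / 2, κ / 2, c / 2, ?_, fun u hu => ?_, fun u hu => ?_⟩
  · rw [← mul_div_assoc]; exact div_mem h1 (two_unit h3)
  · have e1 := hP u hu
    have e2 := hP (-u) (neg_mem hu)
    rw [mul_neg] at e2
    refine (((e1.sub e2).add (ho u hu)).div (two_unit h3)).of_eq ?_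
    have := h2 u
    simp only [Lam] at this ⊢
    linear_combination this / 2
  · exact ((h4 u hu).div (two_unit h3)).of_eq (by ring)

end Pool.Agent.P.MP_8d9088_nt
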