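import Mathlib

/-! Rationals with denominator prime to `p`, divisibility by powers of `p`, units. -/

namespace Pool.Agent.P.MP_8d9088_nt

open Finset

/-- The ring of rationals whose denominator is prime to `p`. -/
def R (p : ℕ) [hp : Fact p.Prime] : Subring ℚ where
  carrier := {q | ¬ p ∣ q.den}
  mul_mem' := by
    intro a b ha hb h
    rcases (Nat.Prime.dvd_mul hp.out).1 (h.trans (Rat.mul_den_dvd a b)) with h | h
    · exact ha h
    · exact hb h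
  one_mem' := by
    simpa using hp.out.ne_one
  add_mem' := by
    intro a b ha hb h
    rcases (Nat.Prime.dvd_mul hp.out).1 (h.trans (Rat.add_den_dvd a b)) with h | h
    · exact ha h
    · exact hb h
  zero_mem' := by
    simpa using hp.out.ne_one
  neg_mem' := by
    intro a ha
    simpa using ha

variable {p : ℕ} [hp : Fact p.Prime]

theorem mem_R {q : ℚ} : q ∈ R p ↔ ¬ p ∣ q.den := Iff.rfl

theorem p_ne : (p : ℚ) ≠ 0 := by exact_mod_cast hp.out.ne_zero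

/-- `x` is `p ^ k` times an element of `R p`. -/
def D (p : ℕ) [Fact p.Prime] (k : ℕ) (x : ℚ) : Prop := ∃ u ∈ R p, x = (p : ℚ) ^ k * u

theorem nat_mem (n : ℕ) : (n : ℚ) ∈ R p := natCast_mem _ n

theorem D.zero (k : ℕ) : D p k 0 := ⟨0, zero_mem _, by simp⟩

theorem D.add {k : ℕ} {x y : ℚ} (hx : D p k x) (hy : D p k y) : D p k (x + y) := by
  obtain ⟨u, hu, rfl⟩ := hx
  obtain ⟨v, hv, rfl⟩ := hy
  exact ⟨u + v, add_mem hu hv, by ring⟩

theorem D.neg {k : ℕ} {x : ℚ} (hx : D p k x) : D p k (-x) := by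
  obtain ⟨u, hu, rfl⟩ := hx
  exact ⟨-u, neg_mem hu, by ring⟩

theorem D.sub {k : ℕ} {x y : ℚ} (hx : D p k x) (hy : D p k y) : D p k (x - y) := by
  rw [sub_eq_add_neg]; exact hx.add hy.neg

theorem D.lmul {k : ℕ} {x r : ℚ} (hx : D p k x) (hr : r ∈ R p) : D p k (r * x) := by
  obtain ⟨u, hu, rfl⟩ := hx
  exact ⟨r * u, mul_mem hr hu, by ring⟩

theorem D.rmul {k : ℕ} {x r : ℚ} (hx : D p k x) (hr : r ∈ R p) : D p k (x * r) := by
  rw [mul_comm]; exact hx.lmul hr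

theorem D.mul {k l : ℕ} {x y : ℚ} (hx : D p k x) (hy : D p l y) : D p (k + l) (x * y) := by
  obtain ⟨u, hu, rfl⟩ := hx
  obtain ⟨v, hv, rfl⟩ := hy
  exact ⟨u * v, mul_mem hu hv, by ring⟩

theorem D.of_eq {k : ℕ} {x y : ℚ} (hx : D p k x) (h : y = x) : D p k y := h ▸ hx

theorem D.mono {k l : ℕ} {x : ℚ} (hx : D p k x) (h : l ≤ k) : D p l x := by
  obtain ⟨u, hu, rfl⟩ := hx
  obtain ⟨d, rfl⟩ := Nat.exists_eq_add_of_le h
  exact ⟨(p : ℚ) ^ d * u, mul_mem (pow_mem (nat_mem p) d) hu, by ring⟩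

theorem D.mem {k : ℕ} {x : ℚ} (hx : D p k x) : x ∈ R p := by
  obtain ⟨u, hu, rfl⟩ := hx
  exact mul_mem (pow_mem (nat_mem p) k) hu

theorem D.of_mem {x : ℚ} (hx : x ∈ R p) : D p 0 x := ⟨x, hx, by simp⟩

theorem D.pow_mul (k : ℕ) {x : ℚ} (hx : x ∈ R p) : D p k ((p : ℚ) ^ k * x) := ⟨x, hx, rfl⟩

theorem D.p_mul {x : ℚ} (hx : x ∈ R p) : D p 1 ((p : ℚ) * x) := ⟨x, hx, by simp⟩

theorem D.shift {k : ℕ} (j : ℕ) {x : ℚ} (hx : D p k x) : D p (j + k) ((p : ℚ) ^ j * x) :=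
  (D.pow_mul j (one_mem _)).mul hx |>.of_eq (by ring)

theorem D.cancel {k : ℕ} (j : ℕ) {x : ℚ} (hx : D p (j + k) ((p : ℚ) ^ j * x)) : D p k x := by
  obtain ⟨u, hu, h⟩ := hx
  refine ⟨u, hu, ?_⟩
  have h1 : (p : ℚ) ^ j ≠ 0 := pow_ne_zero _ p_ne
  apply mul_left_cancel₀ h1
  rw [h]; ring

theorem D.sum {k : ℕ} {ι : Type*} {s : Finset ι} {f : ι → ℚ} (h : ∀ i ∈ s, D p k (f i)) :
    D p k (∑ i ∈ s, f i) :=
  Finset.sum_induction f (D p k) (fun _ _ => D.add) (D.zero k) h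

theorem D.sum_sub {k : ℕ} {ι : Type*} {s : Finset ι} {f g : ι → ℚ}
    (h : ∀ i ∈ s, D p k (f i - g i)) : D p k (∑ i ∈ s, f i - ∑ i ∈ s, g i) := by
  rw [← Finset.sum_sub_distrib]; exact D.sum h

theorem D.trans {k : ℕ} {x y z : ℚ} (h1 : D p k (x - y)) (h2 : D p k (y - z)) :
    D p k (x - z) := (h1.add h2).of_eq (by ring)

theorem D.symm {k : ℕ} {x y : ℚ} (h1 : D p k (x - y)) : D p k (y - x) :=
  h1.neg.of_eq (by ring)

theorem D.mul_sub {k : ℕ} {x y z w : ℚ} (h1 : D p k (x - y)) (h2 : D p k (z - w))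
    (hy : y ∈ R p) (hz : z ∈ R p) : D p k (x * z - y * w) :=
  ((h1.rmul hz).add (h2.lmul hy)).of_eq (by ring)

theorem D.sq_sub {k : ℕ} {x y : ℚ} (h1 : D p k (x - y)) (hy : y ∈ R p) :
    D p k (x ^ 2 - y ^ 2) := by
  have hx : x ∈ R p := by
    have := add_mem h1.mem hy
    rwa [sub_add_cancel] at this
  exact (h1.mul_sub h1 hy hx).of_eq (by ring)

theorem D.mem_of_sub {k : ℕ} {x y : ℚ} (h1 : D p k (x - y)) (hy : y ∈ R p) : x ∈ R p := by
  have := add_mem h1.mem hy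
  rwa [sub_add_cancel] at this

/-- Units of `R p`. -/
def U (p : ℕ) [Fact p.Prime] (x : ℚ) : Prop := x ∈ R p ∧ x⁻¹ ∈ R p ∧ x ≠ 0

theorem U.mem {x : ℚ} (h : U p x) : x ∈ R p := h.1
theorem U.inv {x : ℚ} (h : U p x) : x⁻¹ ∈ R p := h.2.1
theorem U.ne {x : ℚ} (h : U p x) : x ≠ 0 := h.2.2

theorem U.one : U p 1 := ⟨one_mem _, by simp, one_ne_zero⟩

theorem U.mul {x y : ℚ} (hx : U p x) (hy : U p y) : U p (x * y) :=
  ⟨mul_mem hx.mem hy.mem, by rw [mul_inv]; exact mul_mem hx.inv hy.inv, mul_ne_zero hx.ne hy.ne⟩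

theorem U.neg {x : ℚ} (hx : U p x) : U p (-x) :=
  ⟨neg_mem hx.mem, by rw [inv_neg]; exact neg_mem hx.inv, neg_ne_zero.2 hx.ne⟩

theorem U.pow {x : ℚ} (hx : U p x) (n : ℕ) : U p (x ^ n) :=
  ⟨pow_mem hx.mem n, by rw [← inv_pow]; exact pow_mem hx.inv n, pow_ne_zero n hx.ne⟩

theorem U.uinv {x : ℚ} (hx : U p x) : U p x⁻¹ :=
  ⟨hx.inv, by rw [inv_inv]; exact hx.mem, inv_ne_zero hx.ne⟩

theorem U.div {x y : ℚ} (hx : U p x) (hy : U p y) : U p (x / y) := by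
  rw [div_eq_mul_inv]; exact hx.mul hy.uinv

theorem U.prod {ι : Type*} {s : Finset ι} {f : ι → ℚ} (h : ∀ i ∈ s, U p (f i)) :
    U p (∏ i ∈ s, f i) :=
  Finset.prod_induction f (U p) (fun _ _ => U.mul) U.one h

theorem div_mem {x y : ℚ} (hx : x ∈ R p) (hy : U p y) : x / y ∈ R p := by
  rw [div_eq_mul_inv]; exact mul_mem hx hy.inv

theorem D.div {k : ℕ} {x y : ℚ} (hx : D p k x) (hy : U p y) : D p k (x / y) := by
  rw [div_eq_mul_inv]; exact hx.rmul hy.inv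

theorem D.of_mul {k : ℕ} {x y : ℚ} (hx : D p k (x * y)) (hy : U p y) : D p k x :=
  (hx.div hy).of_eq (by have := hy.ne; field_simp)

theorem unit_or (x : ℚ) (hx : x ∈ R p) : U p x ∨ D p 1 x := by
  by_cases h : (p : ℤ) ∣ x.num
  · right
    obtain ⟨c, hc⟩ := h
    have hd : ((x.den : ℚ))⁻¹ ∈ R p := by
      rw [mem_R, Rat.inv_natCast_den_of_pos x.den_pos]
      exact hx
    refine ⟨(c : ℚ) * (x.den : ℚ)⁻¹, mul_mem (intCast_mem _ c) hd, ?_⟩
    have h1 : x = (x.num : ℚ) / (x.den : ℚ) := (Rat.num_div_den x).symm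
    rw [hc] at h1
    rw [pow_one, ← mul_assoc, ← div_eq_mul_inv]
    exact h1.trans (by push_cast; rfl)
  · left
    have h0 : x ≠ 0 := by
      rintro rfl
      exact h (by simp)
    refine ⟨hx, ?_, h0⟩
    rw [mem_R, Rat.den_inv, if_neg (by simpa using h0)]
    intro h2
    exact h (Int.natCast_dvd.2 h2)

theorem not_D_nat {c : ℕ} (hc : ¬ p ∣ c) : ¬ D p 1 (c : ℚ) := by
  rintro ⟨u, hu, h⟩
  have h1 : (c : ℚ) * u.den = p * u.num := by
    rw [h, pow_one, mul_assoc, Rat.mul_den_eq_num]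
  have h2 : (c : ℤ) * u.den = p * u.num := by exact_mod_cast h1
  have h3 : (p : ℤ) ∣ ((c * u.den : ℕ) : ℤ) := ⟨u.num, by push_cast; exact h2⟩
  rcases (Nat.Prime.dvd_mul hp.out).1 (Int.natCast_dvd_natCast.1 h3) with h | h
  · exact hc h
  · exact hu h

theorem U.nat {c : ℕ} (hc : ¬ p ∣ c) : U p (c : ℚ) :=
  (unit_or _ (nat_mem c)).resolve_right (not_D_nat hc)

theorem U.of_sub {x y : ℚ} (hy : U p y) (h : D p 1 (x - y)) : U p x := by
  rcases unit_or x (h.mem_of_sub hy.mem) with h1 | h1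
  · exact h1
  · exfalso
    have h2 : D p 1 y := (h1.sub h).of_eq (by ring)
    have h3 : D p 1 ((1 : ℕ) : ℚ) := (h2.div hy).of_eq (by have := hy.ne; field_simp; simp)
    exact not_D_nat (by simpa using hp.out.ne_one) h3

theorem U.lt {c : ℕ} (h0 : 0 < c) (hc : c < p) : U p (c : ℚ) :=
  U.nat (Nat.not_dvd_of_pos_of_lt h0 hc)

theorem U.lin {c : ℕ} (h0 : 0 < c) (hc : c < p) {y : ℚ} (hy : y ∈ R p) :
    U p ((p : ℚ) * y + c) :=
  (U.lt h0 hc).of_sub ((D.p_mul hy).of_eq (by ring))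

/-- Every nonzero rational divides a power of `p` in `R p`. -/
theorem exists_pow_div {w : ℚ} (hw : w ≠ 0) : ∃ s : ℕ, (p : ℚ) ^ s / w ∈ R p := by
  have hn : w.num.natAbs ≠ 0 := by simpa using hw
  obtain ⟨e, n', hn', he⟩ := Nat.exists_eq_pow_mul_and_not_dvd hn p hp.out.ne_one
  refine ⟨e, ?_⟩
  have hu : U p (n' : ℚ) := U.nat hn'
  have h1 : w * (w.den : ℚ) = w.num := Rat.mul_den_eq_num w
  have h2 : (w.num : ℚ) = (p : ℚ) ^ e * n' ∨ (w.num : ℚ) = -((p : ℚ) ^ e * n') := by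
    rcases Int.natAbs_eq w.num with h | h
    · left; rw [h, he]; push_cast; rfl
    · right; rw [h, he]; push_cast; rfl
  have hn0 := hu.ne
  rcases h2 with h | h
  · have : (p : ℚ) ^ e / w = (w.den : ℚ) / n' := by
      rw [div_eq_div_iff hw hn0]; linear_combination -h1 - h
    rw [this]; exact div_mem (nat_mem _) hu
  · have : (p : ℚ) ^ e / w = -(w.den : ℚ) / n' := by
      rw [div_eq_div_iff hw hn0]; linear_combination h1 + h
    rw [this]; exact div_mem (neg_mem (nat_mem _)) hu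

/-- `p ^ s / j` lies in `R p` for `1 ≤ j ≤ p ^ s`. -/
theorem pow_div_mem {s j : ℕ} (h0 : 0 < j) (hj : j ≤ p ^ s) : (p : ℚ) ^ s / j ∈ R p := by
  obtain ⟨e, n', hn', he⟩ := Nat.exists_eq_pow_mul_and_not_dvd h0.ne' p hp.out.ne_one
  have hu : U p (n' : ℚ) := U.nat hn'
  have hpos : 0 < n' := Nat.pos_of_ne_zero (by rintro rfl; exact hn' (dvd_zero p))
  have hes : e ≤ s := by
    have : p ^ e ≤ p ^ s := le_trans (by rw [he]; exact Nat.le_mul_of_pos_right _ hpos) hj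
    exact (Nat.pow_le_pow_iff_right hp.out.one_lt).1 this
  obtain ⟨d, rfl⟩ := Nat.exists_eq_add_of_le hes
  have : (p : ℚ) ^ (e + d) / j = (p : ℚ) ^ d / n' := by
    have h1 := hu.ne
    have h2 : (p : ℚ) ≠ 0 := p_ne
    rw [he]; push_cast; field_simp; ring
  rw [this]
  exact div_mem (pow_mem (nat_mem p) d) hu

end Pool.Agent.P.MP_8d9088_nt
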