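import Pool.Agent.P.MP_8d9088_nt.Sig

/-! Block sums and the eigenvector property. -/

namespace Pool.Agent.P.MP_8d9088_nt

open Finset

variable {p : ℕ} [hp : Fact p.Prime] {m K : ℕ} {F : ℚ → ℚ}

/-- The summand. -/
def tt (k : ℕ) : ℚ := (4 * k + 1) * cc k ^ 4

/-- The sum of the first `n` summands. -/
def SS (n : ℕ) : ℚ := ∑ k ∈ range n, tt k

/-- First half of a block. -/
def UU (p m : ℕ) (F : ℚ → ℚ) (y : ℚ) : ℚ :=
  ∑ i ∈ range (m + 1), (2 * (p * y) + (4 * i + 1)) * (F y ^ 2 * (Pr p 1 i y / Pr p 2 i y) ^ 4)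
    - p * (2 * y + 1)

/-- Second half of a block. -/
def VV (p m : ℕ) (F : ℚ → ℚ) (z : ℚ) : ℚ :=
  ∑ i ∈ range m, (2 * (p * z) + (4 * i + 3)) *
    (F (-z) ^ 2 * (Pr p 2 i z / Pr p 1 (i + 1) z) ^ 4)

theorem lin4_mem (l : ℕ) (e : ℕ) : (4 * (l : ℚ) + e) ∈ R p :=
  add_mem (mul_mem (ofNat_mem _ 4) (nat_mem l)) (nat_mem e)

theorem Eul.apx_U (hm : p = 2 * m + 1) (h : Eul p m K F) : Apx p K (UU p m F) := by
  refine ((Apx.sum (range (m + 1)) (F := fun i y => (2 * (p * y) + (4 * i + 1)) *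
    (F y ^ 2 * (Pr p 1 i y * (Pr p 2 i y)⁻¹) ^ 4)) fun i hi => ?_).sub
    (((Apx.const (ofNat_mem _ 2)).mul Apx.id).add (Apx.const (nat_mem p)))).congr fun y => ?_
  · exact (((Apx.const (ofNat_mem _ 2)).mul Apx.id).add
      (Apx.const (by simpa using lin4_mem (p := p) i 1))).mul ((h.apx.pow 2).mul
        (((Apx.pr_one K i).mul (Apx.pr_two_inv hm K (Nat.lt_succ_iff.1 (mem_range.1 hi)))).pow 4))
  · simp only [UU, div_eq_mul_inv]; ring

theorem Eul.apx_V (hm : p = 2 * m + 1) (h : Eul p m K F) : Apx p K (VV p m F) := by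
  have hn : Apx p K (fun z => F (-z)) :=
    (h.apx.affine (neg_mem (one_mem _)) (zero_mem _)).congr fun y => by simp
  refine (Apx.sum (range m) (F := fun i z => (2 * (p * z) + (4 * i + 3)) *
    (F (-z) ^ 2 * (Pr p 2 i z * (Pr p 1 (i + 1) z)⁻¹) ^ 4)) fun i hi => ?_).congr fun y => ?_
  · exact (((Apx.const (ofNat_mem _ 2)).mul Apx.id).add
      (Apx.const (by simpa using lin4_mem (p := p) i 3))).mul ((hn.pow 2).mul
        (((Apx.pr_two K i).mul (Apx.pr_one_inv hm K (mem_range.1 hi))).pow 4))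
  · simp only [VV, div_eq_mul_inv]

theorem refl_one (hm : p = 2 * m + 1) {i j : ℕ} (hij : i + j = m) {y : ℚ} (hy : y ∈ R p) :
    Pr p 1 j (-1 - y) ^ 4 = (Pr p 2 m y / Pr p 2 i y) ^ 4 := by
  have h := Pr_refl hm hij 1 y
  rw [show (3 : ℚ) - 1 = 2 by norm_num] at h
  have hu := (Pr_two_unit hm (i := i) (by omega) hy).ne
  have h1 : Pr p 1 j (-1 - y) = (-1) ^ j * (Pr p 2 m y / Pr p 2 i y) := by
    field_simp; linear_combination h
  rw [h1, mul_pow, ← pow_mul, Even.neg_one_pow ⟨j * 2, by ring⟩, one_mul]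

theorem refl_two (hm : p = 2 * m + 1) {i j : ℕ} (hij : i + j = m) {y : ℚ} (hy : y ∈ R p) :
    Pr p 2 j (-1 - y) ^ 4 = (Pr p 1 m y / Pr p 1 i y) ^ 4 := by
  have h := Pr_refl hm hij 2 y
  rw [show (3 : ℚ) - 2 = 1 by norm_num] at h
  have hu := (Pr_one_unit hm (i := i) (by omega) hy).ne
  have h1 : Pr p 2 j (-1 - y) = (-1) ^ j * (Pr p 1 m y / Pr p 1 i y) := by
    field_simp; linear_combination h
  rw [h1, mul_pow, ← pow_mul, Even.neg_one_pow ⟨j * 2, by ring⟩, one_mul]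

theorem lin_mem' {y : ℚ} (hy : y ∈ R p) (i e : ℕ) : 2 * ((p : ℚ) * y) + (4 * i + e) ∈ R p :=
  add_mem (mul_mem (ofNat_mem _ 2) (mul_mem (nat_mem p) hy)) (lin4_mem i e)

theorem Eul.odd_U (hm : p = 2 * m + 1) (h : Eul p m K F) {y : ℚ} (hy : y ∈ R p) :
    D p K (UU p m F (-1 - y) + UU p m F y) := by
  have hp' : (p : ℚ) = 2 * m + 1 := by rw [hm]; push_cast; ring
  have uA := Pr_one_unit hm le_rfl hy
  have uB := Pr_two_unit hm le_rfl hy
  have e1 := (h.refl hm hy).sq_sub (mul_mem (h.mem hy) ((uA.div uB).pow 2).mem)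
  have key : D p K (∑ i ∈ range (m + 1), ((2 * (p * (-1 - y)) + (4 * ((m + 1 - 1 - i : ℕ) : ℚ) + 1)) *
      (F (-1 - y) ^ 2 * (Pr p 1 (m + 1 - 1 - i) (-1 - y) / Pr p 2 (m + 1 - 1 - i) (-1 - y)) ^ 4)
      + (2 * (p * y) + (4 * i + 1)) * (F y ^ 2 * (Pr p 1 i y / Pr p 2 i y) ^ 4))) := by
    refine D.sum fun i hi => ?_
    have hi' : i ≤ m := Nat.lt_succ_iff.1 (mem_range.1 hi)
    have hij : i + (m + 1 - 1 - i) = m := by omega
    have hc : ((m + 1 - 1 - i : ℕ) : ℚ) = m - i := by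
      rw [Nat.add_sub_cancel, Nat.cast_sub hi']
    have ua := Pr_one_unit hm hi' hy
    have ub := Pr_two_unit hm hi' hy
    have e2 := (e1.rmul (((uB.div ub).div (uA.div ua)).pow 4).mem).lmul
      (neg_mem (lin_mem' hy i 1))
    refine e2.of_eq ?_
    rw [div_pow (Pr p 1 _ (-1 - y)), refl_one hm hij hy, refl_two hm hij hy, hc]
    have e4 : 2 * ((p : ℚ) * (-1 - y)) + (4 * ((m : ℚ) - i) + 1) = -(2 * (p * y) + (4 * i + 1)) := by
      linear_combination -2 * hp'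
    rw [e4]
    have := uA.ne
    have := uB.ne
    have := ua.ne
    have := ub.ne
    push_cast
    field_simp
    ring
  refine key.of_eq ?_
  rw [sum_add_distrib, sum_range_reflect (fun i : ℕ => (2 * (p * (-1 - y)) + (4 * (i : ℚ) + 1)) *
      (F (-1 - y) ^ 2 * (Pr p 1 i (-1 - y) / Pr p 2 i (-1 - y)) ^ 4))]
  simp only [UU]
  ring

theorem Eul.odd_V (hm : p = 2 * m + 1) (h : Eul p m K F) {z : ℚ} (hz : z ∈ R p) :
    D p K (VV p m F (-1 - z) + VV p m F z) := by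
  have hp' : (p : ℚ) = 2 * m + 1 := by rw [hm]; push_cast; ring
  have uA := Pr_one_unit hm le_rfl hz
  have uB := Pr_two_unit hm le_rfl hz
  have hz1 : z + 1 ∈ R p := add_mem hz (one_mem _)
  have e0 : D p K (F (z + 1) * (Pr p 1 m z / Pr p 2 m z) ^ 2 - F (-z)) := by
    have a1 := (h.eqn z hz).sub ((h.inv z hz).lmul (uB.pow 2).mem)
    refine D.of_mul (y := F z * Pr p 2 m z ^ 2) (a1.of_eq ?_) ((h.unit hz).mul (uB.pow 2))
    have := uB.ne
    field_simp
    ring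
  have e1 := e0.sq_sub (h.mem (neg_mem hz))
  have key : D p K (∑ i ∈ range m, ((2 * (p * (-1 - z)) + (4 * ((m - 1 - i : ℕ) : ℚ) + 3)) *
      (F (-(-1 - z)) ^ 2 * (Pr p 2 (m - 1 - i) (-1 - z) / Pr p 1 (m - 1 - i + 1) (-1 - z)) ^ 4)
      + (2 * (p * z) + (4 * i + 3)) * (F (-z) ^ 2 * (Pr p 2 i z / Pr p 1 (i + 1) z) ^ 4))) := by
    refine D.sum fun i hi => ?_
    have hi' : i < m := mem_range.1 hi
    have hij : (i + 1) + (m - 1 - i) = m := by omega
    have hij' : i + (m - 1 - i + 1) = m := by omega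
    have hc : ((m - 1 - i : ℕ) : ℚ) = m - 1 - i := by
      rw [Nat.sub_sub, Nat.cast_sub (by omega)]; push_cast; ring
    have ua := Pr_one_unit hm (i := i + 1) hi' hz
    have ub := Pr_two_unit hm hi'.le hz
    have e2 := (e1.rmul ((ub.div ua).pow 4).mem).lmul (neg_mem (lin_mem' hz i 3))
    refine e2.of_eq ?_
    rw [div_pow (Pr p 2 _ (-1 - z)), refl_one hm hij' hz, refl_two hm hij hz, hc,
      show -(-1 - z) = z + 1 by ring]
    have e4 : 2 * ((p : ℚ) * (-1 - z)) + (4 * ((m : ℚ) - 1 - i) + 3)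
        = -(2 * (p * z) + (4 * i + 3)) := by
      linear_combination -2 * hp'
    rw [e4]
    have := uA.ne
    have := uB.ne
    have := ua.ne
    have := ub.ne
    push_cast
    field_simp
    ring
  refine key.of_eq ?_
  rw [sum_add_distrib, sum_range_reflect (fun i : ℕ => (2 * (p * (-1 - z)) + (4 * (i : ℚ) + 3)) *
      (F (-(-1 - z)) ^ 2 * (Pr p 2 i (-1 - z) / Pr p 1 (i + 1) (-1 - z)) ^ 4))]
  simp only [VV]

theorem Eul.block_U (h3 : 3 < p) (hm : p = 2 * m + 1) (h : Eul p m K F) (x : ℕ) :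
    D p K (∑ i ∈ range (m + 1), tt (x * p + i) - p * tt x - cc x ^ 4 * UU p m F (2 * x)) := by
  have hy : (2 * x : ℚ) ∈ R p := mul_mem (ofNat_mem _ 2) (nat_mem x)
  have e1 := (h.sigma h3 hm x).sq_sub (h.mem hy)
  have key : D p K (∑ i ∈ range (m + 1), tt (x * p + i) - ∑ i ∈ range (m + 1), cc x ^ 4 *
      ((2 * (p * (2 * x)) + (4 * i + 1)) *
        (F (2 * x) ^ 2 * (Pr p 1 i (2 * x) / Pr p 2 i (2 * x)) ^ 4))) := by
    refine D.sum_sub fun i hi => ?_
    have hi' : i ≤ m := Nat.lt_succ_iff.1 (mem_range.1 hi)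
    have u := ((Pr_one_unit hm hi' hy).div (Pr_two_unit hm hi' hy)).pow 4
    refine (((e1.rmul u.mem).lmul (lin_mem' hy i 1)).lmul (pow_mem (cc_mem h3 x) 4)).of_eq ?_
    rw [tt, cc_add]
    have := (cc_pos x).ne'
    generalize Pr p 1 i (2 * x) / Pr p 2 i (2 * x) = r
    push_cast
    field_simp
    ring
  refine key.of_eq ?_
  rw [← mul_sum]
  simp only [UU, tt]
  ring

theorem Eul.block_V (h3 : 3 < p) (hm : p = 2 * m + 1) (h : Eul p m K F) (x : ℕ) :
    D p K (∑ i ∈ range m, tt (x * p + m + (i + 1))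
      - cc x ^ 4 * ((p * (2 * x + 1)) ^ 4 * VV p m F (2 * x + 1))) := by
  have hz : (2 * x + 1 : ℚ) ∈ R p := add_mem (mul_mem (ofNat_mem _ 2) (nat_mem x)) (one_mem _)
  have hp' : (p : ℚ) = 2 * m + 1 := by rw [hm]; push_cast; ring
  have e1 := (h.rho h3 hm x).sq_sub (h.mem (neg_mem hz))
  simp only [VV]
  rw [mul_sum, mul_sum]
  refine D.sum_sub fun i hi => ?_
  have hi' : i < m := mem_range.1 hi
  have u := ((Pr_two_unit hm hi'.le hz).div (Pr_one_unit hm (i := i + 1) hi' hz)).pow 4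
  refine ((((e1.rmul u.mem).lmul (lin_mem' hz i 3)).lmul
    (pow_mem (mul_mem (nat_mem p) hz) 4)).lmul (pow_mem (cc_mem h3 x) 4)).of_eq ?_
  rw [tt, cc_add' hm]
  have e4 : 4 * ((x * p + m + (i + 1) : ℕ) : ℚ) + 1 = 2 * (p * (2 * x + 1)) + (4 * i + 3) := by
    push_cast; linear_combination -2 * hp'
  rw [e4]
  have := (cc_pos x).ne'
  generalize Pr p 2 i (2 * x + 1) / Pr p 1 (i + 1) (2 * x + 1) = r
  push_cast
  field_simp

omit hp in
theorem SS_half (x : ℕ) : SS (x * p + m + 1) = SS (x * p) + ∑ i ∈ range (m + 1), tt (x * p + i) := by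
  rw [SS, add_assoc, sum_range_add]; rfl

omit hp in
theorem SS_full (hm : p = 2 * m + 1) (x : ℕ) :
    SS ((x + 1) * p) = SS (x * p + m + 1) + ∑ i ∈ range m, tt (x * p + m + (i + 1)) := by
  rw [show (x + 1) * p = (x * p + m + 1) + m by rw [add_mul, hm]; ring, SS, sum_range_add]
  congr 1
  exact sum_congr rfl fun i _ => by congr 1; ring

/-- The eigenvector property modulo `p ^ K`. -/
theorem structure_thm (h3 : 3 < p) (hm : p = 2 * m + 1) (hK : 1 ≤ K) :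
    ∃ κ c : ℚ, (p : ℚ) * c ∈ R p ∧ ∀ N : ℕ,
      (∃ e, D p 1 (e - c) ∧ D p K (SS ((N + 1) * p) - (p + κ) * SS (N + 1)
        - (p * (2 * N + 1) * cc N) ^ 4 * e)) ∧
      (∃ e, D p 1 (e - c) ∧ D p K (SS (N * p + m + 1) - (p + κ) * SS (N + 1)
        - (p * (2 * N + 1) * cc N) ^ 4 * e)) := by
  obtain ⟨F, h⟩ := exists_eul h3 hm K
  have h2 := two_unit h3
  have hh : (2⁻¹ : ℚ) ∈ R p := h2.inv
  have h32 : U p 32 := by
    have := h2.pow 5
    rwa [show (2 : ℚ) ^ 5 = 32 by norm_num] at this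
  set Ut : ℚ → ℚ := fun u => UU p m F (2⁻¹ * u + -2⁻¹) with hUt
  set Vt : ℚ → ℚ := fun u => VV p m F (2⁻¹ * u + -2⁻¹) with hVt
  have aU : Apx p K Ut := (h.apx_U hm).affine hh (neg_mem hh)
  have aV : Apx p K Vt := (h.apx_V hm).affine hh (neg_mem hh)
  have oU : ∀ u ∈ R p, D p K (Ut (-u) + Ut u) := by
    intro u hu
    have := h.odd_U hm (add_mem (mul_mem hh hu) (neg_mem hh))
    simp only [hUt]
    rwa [show 2⁻¹ * -u + -2⁻¹ = -1 - (2⁻¹ * u + -2⁻¹) by ring]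
  have oV : ∀ u ∈ R p, D p K (Vt (-u) + Vt u) := by
    intro u hu
    have := h.odd_V hm (add_mem (mul_mem hh hu) (neg_mem hh))
    simp only [hVt]
    rwa [show 2⁻¹ * -u + -2⁻¹ = -1 - (2⁻¹ * u + -2⁻¹) by ring]
  have V1 : ∀ u ∈ R p, D p 1 (Vt u) := by
    intro u hu
    have := ((aV.sub_neg hK hu (neg_mem hu)).add ((oV u hu).mono hK)).div h2
    exact this.of_eq (by ring)
  set f : ℚ → ℚ := fun u => Ut u + 32⁻¹ * ((p * u + p) ^ 4 * Vt (1 * u + 2)
    + (p * u + -p) ^ 4 * Vt (1 * u + -2)) with hf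
  have af : Apx p K f := aU.add ((Apx.const h32.inv).mul
    ((((Apx.lin (nat_mem p)).pow 4).mul (aV.affine (one_mem _) h2.mem)).add
      (((Apx.lin (neg_mem (nat_mem p))).pow 4).mul (aV.affine (one_mem _) (neg_mem h2.mem)))))
  have of : ∀ u ∈ R p, D p K (f (-u) + f u) := by
    intro u hu
    have a1 := (oV _ (add_mem hu h2.mem)).lmul
      (pow_mem (add_mem (mul_mem (nat_mem p) hu) (nat_mem p)) 4)
    have a2 := (oV _ (sub_mem hu h2.mem)).lmul
      (pow_mem (sub_mem (mul_mem (nat_mem p) hu) (nat_mem p)) 4)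
    refine ((oU u hu).add ((a1.add a2).lmul h32.inv)).of_eq ?_
    simp only [hf]
    rw [show 1 * -u + 2 = -(u - 2) by ring, show 1 * -u + -2 = -(u + 2) by ring,
      show 1 * u + 2 = u + 2 by ring, show 1 * u + -2 = u - 2 by ring]
    ring
  obtain ⟨g, κ, c, hc, hg, hg1⟩ := af.odd h3 of
  have mem43 : ∀ N : ℕ, (4 * (N : ℚ) + 3) ∈ R p := fun N => by
    simpa using lin4_mem (p := p) N 3
  have mem41 : ∀ N : ℕ, (4 * (N : ℚ) + 1) ∈ R p := fun N => by
    simpa using lin4_mem (p := p) N 1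
  have tel : ∀ N : ℕ, D p K (SS (N * p) - (p + κ) * SS N - (p * (2 * N) * cc N) ^ 4 *
      (16 * g (4 * N - 1) + Vt (4 * N - 1) / 2)) := by
    intro N
    induction N with
    | zero => exact (D.zero K).of_eq (by simp [SS])
    | succ N ih =>
      have b1 := h.block_U h3 hm N
      have b2 := h.block_V h3 hm N
      have b3 := (hg _ (mem41 N)).lmul (pow_mem (cc_mem h3 N) 4)
      refine (((ih.add b1).add b2).add b3).of_eq ?_
      rw [SS_full hm, SS_half]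
      have e1 : SS (N + 1) = SS N + tt N := sum_range_succ _ _
      have e2 : (p * (2 * ((N + 1 : ℕ) : ℚ)) * cc (N + 1)) = p * (2 * N + 1) * cc N := by
        rw [cc_succ]; push_cast; field_simp
      have e3 : UU p m F (2 * N) = Ut (4 * N + 1) := by
        simp only [hUt]; congr 1; ring
      have e4 : VV p m F (2 * N + 1) = Vt (4 * N + 3) := by
        simp only [hVt]; congr 1; ring
      rw [e1, e2, e3, e4]
      simp only [hf, Lam, tt]
      rw [show 4 * ((N + 1 : ℕ) : ℚ) - 1 = 4 * N + 3 by push_cast; ring,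
        show 1 * (4 * (N : ℚ) + 1) + 2 = 4 * N + 3 by ring,
        show 1 * (4 * (N : ℚ) + 1) + -2 = 4 * N - 1 by ring,
        show (4 * (N : ℚ) + 1) + 2 = 4 * N + 3 by ring,
        show (4 * (N : ℚ) + 1) - 2 = 4 * N - 1 by ring]
      ring
  refine ⟨κ, 16 * c, ?_, fun N => ?_⟩
  · rw [mul_left_comm]; exact mul_mem (ofNat_mem _ 16) hc
  have t1 := tel (N + 1)
  have e2 : (p * (2 * ((N + 1 : ℕ) : ℚ)) * cc (N + 1)) = p * (2 * N + 1) * cc N := by
    rw [cc_succ]; push_cast; field_simp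
  rw [e2, show 4 * ((N + 1 : ℕ) : ℚ) - 1 = 4 * N + 3 by push_cast; ring] at t1
  have g1 := (hg1 _ (mem43 N)).lmul (ofNat_mem _ 16)
  have g2 := (V1 _ (mem43 N)).div h2
  refine ⟨⟨_, (g1.add g2).of_eq (by ring), t1⟩,
    ⟨16 * g (4 * N + 3) - Vt (4 * N + 3) / 2, (g1.sub g2).of_eq (by ring), ?_⟩⟩
  have b2 := h.block_V h3 hm N
  have e4 : VV p m F (2 * N + 1) = Vt (4 * N + 3) := by
    simp only [hVt]; congr 1; ring
  rw [e4] at b2
  refine (t1.sub b2).of_eq ?_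
  rw [SS_full hm]
  ring

end Pool.Agent.P.MP_8d9088_nt
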