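import Pool.Agent.P.MP_8d9088_nt.One

/-! The Dwork type congruences. -/

namespace Pool.Agent.P.MP_8d9088_nt

open Finset

variable {p : ℕ} [hp : Fact p.Prime] {m : ℕ}

theorem SS_mem (h3 : 3 < p) (n : ℕ) : SS n ∈ R p :=
  sum_mem fun k _ => mul_mem (by simpa using lin4_mem (p := p) k 1) (pow_mem (cc_mem h3 k) 4)

omit hp in
theorem SS_one : SS 1 = 1 := by simp [SS, tt, cc]

omit hp in
theorem half_spec (hm : p = 2 * m + 1) (s : ℕ) : 2 * ((p ^ s - 1) / 2) + 1 = p ^ s := by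
  obtain ⟨n, hn⟩ : Odd (p ^ s) := Odd.pow ⟨m, hm⟩
  omega

omit hp in
theorem half_succ (hm : p = 2 * m + 1) (s : ℕ) :
    (p ^ (s + 1) - 1) / 2 = (p ^ s - 1) / 2 * p + m := by
  have h1 := half_spec hm s
  have h2 : p ^ (s + 1) = 2 * ((p ^ s - 1) / 2 * p + m) + 1 := by
    rw [pow_succ]
    generalize (p ^ s - 1) / 2 = x at h1 ⊢
    rw [← h1, hm]; ring
  omega

theorem half_unit (h3 : 3 < p) (hm : p = 2 * m + 1) (s : ℕ) :
    U p (SS ((p ^ s - 1) / 2 + 1) / (p : ℚ) ^ s) := by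
  induction s with
  | zero => simpa [SS_one] using U.one
  | succ s ih =>
    have h := eigen h3 hm (half_spec hm s)
    rw [← half_succ hm] at h
    refine ih.of_sub (D.cancel (s + 1) ((h.mono (by omega)).of_eq ?_))
    have : (p : ℚ) ≠ 0 := p_ne
    field_simp
    ring

theorem approx (h3 : 3 < p) (hm : p = 2 * m + 1) (s : ℕ) (hs : 3 ≤ s) (N : ℕ) :
    (∃ e, D p 1 (e - 7 / 6 * bernoulli (p - 3)) ∧ D p (s + 2) (SS ((N + 1) * p) - p * SS (N + 1)
      - (p * (2 * N + 1) * cc N) ^ 4 * e)) ∧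
    (∃ e, D p 1 (e - 7 / 6 * bernoulli (p - 3)) ∧ D p (s + 2) (SS (N * p + m + 1)
      - p * SS (N + 1) - (p * (2 * N + 1) * cc N) ^ 4 * e)) := by
  obtain ⟨κ, c, hc, h⟩ := structure_thm h3 hm (K := 2 * s + 2) (by omega)
  have hp0 : (p : ℚ) ≠ 0 := p_ne
  have hκ : D p (s + 2) κ := by
    obtain ⟨e, he, h1⟩ := (h ((p ^ s - 1) / 2)).2
    have hx := half_spec hm s
    have hu := half_unit h3 hm s
    have h2 := eigen h3 hm hx
    generalize (p ^ s - 1) / 2 = x at h1 hx hu h2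
    have hn : (2 * x + 1 : ℚ) = (p : ℚ) ^ s := by exact_mod_cast hx
    have hpe : (p : ℚ) * e ∈ R p := by
      have := add_mem (mul_mem (nat_mem p) he.mem) hc
      rwa [show (p : ℚ) * (e - c) + p * c = p * e by ring] at this
    have h4 : D p (2 * s + 2) ((p * (2 * x + 1) * cc x) ^ 4 * e) := by
      refine ((D.pow_mul (4 * s + 3) (mul_mem (pow_mem (cc_mem h3 x) 4) hpe)).mono
        (by omega)).of_eq ?_
      rw [hn]; ring
    have h5 := (h2.sub h1).sub h4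
    refine D.of_mul (D.cancel s ?_) hu
    rw [show s + (s + 2) = 2 * s + 2 by ring]
    refine h5.of_eq ?_
    field_simp
    ring
  have hcB : D p 1 (c - 7 / 6 * bernoulli (p - 3)) := by
    obtain ⟨e, he, h1⟩ := (h 0).2
    have h2 := ((first_case h3 hm).sub (h1.mono (by omega))).sub (hκ.mono (by omega))
    have h4 : D p 1 (e - 7 / 6 * bernoulli (p - 3)) := by
      refine D.cancel 4 (h2.of_eq ?_)
      simp only [zero_mul, zero_add, SS_one, cc, Nat.cast_zero, range_zero, prod_empty]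
      ring
    exact he.symm.trans h4
  obtain ⟨⟨e, he, h1⟩, ⟨e', he', h1'⟩⟩ := h N
  have h6 := hκ.rmul (SS_mem h3 (N + 1))
  exact ⟨⟨e, he.trans hcB, ((h1.mono (by omega)).add h6).of_eq (by ring)⟩,
    ⟨e', he'.trans hcB, ((h1'.mono (by omega)).add h6).of_eq (by ring)⟩⟩

theorem finish {w X B : ℚ} (hw : w ≠ 0)
    (h : ∀ s, 3 ≤ s → ∃ e, D p 1 (e - B) ∧ D p (s + 2) (X - w * e)) :
    ∃ u ∈ R p, X - B * w = p * w * u := by
  obtain ⟨s, hs⟩ := exists_pow_div (p := p) hw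
  obtain ⟨e, ⟨a, ha, h1⟩, ⟨b, hb, h2⟩⟩ := h (s + 3) (by omega)
  refine ⟨a + (p : ℚ) ^ s / w * (p : ℚ) ^ 4 * b,
    add_mem ha (mul_mem (mul_mem hs (pow_mem (nat_mem p) 4)) hb), ?_⟩
  have : (p : ℚ) * w * (a + (p : ℚ) ^ s / w * (p : ℚ) ^ 4 * b)
      = w * ((p : ℚ) ^ 1 * a) + (p : ℚ) ^ (s + 3 + 2) * b := by
    field_simp
    ring
  rw [this, ← h1, ← h2]
  ring

theorem main (h3 : 3 < p) (hm : p = 2 * m + 1) (N : ℕ) :
    (∃ u ∈ R p, SS ((N + 1) * p) - p * SS (N + 1)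
      - 7 / 6 * bernoulli (p - 3) * (p * (2 * N + 1) * cc N) ^ 4
      = p * (p * (2 * N + 1) * cc N) ^ 4 * u) ∧
    (∃ u ∈ R p, SS (N * p + m + 1) - p * SS (N + 1)
      - 7 / 6 * bernoulli (p - 3) * (p * (2 * N + 1) * cc N) ^ 4
      = p * (p * (2 * N + 1) * cc N) ^ 4 * u) := by
  have hw : ((p : ℚ) * (2 * N + 1) * cc N) ^ 4 ≠ 0 :=
    pow_ne_zero _ (mul_ne_zero (mul_ne_zero p_ne (by positivity)) (cc_pos N).ne')
  exact ⟨finish hw fun s hs => (approx h3 hm s hs N).1,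
    finish hw fun s hs => (approx h3 hm s hs N).2⟩

theorem bern_mem (h3 : 3 < p) : 7 / 6 * bernoulli (p - 3) ∈ R p := by
  have h6 := (two_unit h3).mul (three_unit h3)
  rw [show (2 : ℚ) * 3 = 6 by norm_num] at h6
  exact mul_mem (div_mem (ofNat_mem _ 7) h6) (bernoulli_mem _ (by omega))

theorem prime_power {X B v : ℚ} {k : ℕ} (hB : B ∈ R p) (hv : D p 1 (v ^ 2 - 1))
    (h : ∃ u ∈ R p, X - B * ((p : ℚ) ^ k * v) ^ 4 = p * ((p : ℚ) ^ k * v) ^ 4 * u) :
    D p (4 * k + 1) (X - B * (p : ℚ) ^ (4 * k)) := by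
  obtain ⟨u, hu, h⟩ := h
  have h1 := hv.sq_sub (one_mem _)
  have h2 := (D.p_mul (mul_mem (h1.mem_of_sub (pow_mem (one_mem _) 2)) hu)).add (h1.lmul hB)
  exact (h2.shift (4 * k)).of_eq (by linear_combination h)

theorem swisher_half (h3 : 3 < p) (hm : p = 2 * m + 1) (r : ℕ) :
    D p (4 * (r + 1) + 1) (SS ((p ^ (r + 1) - 1) / 2 + 1) - p * SS ((p ^ r - 1) / 2 + 1)
      - 7 / 6 * bernoulli (p - 3) * (p : ℚ) ^ (4 * (r + 1))) := by
  have hv : ∀ s : ℕ, D p 1 (cc ((p ^ s - 1) / 2) ^ 2 - 1) := by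
    intro s
    induction s with
    | zero => exact (D.zero 1).of_eq (by simp [cc])
    | succ s ih => rw [half_succ hm]; exact (rho_one h3 hm _).trans ih
  refine prime_power (bern_mem h3) (hv r) ?_
  have h := (main h3 hm ((p ^ r - 1) / 2)).2
  have hn : (2 * (((p ^ r - 1) / 2 : ℕ) : ℚ) + 1) = (p : ℚ) ^ r := by
    exact_mod_cast half_spec hm r
  rwa [← half_succ hm, hn, ← pow_succ'] at h

theorem swisher_full (h3 : 3 < p) (hm : p = 2 * m + 1) (r : ℕ) :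
    D p (4 * (r + 1) + 1) (SS (p ^ (r + 1)) - p * SS (p ^ r)
      - 7 / 6 * bernoulli (p - 3) * (p : ℚ) ^ (4 * (r + 1))) := by
  have hv : ∀ s : ℕ, D p 1 ((2 * cc (p ^ s)) ^ 2 - 1) := by
    intro s
    induction s with
    | zero => exact (D.zero 1).of_eq (by simp [cc])
    | succ s ih =>
      rw [pow_succ p s]
      exact (((sigma_one h3 hm (p ^ s)).lmul (four_unit h3).mem).add ih).of_eq (by ring)
  refine prime_power (bern_mem h3) (hv r) ?_
  obtain ⟨N, hN⟩ : ∃ N, p ^ r = N + 1 := ⟨p ^ r - 1, by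
    have := Nat.pos_of_ne_zero (pow_ne_zero r hp.out.ne_zero); omega⟩
  have h := (main h3 hm N).1
  have hn : (p : ℚ) ^ r = N + 1 := by exact_mod_cast hN
  have e : (p : ℚ) * (2 * N + 1) * cc N = (p : ℚ) ^ (r + 1) * (2 * cc (p ^ r)) := by
    rw [hN, cc_succ, pow_succ, hn]
    field_simp
  rwa [e, ← hN, ← pow_succ] at h

theorem question (h3 : 3 < p) (hm : p = 2 * m + 1) (r : ℕ) :
    D p (r + 1 + 4) (SS ((p ^ (r + 1) - 1) / 2 + 1)
      - ((p : ℚ) ^ (r + 1) + 7 / 6 * bernoulli (p - 3) * (p : ℚ) ^ (r + 1 + 3))) := by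
  induction r with
  | zero => exact (swisher_half h3 hm 0).of_eq (by simp [SS_one]; ring)
  | succ r ih =>
    have h1 := (swisher_half h3 hm (r + 1)).mono (l := r + 1 + 1 + 4) (by omega)
    have h2 := (D.pow_mul (4 * (r + 1 + 1)) (bern_mem h3)).mono (l := r + 1 + 1 + 4) (by omega)
    have h4 := ih.shift 1
    rw [show 1 + (r + 1 + 4) = r + 1 + 1 + 4 by ring] at h4
    exact ((h1.add h2).add h4).of_eq (by ring)

omit hp in
theorem cc_poch (k : ℕ) : (ascPochhammer ℚ k).eval (1 / 2) / (k.factorial : ℚ) = cc k := by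
  induction k with
  | zero => simp [cc]
  | succ k ih =>
    rw [cc_succ, ← ih, ascPochhammer_succ_eval, Nat.factorial_succ]
    push_cast
    field_simp
    ring

end Pool.Agent.P.MP_8d9088_nt
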