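import Pool.Agent.P.MP_8d9088_nt.Defs
import Pool.Agent.P.MP_8d9088_nt.Main

/-! Corollaries of the lifting congruence at prime powers, stated with `S` and `Cong`. -/

namespace Pool.Agent.P.MP_8d9088_nt

theorem c_eq (k : ℕ) : c k = cc k := cc_poch k

theorem S_eq (N : ℕ) : S N = SS (N + 1) := by simp only [S, SS, tt, c_eq]

/-- The congruence modulo `p ^ (4 r + 1)` for the sums truncated at `(p ^ r - 1) / 2`. -/
theorem cor_half (p : ℕ) (hp : p.Prime) (h3 : 3 < p) (r : ℕ) (hr : 1 ≤ r) :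
    Cong p (S ((p ^ r - 1) / 2))
      (p * S ((p ^ (r - 1) - 1) / 2) + 7 / 6 * bernoulli (p - 3) * (p : ℚ) ^ (4 * r))
      ((p : ℚ) ^ (4 * r + 1)) := by
  have : Fact p.Prime := ⟨hp⟩
  obtain ⟨m, hm⟩ : Odd p := hp.odd_of_ne_two (by omega)
  obtain ⟨r, rfl⟩ : ∃ s, r = s + 1 := ⟨r - 1, by omega⟩
  obtain ⟨u, hu, h1⟩ := swisher_half h3 hm r
  rw [Nat.add_sub_cancel]
  refine ⟨u, hu, ?_⟩
  rw [S_eq, S_eq]; linear_combination h1

/-- The congruence modulo `p ^ (4 r + 1)` for the sums truncated at `p ^ r - 1`. -/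
theorem cor_full (p : ℕ) (hp : p.Prime) (h3 : 3 < p) (r : ℕ) (hr : 1 ≤ r) :
    Cong p (S (p ^ r - 1))
      (p * S (p ^ (r - 1) - 1) + 7 / 6 * bernoulli (p - 3) * (p : ℚ) ^ (4 * r))
      ((p : ℚ) ^ (4 * r + 1)) := by
  have : Fact p.Prime := ⟨hp⟩
  obtain ⟨m, hm⟩ : Odd p := hp.odd_of_ne_two (by omega)
  obtain ⟨r, rfl⟩ : ∃ s, r = s + 1 := ⟨r - 1, by omega⟩
  have hpos : ∀ s : ℕ, p ^ s - 1 + 1 = p ^ s := fun s => by
    have := Nat.pos_of_ne_zero (pow_ne_zero s hp.ne_zero); omega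
  obtain ⟨v, hv, h2⟩ := swisher_full h3 hm r
  rw [Nat.add_sub_cancel]
  refine ⟨v, hv, ?_⟩
  rw [S_eq, S_eq, hpos, hpos]; linear_combination h2

/-- The congruence modulo `p ^ (r + 4)` asked for in the question. -/
theorem cor_question (p : ℕ) (hp : p.Prime) (h3 : 3 < p) (r : ℕ) (hr : 1 ≤ r) :
    Cong p (S ((p ^ r - 1) / 2))
      ((p : ℚ) ^ r + 7 / 6 * bernoulli (p - 3) * (p : ℚ) ^ (r + 3)) ((p : ℚ) ^ (r + 4)) := by
  have : Fact p.Prime := ⟨hp⟩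
  obtain ⟨m, hm⟩ : Odd p := hp.odd_of_ne_two (by omega)
  obtain ⟨r, rfl⟩ : ∃ s, r = s + 1 := ⟨r - 1, by omega⟩
  obtain ⟨z, hz, h4⟩ := question h3 hm r
  refine ⟨z, hz, ?_⟩
  rw [S_eq]; exact h4

end Pool.Agent.P.MP_8d9088_nt
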