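import Mathlib

/-! The truncated sum and congruences of rational numbers. -/

namespace Pool.Agent.P.MP_8d9088_nt

/-- The quotient `(1/2)_k / k!`. -/
noncomputable def c (k : ℕ) : ℚ := (ascPochhammer ℚ k).eval (1 / 2) / (k.factorial : ℚ)

/-- The truncated sum `S(N) = ∑_{k = 0}^{N} (4 k + 1) ((1/2)_k / k!) ^ 4`. -/
noncomputable def S (N : ℕ) : ℚ := ∑ k ∈ Finset.range (N + 1), (4 * (k : ℚ) + 1) * c k ^ 4

/-- `x - y` is `M` times a rational number whose denominator is prime to `p`. -/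
def Cong (p : ℕ) (x y M : ℚ) : Prop := ∃ u : ℚ, ¬ p ∣ u.den ∧ x - y = M * u

end Pool.Agent.P.MP_8d9088_nt
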