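import Pool.Agent.P.MP_8d9088_nt.Block

/-! A second formula for the truncated sums and the value of the eigenvalue. -/

namespace Pool.Agent.P.MP_8d9088_nt

open Finset

variable {p : ℕ} [hp : Fact p.Prime] {m K : ℕ} {F : ℚ → ℚ}

/-- The second sum. -/
def TT (x : ℕ) : ℚ := ∑ k ∈ range (x + 1), cc k ^ 2 * ((2 * x + 1) / (2 * x + 1 - 2 * k))

omit hp in
theorem cert (z : ℚ) (hz : ∀ k : ℕ, z - 2 * k ≠ 0) (j : ℕ) :
    ∑ k ∈ range (j + 1), z ^ 2 * (cc k ^ 2 / (z - 2 * k))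
      - ∑ k ∈ range j, (z - 1) ^ 2 * (cc k ^ 2 / (z - 2 - 2 * k)) = cc j ^ 2 * (2 * j + z) := by
  induction j with
  | zero =>
    have := hz 0
    simp only [Nat.cast_zero, mul_zero, sub_zero] at this
    simp [cc]; field_simp
  | succ j ih =>
    rw [sum_range_succ _ (j + 1), sum_range_succ (fun k : ℕ => (z - 1) ^ 2 * _) j, cc_succ]
    have h1 := hz (j + 1)
    push_cast at h1 ⊢
    rw [show z - 2 - 2 * (j : ℚ) = z - 2 * (j + 1) by ring]
    have : z ^ 2 * ((cc j * ((2 * j + 1) / (2 * j + 2))) ^ 2 / (z - 2 * (j + 1)))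
        - (z - 1) ^ 2 * (cc j ^ 2 / (z - 2 * (j + 1)))
        = (cc j * ((2 * j + 1) / (2 * j + 2))) ^ 2 * (2 * (j + 1) + z) - cc j ^ 2 * (2 * j + z) := by
      field_simp
      ring
    linear_combination ih + this

omit hp in
theorem odd_ne (x k : ℕ) : (2 * (x : ℚ) + 1) - 2 * k ≠ 0 := by
  intro h
  have h1 : (2 * x + 1 : ℚ) = 2 * k := by linarith
  have h2 : 2 * x + 1 = 2 * k := by exact_mod_cast h1
  omega

omit hp in
theorem whipple (x : ℕ) : SS (x + 1) = (2 * x + 1) * cc x ^ 2 * TT x := by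
  have key : ∀ x : ℕ, SS (x + 1) = (2 * x + 1) ^ 2 * cc x ^ 2 *
      ∑ k ∈ range (x + 1), cc k ^ 2 / (2 * x + 1 - 2 * k) := by
    intro x
    induction x with
    | zero => simp [SS, tt, cc]
    | succ x ih =>
      have h := cert (2 * ((x + 1 : ℕ) : ℚ) + 1) (odd_ne (x + 1)) (x + 1)
      rw [← mul_sum, ← mul_sum] at h
      have e1 : SS (x + 1 + 1) = SS (x + 1) + tt (x + 1) := sum_range_succ _ _
      have e2 : ∑ k ∈ range (x + 1), cc k ^ 2 / (2 * ((x + 1 : ℕ) : ℚ) + 1 - 2 - 2 * k)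
          = ∑ k ∈ range (x + 1), cc k ^ 2 / (2 * x + 1 - 2 * k) :=
        sum_congr rfl fun k _ => by push_cast; congr 1; ring
      have e3 : (2 * (x : ℚ) + 1) * cc x = (2 * x + 2) * cc (x + 1) := by
        rw [cc_succ]; field_simp
      rw [e2] at h
      rw [e1, ih, tt, ← mul_pow, e3]
      push_cast at h ⊢
      linear_combination -(cc (x + 1)) ^ 2 * h
  rw [key, TT, mul_sum, mul_sum]
  exact sum_congr rfl fun k _ => by ring

theorem sigma_one (h3 : 3 < p) (hm : p = 2 * m + 1) (x : ℕ) :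
    D p 1 (cc (x * p) ^ 2 - cc x ^ 2) := by
  obtain ⟨F, h⟩ := exists_eul h3 hm 1
  have := ((h.sigma h3 hm x).trans (h.one _ (mul_mem (ofNat_mem _ 2) (nat_mem x)))).lmul
    (pow_mem (cc_mem h3 x) 2)
  refine this.of_eq ?_
  have := (cc_pos x).ne'
  field_simp

theorem rho_one (h3 : 3 < p) (hm : p = 2 * m + 1) (x : ℕ) :
    D p 1 (cc (x * p + m) ^ 2 - cc x ^ 2) := by
  obtain ⟨F, h⟩ := exists_eul h3 hm 1
  have := ((h.rho h3 hm x).trans (h.one _ (neg_mem (add_mem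
    (mul_mem (ofNat_mem _ 2) (nat_mem x)) (one_mem _))))).lmul (pow_mem (cc_mem h3 x) 2)
  refine this.of_eq ?_
  have := (cc_pos x).ne'
  field_simp

theorem ratio_mem {x s l : ℕ} (hx : 2 * x + 1 = p ^ s) (hl : l ≤ x) :
    (2 * (x : ℚ) + 1) / (2 * x + 1 - 2 * l) ∈ R p := by
  have h := pow_div_mem (p := p) (s := s) (j := 2 * (x - l) + 1) (by omega) (by omega)
  have h1 : (p : ℚ) ^ s = 2 * x + 1 := by exact_mod_cast hx.symm
  rw [h1] at h
  rwa [show ((2 * (x - l) + 1 : ℕ) : ℚ) = 2 * x + 1 - 2 * l by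
    push_cast [Nat.cast_sub hl]; ring] at h

theorem TT_mem (h3 : 3 < p) {x s : ℕ} (hx : 2 * x + 1 = p ^ s) : TT x ∈ R p :=
  sum_mem fun _ hl => mul_mem (pow_mem (cc_mem h3 _) 2)
    (ratio_mem hx (Nat.lt_succ_iff.1 (mem_range.1 hl)))

theorem eigen (h3 : 3 < p) (hm : p = 2 * m + 1) {x s : ℕ} (hx : 2 * x + 1 = p ^ s) :
    D p (2 * s + 2) (SS (x * p + m + 1) - p * SS (x + 1)) := by
  obtain ⟨F, h⟩ := exists_eul h3 hm (s + 1)
  have hp0 : (p : ℚ) ≠ 0 := p_ne
  have hp' : (p : ℚ) = 2 * m + 1 := by rw [hm]; push_cast; ring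
  have hn : (2 * x + 1 : ℚ) = (p : ℚ) ^ s := by exact_mod_cast hx
  have hM : 2 * ((x * p + m : ℕ) : ℚ) + 1 = (p : ℚ) ^ (s + 1) := by
    push_cast; rw [pow_succ, ← hn]; linear_combination -hp'
  have hM' : 2 * (x * p + m) + 1 = p ^ (s + 1) := by exact_mod_cast hM
  have hz : (2 * x + 1 : ℚ) ∈ R p := add_mem (mul_mem (ofNat_mem _ 2) (nat_mem x)) (one_mem _)
  have c1 : D p (s + 1) (cc (x * p + m) ^ 2 - cc x ^ 2) := by
    obtain ⟨r, hr, e⟩ := h.lip _ (neg_mem hz) 0 (zero_mem _)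
    have e1 : D p (s + 1) (F (-(2 * x + 1)) - F 0) :=
      (D.pow_mul (s + 1) (neg_mem hr)).of_eq (by rw [e, hn]; ring)
    refine ((((h.rho h3 hm x).trans e1).trans (h.zero h3)).lmul
      (pow_mem (cc_mem h3 x) 2)).of_eq ?_
    have := (cc_pos x).ne'
    field_simp
  set g : ℕ → ℚ := fun k => cc k ^ 2 * ((p : ℚ) ^ (s + 1) / ((p : ℚ) ^ (s + 1) - 2 * k)) with hg
  have c2 : D p (s + 1) (∑ k ∈ range (x * p + m + 1), g k
      - ∑ k ∈ range (x * p + m + 1), if p ∣ k then g k else 0) := by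
    refine D.sum_sub fun k _ => ?_
    split_ifs with hk
    · exact (D.zero _).of_eq (sub_self _)
    · have u : U p ((p : ℚ) ^ (s + 1) - 2 * k) :=
        (((two_unit h3).mul (U.nat hk)).neg).of_sub
          ((D.p_mul (pow_mem (nat_mem p) s)).of_eq (by ring))
      refine (((D.pow_mul (s + 1) (one_mem _)).div u).lmul (pow_mem (cc_mem h3 k) 2)).of_eq ?_
      simp only [hg]; ring
  have c3 : (∑ k ∈ range (x * p + m + 1), if p ∣ k then g k else 0)
      = ∑ l ∈ range (x + 1), g (l * p) := by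
    rw [← sum_filter]
    symm
    have hpos : 0 < p := hp.out.pos
    refine sum_nbij' (fun l => l * p) (fun k => k / p) ?_ ?_ ?_ ?_ ?_
    · intro l hl
      have : l ≤ x := Nat.lt_succ_iff.1 (mem_range.1 hl)
      have := Nat.mul_le_mul_right p this
      simp only [mem_filter, mem_range]
      exact ⟨by omega, Dvd.intro_left _ rfl⟩
    · intro k hk
      simp only [mem_filter, mem_range] at hk ⊢
      rw [Nat.div_lt_iff_lt_mul hpos, add_mul]
      omega
    · intro l _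
      exact Nat.mul_div_cancel l hpos
    · intro k hk
      simp only [mem_filter, mem_range] at hk
      exact Nat.div_mul_cancel hk.2
    · intro l _
      rfl
  have c4 : D p (s + 1) (∑ l ∈ range (x + 1), g (l * p) - TT x) := by
    refine D.sum_sub fun l hl => ?_
    have hl' : l ≤ x := Nat.lt_succ_iff.1 (mem_range.1 hl)
    have hy : (2 * l : ℚ) ∈ R p := mul_mem (ofNat_mem _ 2) (nat_mem l)
    have hq := ratio_mem hx hl'
    obtain ⟨r, hr, e⟩ := h.lip _ hy 0 (zero_mem _)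
    have hne := odd_ne x l
    have e1 : D p (s + 1) ((F (2 * l) - F 0) * ((2 * (x : ℚ) + 1) / (2 * x + 1 - 2 * l))) := by
      refine (D.pow_mul (s + 1) (mul_mem hr (sub_mem hq (one_mem _)))).of_eq ?_
      rw [e, pow_succ, ← hn]
      field_simp
      ring
    refine (((((h.sigma h3 hm l).add (h.zero h3)).rmul hq).add e1).lmul
      (pow_mem (cc_mem h3 l) 2)).of_eq ?_
    have e2 : (p : ℚ) ^ (s + 1) / ((p : ℚ) ^ (s + 1) - 2 * ((l * p : ℕ) : ℚ))
        = (2 * (x : ℚ) + 1) / (2 * x + 1 - 2 * l) := by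
      rw [pow_succ, ← hn]; push_cast
      rw [show (2 * (x : ℚ) + 1) * p - 2 * (l * p) = (2 * x + 1 - 2 * l) * p by ring,
        mul_div_mul_right _ _ hp0]
    simp only [hg]
    rw [e2]
    generalize (2 * (x : ℚ) + 1) / (2 * x + 1 - 2 * l) = q
    have := (cc_pos l).ne'
    field_simp
    ring
  have c5 : D p (s + 1) (TT (x * p + m) - TT x) := by
    rw [c3] at c2
    refine (c2.trans c4).of_eq ?_
    congr 1
    simp only [TT, hg, hM]
  have c6 := (c1.mul_sub c5 (pow_mem (cc_mem h3 x) 2) (TT_mem h3 hM')).shift (s + 1)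
  rw [show s + 1 + (s + 1) = 2 * s + 2 by ring] at c6
  refine c6.of_eq ?_
  rw [whipple, whipple, hM, hn]
  ring

end Pool.Agent.P.MP_8d9088_nt
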