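import Pool.Agent.P.MP_8d9088_nt.Base

/-! Approximate solutions of the equation `Y(t) Y(t + π) α(t) = β(t)` in polynomials. -/

namespace Pool.Agent.P.MP_8d9088_nt

open Polynomial

section ring

variable {A : Type*} [CommRing A] (π : A)

/-- The ideal generated by `π` and the variable. -/
noncomputable def II : Ideal A[X] := Ideal.span {C π, X}

theorem C_mem_II : C π ∈ II π := Ideal.subset_span (by simp)

theorem X_mem_II : (X : A[X]) ∈ II π := Ideal.subset_span (by simp)

theorem sub_C_mem_II (f : A[X]) : f - C (f.coeff 0) ∈ II π := by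
  obtain ⟨g, hg⟩ := X_dvd_sub_C (p := f)
  rw [hg]
  exact Ideal.mul_mem_right _ _ (X_mem_II π)

theorem map_pow_mem {B : Type*} [CommRing B] (φ : A[X] →+* B) (J : Ideal B)
    (h1 : φ (C π) ∈ J) (h2 : φ X ∈ J) {k : ℕ} {E : A[X]} (hE : E ∈ II π ^ k) :
    φ E ∈ J ^ k := by
  have h : Ideal.map φ (II π) ≤ J := by
    rw [II, Ideal.map_span, Ideal.span_le]
    rintro _ ⟨x, hx, rfl⟩
    rcases hx with rfl | rfl
    · exact h1
    · exact h2
  have h3 := Ideal.mem_map_of_mem φ hE
  rw [Ideal.map_pow] at h3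
  exact Ideal.pow_right_mono h k h3

theorem taylor_mem {k : ℕ} {E : A[X]} (hE : E ∈ II π ^ k) : taylor π E ∈ II π ^ k := by
  have := map_pow_mem π (taylorAlgHom π).toRingHom (II π)
    (by simpa using C_mem_II π)
    (by simpa using add_mem (X_mem_II π) (C_mem_II π)) hE
  simpa using this

theorem eval_dvd {k : ℕ} {E : A[X]} (hE : E ∈ II π ^ k) (y : A) : π ^ k ∣ E.eval (π * y) := by
  have := map_pow_mem π (evalRingHom (π * y)) (Ideal.span {π})
    (by simp) (by simpa using Ideal.mul_mem_right y _ (Ideal.mem_span_singleton_self π)) hE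
  rw [Ideal.span_singleton_pow, Ideal.mem_span_singleton] at this
  simpa using this

theorem solve_aux (h : A) (hh : 2 * h = 1) (k : ℕ) (n : ℕ) :
    ∀ E : A[X], E.degree < n → E ∈ II π ^ k → ∃ δ ∈ II π ^ k, δ + taylor π δ = E := by
  induction n with
  | zero =>
    intro E hE _
    have : E = 0 := by
      rw [← degree_eq_bot]
      simpa using hE
    exact ⟨0, zero_mem _, by simp [this]⟩
  | succ n ih =>
    intro E hE hk
    by_cases h0 : E = 0
    · exact ⟨0, zero_mem _, by simp [h0]⟩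
    have hd : (taylor π E - E).degree < n := by
      have h1 : (taylor π E - E).degree < (taylor π E).degree :=
        degree_sub_lt_left (degree_taylor E π) (by simpa using h0) (leadingCoeff_taylor π E)
      rw [degree_taylor] at h1
      rw [degree_eq_natDegree h0] at hE h1
      have h2 : E.natDegree ≤ n := by
        have : E.natDegree < n + 1 := by exact_mod_cast hE
        omega
      exact lt_of_lt_of_le h1 (by exact_mod_cast h2)
    obtain ⟨δ, hδ, he⟩ := ih _ hd (sub_mem (taylor_mem π hk) hk)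
    refine ⟨C h * (E - δ), Ideal.mul_mem_left _ _ (sub_mem hk hδ), ?_⟩
    have h2 : (2 : A[X]) * C h = 1 := by
      have := congrArg (C : A → A[X]) hh
      rwa [C_mul, C_1, show (C 2 : A[X]) = 2 from rfl] at this
    rw [taylor_mul, taylor_C, map_sub]
    linear_combination (-C h) * he + E * h2

theorem solve (h : A) (hh : 2 * h = 1) {k : ℕ} {E : A[X]} (hE : E ∈ II π ^ k) :
    ∃ δ ∈ II π ^ k, δ + taylor π δ = E :=
  solve_aux π h hh k (E.natDegree + 1) E
    (lt_of_le_of_lt degree_le_natDegree (by exact_mod_cast Nat.lt_succ_self _)) hE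

theorem exists_euler (h : A) (hh : 2 * h = 1) (α β : A[X]) (c : A) (hc : α.coeff 0 * c = 1)
    (hαβ : α - β ∈ II π) (K : ℕ) :
    ∃ Y : A[X], Y - 1 ∈ II π ∧ Y * taylor π Y * α - β ∈ II π ^ (K + 1) := by
  induction K with
  | zero => exact ⟨1, by simp, by simpa using hαβ⟩
  | succ K ih =>
    obtain ⟨Y, hY, hE⟩ := ih
    obtain ⟨δ, hδ, he⟩ := solve π h hh (Ideal.mul_mem_left _ (-C c) hE)
    have hδ1 : δ ∈ II π := Ideal.pow_le_self (Nat.succ_ne_zero K) hδ
    have hTδ := taylor_mem π hδ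
    have hTY : taylor π Y - 1 ∈ II π := by
      have := taylor_mem π (k := 1) (E := Y - 1) (by simpa using hY)
      simpa using this
    have hα := sub_C_mem_II π α
    have hcc : C (α.coeff 0) * C c = 1 := by rw [← C_mul, hc, C_1]
    refine ⟨Y + δ, ?_, ?_⟩
    · have := add_mem hY hδ1
      rwa [show Y - 1 + δ = Y + δ - 1 by ring] at this
    · have key : (Y + δ) * taylor π (Y + δ) * α - β =
          δ * ((taylor π Y - 1) * α + (α - C (α.coeff 0)))
          + taylor π δ * ((Y - 1) * α + δ * α + (α - C (α.coeff 0))) := by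
        rw [map_add]
        linear_combination (C (α.coeff 0)) * he - (Y * taylor π Y * α - β) * hcc
      rw [key, pow_succ]
      exact add_mem
        (Ideal.mul_mem_mul hδ (add_mem (Ideal.mul_mem_right _ _ hTY) hα))
        (Ideal.mul_mem_mul hTδ (add_mem (add_mem (Ideal.mul_mem_right _ _ hY)
          (Ideal.mul_mem_right _ _ hδ1)) hα))

end ring

variable {p : ℕ} [hp : Fact p.Prime]

theorem aeval_coe (P : (R p)[X]) (t : R p) : aeval (t : ℚ) P = ((P.eval t : R p) : ℚ) :=
  aeval_algebraMap_apply_eq_algebraMap_eval t P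

theorem aeval_mem (P : (R p)[X]) {t : ℚ} (ht : t ∈ R p) : aeval t P ∈ R p := by
  rw [show t = ((⟨t, ht⟩ : R p) : ℚ) from rfl, aeval_coe]
  exact SetLike.coe_mem _

theorem aeval_lip (P : (R p)[X]) {t s : ℚ} (ht : t ∈ R p) (hs : s ∈ R p) :
    ∃ r ∈ R p, aeval t P - aeval s P = (t - s) * r := by
  obtain ⟨r, hr⟩ := sub_dvd_eval_sub (⟨t, ht⟩ : R p) ⟨s, hs⟩ P
  refine ⟨r, r.2, ?_⟩
  rw [show t = ((⟨t, ht⟩ : R p) : ℚ) from rfl, show s = ((⟨s, hs⟩ : R p) : ℚ) from rfl,
    aeval_coe, aeval_coe]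
  exact_mod_cast congrArg (fun z : R p => (z : ℚ)) hr

theorem D_of_mem {k : ℕ} {E : (R p)[X]} (hE : E ∈ II (p : R p) ^ k) {y : ℚ} (hy : y ∈ R p) :
    D p k (aeval ((p : ℚ) * y) E) := by
  obtain ⟨r, hr⟩ := eval_dvd _ hE ⟨y, hy⟩
  refine ⟨r, r.2, ?_⟩
  have h1 : (p : ℚ) * y = (((p : R p) * ⟨y, hy⟩ : R p) : ℚ) := by simp
  rw [h1, aeval_coe, hr]
  simp

theorem aeval_taylor (P : (R p)[X]) (y : ℚ) :
    aeval ((p : ℚ) * y) (taylor (p : R p) P) = aeval ((p : ℚ) * (y + 1)) P := by
  rw [taylor_apply, aeval_comp]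
  simp [mul_add]

end Pool.Agent.P.MP_8d9088_nt
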