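import Pool.Agent.P.MP_8d9088_nt.Eigen

/-! The harmonic sum of order two up to `(p - 1) / 2` modulo `p ^ 2`. -/

namespace Pool.Agent.P.MP_8d9088_nt

open Finset

variable {p : ℕ} [hp : Fact p.Prime] {m : ℕ}

/-- Harmonic numbers of order two. -/
def HH (k : ℕ) : ℚ := ∑ j ∈ range k, 1 / ((j : ℚ) + 1) ^ 2

theorem bernoulli_mem (n : ℕ) : n + 1 < p → bernoulli n ∈ R p := by
  induction n using Nat.strong_induction_on with
  | _ n ih =>
    intro hn
    rcases Nat.eq_zero_or_pos n with rfl | h0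
    · simp
    have h := sum_bernoulli (n + 1)
    rw [if_neg (by omega), sum_range_succ, Nat.choose_succ_self_right] at h
    have u : U p ((n + 1 : ℕ) : ℚ) := U.lt (by omega) hn
    have e : bernoulli n = -(∑ k ∈ range n, ((n + 1).choose k : ℚ) * bernoulli k)
        / ((n + 1 : ℕ) : ℚ) := by
      rw [eq_div_iff u.ne]; linear_combination h
    rw [e]
    exact div_mem (neg_mem (sum_mem fun k hk => mul_mem (nat_mem _)
      (ih k (mem_range.1 hk) (by have := mem_range.1 hk; omega)))) u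

theorem power_sum {s : ℕ} (hs : s + 1 < p) :
    D p 2 (∑ k ∈ range p, (k : ℚ) ^ s - p * bernoulli s) := by
  rw [sum_range_pow, sum_range_succ, Nat.choose_succ_self_right]
  have u : U p ((s : ℚ) + 1) := by
    have := U.lt (p := p) (c := s + 1) (by omega) hs
    simpa using this
  have h1 : D p 2 (∑ i ∈ range s, bernoulli i * ((s + 1).choose i : ℚ) * (p : ℚ) ^ (s + 1 - i)
      / ((s : ℚ) + 1)) := by
    refine D.sum fun i hi => ?_
    have hi' := mem_range.1 hi
    exact (((D.pow_mul (s + 1 - i) (one_mem _)).mono (by omega)).lmul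
      (mul_mem (bernoulli_mem i (by omega)) (nat_mem _))).div u |>.of_eq (by ring)
  refine h1.of_eq ?_
  rw [show s + 1 - s = 1 by omega]
  have := u.ne
  push_cast
  field_simp
  ring

omit hp in
theorem split_one (hm : p = 2 * m + 1) (φ : ℚ → ℚ) :
    ∑ k ∈ range (2 * m), φ (k + 1) = ∑ j ∈ range m, (φ (j + 1) + φ (p - (j + 1))) := by
  rw [two_mul, sum_range_add, sum_add_distrib, ← sum_range_reflect (fun j : ℕ => φ (p - (j + 1)))]
  congr 1
  refine sum_congr rfl fun j hj => ?_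
  have hj' := mem_range.1 hj
  congr 1
  rw [Nat.sub_sub, Nat.cast_sub (by omega), hm]; push_cast; ring

omit hp in
theorem split_two (hm : p = 2 * m + 1) (φ : ℚ → ℚ) :
    ∑ k ∈ range (2 * m), φ (k + 1) = ∑ j ∈ range m, (φ (2 * (j + 1)) + φ (p - 2 * (j + 1))) := by
  have h1 : ∀ n : ℕ, ∑ k ∈ range (2 * n), φ (k + 1)
      = ∑ j ∈ range n, (φ (2 * (j + 1)) + φ (2 * j + 1)) := by
    intro n
    induction n with
    | zero => simp
    | succ n ih =>
      rw [show 2 * (n + 1) = 2 * n + 1 + 1 by ring, sum_range_succ, sum_range_succ, ih,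
        sum_range_succ]
      push_cast
      rw [show (2 * (n : ℚ) + 1 + 1) = 2 * (n + 1) by ring]
      ring
  rw [h1, sum_add_distrib, sum_add_distrib, ← sum_range_reflect (fun j : ℕ => φ (p - 2 * (j + 1)))]
  congr 1
  refine sum_congr rfl fun j hj => ?_
  have hj' := mem_range.1 hj
  congr 1
  rw [Nat.sub_sub, Nat.cast_sub (by omega), hm]; push_cast; ring

theorem inv_sq {k : ℚ} (hk : U p k) :
    D p 2 (1 / ((p : ℚ) - k) ^ 2 - (1 / k ^ 2 + 2 * p / k ^ 3)) := by
  have u : U p ((p : ℚ) - k) := hk.neg.of_sub ((D.p_mul (one_mem _)).of_eq (by ring))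
  have h1 : 3 * k - 2 * p ∈ R p :=
    sub_mem (mul_mem (ofNat_mem _ 3) hk.mem) (mul_mem (ofNat_mem _ 2) (nat_mem p))
  refine ((D.pow_mul 2 h1).div ((hk.pow 3).mul (u.pow 2))).of_eq ?_
  have := hk.ne
  have := u.ne
  field_simp
  ring

theorem pow_lin {k : ℚ} (hk : k ∈ R p) (n : ℕ) :
    D p 2 ((k - p) ^ (n + 1) - (k ^ (n + 1) - (n + 1) * p * k ^ n)) := by
  induction n with
  | zero => exact (D.zero 2).of_eq (by simp)
  | succ n ih =>
    have h1 := ih.rmul (sub_mem hk (nat_mem p))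
    have h2 := D.pow_mul (p := p) 2 (mul_mem (add_mem (nat_mem n) (one_mem _)) (pow_mem hk n))
    refine (h1.add h2).of_eq ?_
    push_cast; ring

theorem fermat {k : ℕ} (hk : ¬ p ∣ k) : D p 1 ((k : ℚ) ^ (p - 1) - 1) := by
  have h1 : Nat.Coprime k p := ((Nat.Prime.coprime_iff_not_dvd hp.out).2 hk).symm
  have h2 := Nat.ModEq.pow_totient h1
  rw [Nat.totient_prime hp.out] at h2
  obtain ⟨c, hc⟩ := h2.symm.dvd
  refine (D.p_mul (intCast_mem _ c)).of_eq ?_
  exact_mod_cast hc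

theorem small_unit (hm : p = 2 * m + 1) {j : ℕ} (hj : j < m) : U p ((j : ℚ) + 1) := by
  have := U.lt (p := p) (c := j + 1) (by omega) (by omega)
  simpa using this

theorem HH_cong (h3 : 3 < p) (hm : p = 2 * m + 1) :
    D p 2 (HH m - 7 / 3 * p * bernoulli (p - 3)) := by
  have h2 := two_unit h3
  have h3' := three_unit h3
  obtain ⟨n, hn⟩ : ∃ n, p = n + 4 := ⟨p - 4, by omega⟩
  have hev : Even (n + 1) := ⟨m - 1, by omega⟩
  have hB : bernoulli (n + 1) ∈ R p := bernoulli_mem _ (by omega)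
  rw [show p - 3 = n + 1 by omega]
  set H3 : ℚ := ∑ j ∈ range m, 1 / ((j : ℚ) + 1) ^ 3 with hH3
  set A : ℚ := ∑ j ∈ range m, ((j : ℚ) + 1) ^ (n + 1) with hA
  set Q : ℚ := ∑ j ∈ range m, ((j : ℚ) + 1) ^ n with hQ
  have mQ : Q ∈ R p := sum_mem fun j hj => pow_mem (small_unit hm (mem_range.1 hj)).mem n
  have mH : H3 ∈ R p := sum_mem fun j hj =>
    div_mem (one_mem _) ((small_unit hm (mem_range.1 hj)).pow 3)
  -- negative exponent
  have a1 : D p 2 (∑ k ∈ range (2 * m), 1 / ((k : ℚ) + 1) ^ 2 - (2 * HH m + 2 * p * H3)) := by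
    rw [split_one hm (fun x => 1 / x ^ 2), HH, hH3, mul_sum, mul_sum, ← sum_add_distrib]
    exact D.sum_sub fun j hj => (inv_sq (small_unit hm (mem_range.1 hj))).of_eq (by ring)
  have a2 : D p 2 (∑ k ∈ range (2 * m), 1 / ((k : ℚ) + 1) ^ 2
      - (1 / 2 * HH m + 1 / 4 * p * H3)) := by
    rw [split_two hm (fun x => 1 / x ^ 2), HH, hH3, mul_sum, mul_sum, ← sum_add_distrib]
    refine D.sum_sub fun j hj => (inv_sq (h2.mul (small_unit hm (mem_range.1 hj)))).of_eq ?_
    have := (small_unit hm (mem_range.1 hj)).ne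
    generalize 1 / ((p : ℚ) - 2 * (j + 1)) ^ 2 = q
    field_simp
    ring
  -- positive exponent
  have b1 : D p 2 (∑ k ∈ range (2 * m), ((k : ℚ) + 1) ^ (n + 1)
      - (2 * A - (n + 1) * p * Q)) := by
    rw [split_one hm (fun x => x ^ (n + 1)), hA, hQ, mul_sum, mul_sum, ← sum_sub_distrib]
    refine D.sum_sub fun j hj => (pow_lin (small_unit hm (mem_range.1 hj)).mem n).of_eq ?_
    rw [← hev.neg_pow ((p : ℚ) - (j + 1)), neg_sub]
    ring
  have b2 : D p 2 (∑ k ∈ range (2 * m), ((k : ℚ) + 1) ^ (n + 1)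
      - (4 * 2 ^ n * A - (n + 1) * p * 2 ^ n * Q)) := by
    rw [split_two hm (fun x => x ^ (n + 1)), hA, hQ, mul_sum, mul_sum, ← sum_sub_distrib]
    refine D.sum_sub fun j hj =>
      (pow_lin (h2.mul (small_unit hm (mem_range.1 hj))).mem n).of_eq ?_
    rw [← hev.neg_pow ((p : ℚ) - 2 * (j + 1)), neg_sub, mul_pow, mul_pow]
    ring
  have b3 : D p 2 (∑ k ∈ range (2 * m), ((k : ℚ) + 1) ^ (n + 1) - p * bernoulli (n + 1)) := by
    have := power_sum (p := p) (s := n + 1) (by omega)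
    rw [show range p = range (2 * m + 1) by rw [← hm], sum_range_succ'] at this
    refine this.of_eq ?_
    push_cast
    simp
  have m2 : (2 : ℚ) ^ n ∈ R p := pow_mem h2.mem n
  have b4 : D p 1 ((1 - 2 * 2 ^ n) * bernoulli (n + 1) - (n + 1) * 2 ^ n * Q) := by
    refine D.cancel 1 ?_
    have := (b2.sub (b1.lmul (mul_mem h2.mem m2))).sub
      (b3.lmul (sub_mem (one_mem _) (mul_mem h2.mem m2)))
    exact this.of_eq (by ring)
  have f1 : ∀ k : ℕ, 0 < k → k < p → D p 1 ((k : ℚ) ^ n - 1 / (k : ℚ) ^ 3) := by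
    intro k h0 hk
    have u := U.lt h0 hk
    have := (fermat (Nat.not_dvd_of_pos_of_lt h0 hk)).div (u.pow 3)
    rw [show p - 1 = n + 3 by omega] at this
    refine this.of_eq ?_
    have := u.ne
    field_simp
    ring
  have f2 : D p 1 ((2 : ℚ) ^ n - 1 / 8) := by
    have := f1 2 (by norm_num) (by omega)
    exact this.of_eq (by norm_num)
  have f3 : D p 1 (Q - H3) := by
    refine D.sum_sub fun j hj => ?_
    have := f1 (j + 1) (by omega) (by have := mem_range.1 hj; omega)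
    exact this.of_eq (by push_cast; rfl)
  have f4 : D p 1 (((n : ℚ) + 1) - -3) :=
    (D.p_mul (one_mem _)).of_eq (by rw [hn]; push_cast; ring)
  have h8 : (1 / 8 : ℚ) ∈ R p := by
    have := (h2.pow 3).inv
    rwa [show ((2 : ℚ) ^ 3)⁻¹ = 1 / 8 by norm_num] at this
  have f5 := (f4.mul_sub f2 (neg_mem h3'.mem) m2).mul_sub f3 (mul_mem (neg_mem h3'.mem) h8) mQ
  have f6 := (b4.add f5).add (f2.lmul (mul_mem h2.mem hB))
  have f7 : D p 1 (H3 + 2 * bernoulli (n + 1)) :=
    ((f6.lmul (pow_mem h2.mem 3)).div h3').of_eq (by ring)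
  have f8 := f7.shift 1
  have g1 := (((a2.sub a1).lmul h2.mem).div h3').sub
    (((f8.lmul (ofNat_mem _ 7)).div h3').div h2)
  exact g1.of_eq (by ring)

end Pool.Agent.P.MP_8d9088_nt
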