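import Pool.Agent.P.MP_8d9088_nt.Harm

/-! The sum truncated at `(p - 1) / 2` modulo `p ^ 5`. -/

namespace Pool.Agent.P.MP_8d9088_nt

open Finset

variable {p : ℕ} [hp : Fact p.Prime] {m : ℕ}

/-- Coefficients of the shifted Legendre polynomials. -/
def aa (M : ℚ) (k : ℕ) : ℚ := ∏ j ∈ range k, ((j : ℚ) - M) * (j + M + 1) / (j + 1) ^ 2

/-- An auxiliary hypergeometric term. -/
def bb (n : ℚ) (k : ℕ) : ℚ := ∏ j ∈ range k, ((j : ℚ) ^ 2 - n ^ 2) / (j + 1) ^ 2

/-- Sums of inverse odd squares. -/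
def OO (k : ℕ) : ℚ := ∑ j ∈ range k, 1 / (2 * (j : ℚ) + 1) ^ 2

omit hp in
theorem aa_succ (M : ℚ) (k : ℕ) : aa (M + 1) k * (M + 1) = (M + 1 + k) * bb (M + 1) k := by
  induction k with
  | zero => simp [aa, bb]
  | succ k ih =>
    simp only [aa, bb, prod_range_succ] at ih ⊢
    push_cast
    linear_combination (((k : ℚ) - (M + 1)) * (k + (M + 1) + 1) / (k + 1) ^ 2) * ih

omit hp in
theorem aa_pred (M : ℚ) (k : ℕ) : aa M k * (M + 1) = (M + 1 - k) * bb (M + 1) k := by
  induction k with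
  | zero => simp [aa, bb]
  | succ k ih =>
    simp only [aa, bb, prod_range_succ] at ih ⊢
    push_cast
    linear_combination (((k : ℚ) - M) * (k + M + 1) / (k + 1) ^ 2) * ih

omit hp in
theorem bb_succ (n : ℚ) (k : ℕ) : bb n (k + 1) * ((k : ℚ) + 1) ^ 2 = bb n k * (k ^ 2 - n ^ 2) := by
  simp only [bb, prod_range_succ]
  field_simp

omit hp in
theorem bb_sum (n : ℚ) (k : ℕ) :
    n ^ 2 * ∑ i ∈ range (k + 1), bb n i = bb n k * (n ^ 2 - k ^ 2) := by
  induction k with
  | zero => simp [bb]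
  | succ k ih =>
    rw [sum_range_succ, mul_add, ih]
    push_cast
    linear_combination bb_succ n k

omit hp in
theorem bb_sumH (n : ℚ) (k : ℕ) : n ^ 2 * ∑ i ∈ range (k + 1), bb n i * HH i
    = bb n k * (n ^ 2 - k ^ 2) * HH k + ∑ i ∈ range (k + 1), bb n i - 1 := by
  induction k with
  | zero => simp [bb, HH]
  | succ k ih =>
    rw [sum_range_succ, mul_add, ih, sum_range_succ _ (k + 1)]
    have h1 : HH (k + 1) = HH k + 1 / ((k : ℚ) + 1) ^ 2 := sum_range_succ _ _
    have h2 : bb n (k + 1) * ((k : ℚ) + 1) ^ 2 * (1 / ((k : ℚ) + 1) ^ 2) = bb n (k + 1) := by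
      field_simp
    rw [h1]
    push_cast
    linear_combination (HH k) * bb_succ n k + h2

omit hp in
theorem aa_rec (M : ℕ) (z : ℚ) (g : ℕ → ℚ) (hz : ∀ k : ℕ, (k : ℚ) + z ≠ 0) :
    (M + 1 + z) * ∑ k ∈ range (M + 1 + 1), aa ((M + 1 : ℕ) : ℚ) k * g k / (k + z)
      - (M + 1 - z) * ∑ k ∈ range (M + 1), aa M k * g k / (k + z)
      = 2 * ∑ k ∈ range (M + 1 + 1), bb (M + 1) k * g k := by
  have hM : (M : ℚ) + 1 ≠ 0 := by positivity
  have h0 : aa M (M + 1) = 0 := by
    have := aa_pred M (M + 1)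
    push_cast at this
    rw [sub_self, zero_mul] at this
    exact (mul_eq_zero.1 this).resolve_right hM
  have h1 : ∑ k ∈ range (M + 1), aa M k * g k / (k + z)
      = ∑ k ∈ range (M + 1 + 1), aa M k * g k / (k + z) := by
    rw [sum_range_succ _ (M + 1), h0]; simp
  rw [h1, mul_sum, mul_sum, mul_sum, ← sum_sub_distrib]
  refine sum_congr rfl fun k _ => ?_
  have e1 : aa ((M + 1 : ℕ) : ℚ) k = (M + 1 + k) * bb (M + 1) k / (M + 1) := by
    push_cast; rw [eq_div_iff hM]; exact aa_succ M k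
  have e2 : aa M k = (M + 1 - k) * bb (M + 1) k / (M + 1) := by
    rw [eq_div_iff hM]; exact aa_pred M k
  rw [e1, e2]
  have := hz k
  field_simp
  ring

omit hp in
theorem bb_sum_zero (M : ℕ) : ∑ i ∈ range (M + 1 + 1), bb (M + 1) i = 0 := by
  have h := bb_sum (M + 1) (M + 1)
  push_cast at h
  rw [sub_self, mul_zero] at h
  exact (mul_eq_zero.1 h).resolve_left (by positivity)

omit hp in
theorem aa_sum (z : ℚ) (hz : ∀ k : ℕ, (k : ℚ) + z ≠ 0) (M : ℕ) :
    z * (∑ k ∈ range (M + 1), aa M k / (k + z)) * ∏ j ∈ range M, ((j : ℚ) + 1 + z)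
      = ∏ j ∈ range M, ((j : ℚ) + 1 - z) := by
  induction M with
  | zero =>
    have := hz 0
    simp only [Nat.cast_zero, zero_add] at this
    simp [aa, this]
  | succ M ih =>
    have h := aa_rec M z (fun _ => 1) hz
    simp only [mul_one] at h
    rw [bb_sum_zero] at h
    rw [prod_range_succ, prod_range_succ, ← ih]
    linear_combination (z * ∏ j ∈ range M, ((j : ℚ) + 1 + z)) * h

omit hp in
theorem aa_sumH (M : ℕ) :
    (2 * M + 1) * ∑ k ∈ range (M + 1), aa M k * HH k / (2 * k + 1) = -2 * HH M := by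
  have key : ∀ M : ℕ, (M + 1 / 2) * ∑ k ∈ range (M + 1), aa M k * HH k / (k + 1 / 2)
      = -2 * HH M := by
    intro M
    induction M with
    | zero => simp [HH]
    | succ M ih =>
      have h := aa_rec M (1 / 2) HH (fun k => by positivity)
      have h2 := bb_sumH (M + 1) (M + 1)
      rw [bb_sum_zero] at h2
      have h1 : HH (M + 1) = HH M + 1 / ((M : ℚ) + 1) ^ 2 := sum_range_succ _ _
      have h3 : ∑ i ∈ range (M + 1 + 1), bb (M + 1) i * HH i = -(1 / ((M : ℚ) + 1) ^ 2) := by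
        push_cast at h2
        field_simp
        linear_combination h2
      rw [h3] at h
      rw [h1]
      push_cast at h ⊢
      linear_combination h + ih
  rw [← key M, mul_sum, mul_sum]
  refine sum_congr rfl fun k _ => ?_
  field_simp

theorem prod_cong {w : ℕ → ℚ} (k : ℕ) (hw : ∀ j < k, w j ∈ R p) :
    D p 4 (∏ j ∈ range k, (1 - (p : ℚ) ^ 2 * w j) - (1 - (p : ℚ) ^ 2 * ∑ j ∈ range k, w j)) := by
  induction k with
  | zero => exact (D.zero 4).of_eq (by simp)
  | succ k ih =>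
    have h1 := (ih fun j hj => hw j (by omega)).rmul
      (sub_mem (one_mem _) (mul_mem (pow_mem (nat_mem p) 2) (hw k (by omega))))
    have h2 := D.pow_mul (p := p) 4 (mul_mem (sum_mem (t := range k) fun j hj =>
      hw j (by have := mem_range.1 hj; omega)) (hw k (by omega)))
    refine (h1.add h2).of_eq ?_
    rw [prod_range_succ, sum_range_succ]
    ring

theorem odd_unit (hm : p = 2 * m + 1) {j : ℕ} (hj : j < m) : U p (2 * (j : ℚ) + 1) := by
  have := U.lt (p := p) (c := 2 * j + 1) (by omega) (by omega)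
  simpa using this

theorem OO_mem (hm : p = 2 * m + 1) {k : ℕ} (hk : k ≤ m) : OO k ∈ R p :=
  sum_mem fun j hj => div_mem (one_mem _)
    ((odd_unit hm (by have := mem_range.1 hj; omega)).pow 2)

theorem HH_mem (hm : p = 2 * m + 1) {k : ℕ} (hk : k ≤ m) : HH k ∈ R p :=
  sum_mem fun j hj => div_mem (one_mem _)
    ((small_unit hm (by have := mem_range.1 hj; omega)).pow 2)

theorem aa_cong (h3 : 3 < p) (hm : p = 2 * m + 1) {k : ℕ} (hk : k ≤ m) :
    D p 4 (aa m k - cc k ^ 2 * (1 - (p : ℚ) ^ 2 * OO k)) := by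
  have hp' : (p : ℚ) = 2 * m + 1 := by rw [hm]; push_cast; ring
  have h1 := (prod_cong (p := p) (w := fun j : ℕ => 1 / (2 * (j : ℚ) + 1) ^ 2) k fun j hj =>
    div_mem (one_mem _) ((odd_unit hm (by omega)).pow 2)).lmul (pow_mem (cc_mem h3 k) 2)
  refine h1.of_eq ?_
  have : aa m k = cc k ^ 2 * ∏ j ∈ range k, (1 - (p : ℚ) ^ 2 * (1 / (2 * (j : ℚ) + 1) ^ 2)) := by
    rw [aa, cc, ← prod_pow, ← prod_mul_distrib]
    refine prod_congr rfl fun j _ => ?_
    rw [hp']
    field_simp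
    ring
  rw [this, OO]
  ring

theorem reflect_cong (h3 : 3 < p) (hm : p = 2 * m + 1) (k : ℕ) : ∀ j, k + j = m →
    D p 1 (cc j ^ 2 - cc k ^ 2) ∧ D p 1 (OO j - OO m + HH k / 4) := by
  induction k with
  | zero =>
    intro j hj
    obtain rfl : j = m := by omega
    refine ⟨?_, (D.zero 1).of_eq (by simp [HH])⟩
    simpa using rho_one h3 hm 0
  | succ k ih =>
    intro j hj
    obtain ⟨h1, h2⟩ := ih (j + 1) (by omega)
    have hp' : (p : ℚ) = 2 * (k + 1 + j) + 1 := by rw [hm, ← hj]; push_cast; ring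
    have uj := odd_unit hm (j := j) (by omega)
    have uk := small_unit hm (j := k) (by omega)
    have uk2 := (two_unit h3).mul uk
    have nj := uj.ne
    have nk := uk.ne
    have mk : (2 * (k : ℚ) + 1) / (2 * k + 2) ∈ R p := by
      rw [show 2 * (k : ℚ) + 2 = 2 * (k + 1) by ring]
      exact div_mem (odd_unit hm (j := k) (by omega)).mem uk2
    constructor
    · have e1 : D p 1 ((2 * (j : ℚ) + 2) / (2 * j + 1) - (2 * (k : ℚ) + 1) / (2 * k + 2)) := by
        refine ((D.p_mul (one_mem _)).div (uj.mul uk2)).of_eq ?_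
        rw [hp']
        field_simp
        ring
      have e2 := e1.sq_sub mk
      have e3 := h1.mul_sub e2 (pow_mem (cc_mem h3 k) 2) (e2.mem_of_sub (pow_mem mk 2))
      refine e3.of_eq ?_
      rw [cc_succ, cc_succ]
      field_simp
    · have e1 : D p 1 (1 / (2 * (j : ℚ) + 1) ^ 2 - 1 / (2 * ((k : ℚ) + 1)) ^ 2) := by
        refine ((D.p_mul (sub_mem uk2.mem uj.mem)).div ((uj.mul uk2).pow 2)).of_eq ?_
        rw [hp']
        field_simp
        ring
      refine (h2.sub e1).of_eq ?_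
      have a1 : HH (k + 1) = HH k + 1 / ((k : ℚ) + 1) ^ 2 := sum_range_succ _ _
      have a2 : OO (j + 1) = OO j + 1 / (2 * (j : ℚ) + 1) ^ 2 := sum_range_succ _ _
      rw [a1, a2]
      field_simp
      ring

theorem first_case (h3 : 3 < p) (hm : p = 2 * m + 1) :
    D p 5 (SS (m + 1) - p - 7 / 6 * bernoulli (p - 3) * (p : ℚ) ^ 4) := by
  have hp' : (p : ℚ) = 2 * m + 1 := by rw [hm]; push_cast; ring
  have hp0 : (p : ℚ) ≠ 0 := p_ne
  have h2 := two_unit h3
  have h4 := four_unit h3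
  have h3' := three_unit h3
  set B := bernoulli (p - 3) with hBdef
  have hB : B ∈ R p := bernoulli_mem _ (by omega)
  have hB7 : 7 / 3 * B ∈ R p := mul_mem (div_mem (ofNat_mem _ 7) h3') hB
  have hH := HH_cong h3 hm
  rw [← hBdef] at hH
  have hH1 : D p 1 (HH m / p - 7 / 3 * B) :=
    D.cancel 1 (hH.of_eq (by field_simp))
  have hH0 : D p 1 (HH m) := ((hH.mono (by norm_num)).add (D.p_mul hB7)).of_eq (by ring)
  have hO : D p 1 (OO m) := by
    have := (reflect_cong h3 hm m 0 (by simp)).2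
    exact ((hH0.div h4).sub this).of_eq (by simp [OO])
  have hc1 : D p 1 (cc m ^ 2 - 1) := by simpa [cc] using rho_one h3 hm 0
  have ha : ∀ k ≤ m, D p 1 (aa m k - cc k ^ 2) := by
    intro k hk
    have e := D.p_mul (p := p) (mul_mem (mul_mem (pow_mem (cc_mem h3 k) 2) (nat_mem p))
      (OO_mem hm hk))
    exact (((aa_cong h3 hm hk).mono (by norm_num)).sub e).of_eq (by ring)
  have ham : ∀ k ≤ m, aa m k ∈ R p := fun k hk =>
    (ha k hk).mem_of_sub (pow_mem (cc_mem h3 k) 2)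
  set W : ℚ := ∑ k ∈ range (m + 1), cc k ^ 2 * OO k / (p - 2 * k) with hW
  have w1 : W = ∑ k ∈ range m, cc (m - k) ^ 2 * OO (m - k) / (2 * k + 1) := by
    rw [hW, ← sum_range_reflect, sum_range_succ]
    have : OO (m + 1 - 1 - m) = 0 := by simp [OO]
    rw [this, mul_zero, zero_div, add_zero]
    refine sum_congr rfl fun k hk => ?_
    have hk' := mem_range.1 hk
    rw [Nat.add_sub_cancel, Nat.cast_sub hk'.le, hp']
    congr 1; ring
  have w2 : D p 1 (W - ∑ k ∈ range m, -(aa m k * HH k / (2 * k + 1)) / 4) := by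
    rw [w1]
    refine D.sum_sub fun k hk => ?_
    have hk' := mem_range.1 hk
    obtain ⟨e1, e2⟩ := reflect_cong h3 hm k (m - k) (by omega)
    have e3 : D p 1 (OO (m - k) - -(HH k / 4)) := (e2.add hO).of_eq (by ring)
    have e4 := (e1.trans (ha k hk'.le).symm).mul_sub e3 (ham k hk'.le) (OO_mem hm (by omega))
    exact (e4.div (odd_unit hm hk')).of_eq (by ring)
  have w3 : ∑ k ∈ range m, -(aa m k * HH k / (2 * k + 1)) / 4
      = (2 + aa m m) * (HH m / p) / 4 := by
    have e := aa_sumH m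
    rw [sum_range_succ, ← hp'] at e
    rw [← sum_div, sum_neg_distrib]
    field_simp
    field_simp at e
    linear_combination -e
  have w4 : D p 1 (W - 7 / 4 * B) := by
    rw [w3] at w2
    have e1 : D p 1 ((2 + aa m m) - 3) := ((ha m le_rfl).trans hc1).of_eq (by ring)
    have e2 := (e1.mul_sub hH1 h3'.mem (hH1.mem_of_sub hB7)).div h4
    exact (w2.add e2).of_eq (by ring)
  have hB4 : 7 / 4 * B ∈ R p := mul_mem (div_mem (ofNat_mem _ 7) h4) hB
  have hz : ∀ k : ℕ, (k : ℚ) + -(p / 2) ≠ 0 := by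
    intro k h
    apply odd_ne m k
    rw [hp'] at h
    linarith
  set G : ℚ := -(p / 2) * ∑ k ∈ range (m + 1), aa m k / (k + -(p / 2)) with hG
  have t1 : D p 4 (TT m - G - (p : ℚ) ^ 3 * W) := by
    rw [hG, hW, TT, mul_sum, mul_sum, ← sum_sub_distrib]
    refine D.sum_sub fun k hk => ?_
    have hk' : k ≤ m := Nat.lt_succ_iff.1 (mem_range.1 hk)
    have hq := ratio_mem (p := p) (x := m) (s := 1) (l := k) (by rw [pow_one]; omega) hk'
    refine ((aa_cong h3 hm hk').neg.rmul hq).of_eq ?_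
    have n1 := odd_ne m k
    rw [← hp'] at n1 ⊢
    have n2 : -((p : ℚ) / 2) * (aa m k / (k + -(p / 2))) = aa m k * (p / (p - 2 * k)) := by
      have := hz k
      rw [show (k : ℚ) + -(p / 2) = -(p - 2 * k) / 2 by ring]
      field_simp
    rw [n2]
    field_simp
    ring
  have t2 : cc m ^ 2 * G = ∏ j ∈ range m, (1 - (p : ℚ) ^ 2 * (1 / (4 * ((j : ℚ) + 1) ^ 2))) := by
    have e1 := aa_sum (-(p / 2)) hz m
    rw [← hG] at e1
    have e2 : cc m ^ 2 = ∏ j ∈ range m, (((j : ℚ) + 1 + -(p / 2)) / (j + 1)) ^ 2 := by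
      rw [cc, prod_div_distrib, div_pow, ← prod_pow, ← prod_pow,
        ← prod_range_reflect (fun j : ℕ => (2 * (j : ℚ) + 1) ^ 2), ← prod_div_distrib]
      refine prod_congr rfl fun j hj => ?_
      have hj' := mem_range.1 hj
      rw [Nat.sub_sub, Nat.cast_sub (by omega), hp']
      push_cast
      field_simp
      ring
    have e3 : cc m ^ 2 = (∏ j ∈ range m, ((j : ℚ) + 1 + -(p / 2)))
        * ∏ j ∈ range m, ((j : ℚ) + 1 + -(p / 2)) / (j + 1) ^ 2 := by
      rw [e2, ← prod_mul_distrib]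
      exact prod_congr rfl fun j _ => by rw [div_pow, pow_two (_ + _ : ℚ), mul_div_assoc]
    rw [e3, mul_comm, ← mul_assoc, e1, ← prod_mul_distrib]
    refine prod_congr rfl fun j _ => ?_
    field_simp
    ring
  have t3 : D p 4 (cc m ^ 2 * G - (1 - (p : ℚ) ^ 2 * (HH m / 4))) := by
    have e := prod_cong (p := p) (w := fun j : ℕ => 1 / (4 * ((j : ℚ) + 1) ^ 2)) m fun j hj =>
      div_mem (one_mem _) (h4.mul ((small_unit hm hj).pow 2))
    rw [← t2] at e
    refine e.of_eq ?_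
    rw [HH, sum_div]
    congr 3
    exact sum_congr rfl fun j _ => by field_simp
  have t4 := (hc1.mul_sub w4 (one_mem _) (w4.mem_of_sub hB4)).shift 3
  have t5 := (hH.div h4).shift 2
  have t6 := ((((t1.lmul (pow_mem (cc_mem h3 m) 2)).add t3).add t4).sub t5).shift 1
  refine t6.of_eq ?_
  rw [whipple, ← hp']
  ring

end Pool.Agent.P.MP_8d9088_nt
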