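import Pool.Agent.P.MP_8d9088_nt.R1b

/-! The case r = 1: S((p-1)/2) = p + 7/6 B_(p-3) p^4 modulo p^5. -/

open Finset

namespace Pool.Agent.P.MP_8d9088_nt.R1

variable {p : ℕ} [hp : Fact p.Prime]

noncomputable def iv (p : ℕ) [Fact p.Prime] (j : ℕ) : ℤ_[p] := Ring.inverse (j : ℤ_[p])

lemma iv_mul (j : ℕ) (h1 : 1 ≤ j) (h2 : j < p) : (j : ℤ_[p]) * iv p j = 1 := by
  apply Ring.mul_inverse_cancel
  rw [PadicInt.isUnit_iff, PadicInt.norm_natCast_eq_one_iff]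
  exact (Nat.coprime_of_lt_prime (by omega) h2 hp.out)

lemma dvd_of_toZMod (x : ℤ_[p]) (h : PadicInt.toZMod x = 0) : (p : ℤ_[p]) ∣ x := by
  rw [← Ideal.mem_span_singleton, ← PadicInt.maximalIdeal_eq_span_p, ← PadicInt.ker_toZMod]
  exact h

lemma iv_coe (j : ℕ) (h1 : 1 ≤ j) (h2 : j < p) : ((iv p j : ℤ_[p]) : ℚ_[p]) = (j : ℚ_[p])⁻¹ := by
  have := congrArg (fun z : ℤ_[p] => (z : ℚ_[p])) (iv_mul j h1 h2)
  simp only [PadicInt.coe_mul, PadicInt.coe_natCast, PadicInt.coe_one] at this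
  exact eq_inv_of_mul_eq_one_right this

lemma bern_int (i : ℕ) (hi : i + 1 < p) : ∃ z : ℤ_[p], (z : ℚ_[p]) = ((bernoulli i : ℚ) : ℚ_[p]) := by
  induction i using Nat.strong_induction_on with
  | _ i ih =>
    rcases Nat.eq_zero_or_pos i with rfl | hpos
    · exact ⟨1, by simp⟩
    have ih' : ∀ k, ∃ z : ℤ_[p], k < i → (z : ℚ_[p]) = ((bernoulli k : ℚ) : ℚ_[p]) := fun k => by
      by_cases hk : k < i
      · obtain ⟨z, hz⟩ := ih k hk (by omega)
        exact ⟨z, fun _ => hz⟩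
      · exact ⟨0, fun h => absurd h hk⟩
    choose z hz using ih'
    refine ⟨-iv p (i + 1) * ∑ k ∈ range i, ((i + 1).choose k : ℤ_[p]) * z k, ?_⟩
    have h := sum_bernoulli (i + 1)
    rw [if_neg (by omega), sum_range_succ, Nat.choose_succ_self_right] at h
    have h' := congrArg (fun x : ℚ => (x : ℚ_[p])) h
    simp only [Rat.cast_add, Rat.cast_sum, Rat.cast_mul, Rat.cast_natCast, Rat.cast_zero] at h'
    rw [PadicInt.coe_mul, PadicInt.coe_neg, iv_coe (i + 1) (by omega) hi, PadicInt.coe_sum]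
    have e : ∑ k ∈ range i, ((((i + 1).choose k : ℤ_[p]) * z k : ℤ_[p]) : ℚ_[p]) =
        ∑ k ∈ range i, ((i + 1).choose k : ℚ_[p]) * ((bernoulli k : ℚ) : ℚ_[p]) :=
      sum_congr rfl fun k hk => by
        rw [PadicInt.coe_mul, hz k (mem_range.1 hk), PadicInt.coe_natCast]
    rw [e]
    have hne : ((i + 1 : ℕ) : ℚ_[p]) ≠ 0 := Nat.cast_ne_zero.2 (by omega)
    field_simp
    linear_combination -h'

lemma faul (h3 : 3 < p) : ∃ b : ℤ_[p], (b : ℚ_[p]) = ((bernoulli (p - 3) : ℚ) : ℚ_[p]) ∧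
    (p : ℤ_[p]) ^ 2 ∣ ∑ j ∈ range p, (j : ℤ_[p]) ^ (p - 3) - p * b := by
  have hz : ∀ k, ∃ z : ℤ_[p], k + 1 < p → (z : ℚ_[p]) = ((bernoulli k : ℚ) : ℚ_[p]) := fun k => by
    by_cases hk : k + 1 < p
    · obtain ⟨z, hz⟩ := bern_int k hk
      exact ⟨z, fun _ => hz⟩
    · exact ⟨0, fun h => absurd h hk⟩
  choose z hz using hz
  obtain ⟨m, hm⟩ : ∃ m, m = p - 3 := ⟨_, rfl⟩
  rw [← hm]
  refine ⟨z m, hz m (by omega), ∑ i ∈ range m, z i * ((m + 1).choose i : ℤ_[p]) *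
    (p : ℤ_[p]) ^ (m - 1 - i) * iv p (m + 1), ?_⟩
  apply Subtype.ext
  have h := congrArg (fun x : ℚ => (x : ℚ_[p])) (sum_range_pow p m)
  simp only [sum_range_succ, Nat.choose_succ_self_right, Rat.cast_add, Rat.cast_sum, Rat.cast_mul,
    Rat.cast_natCast, Rat.cast_div, Rat.cast_pow, Rat.cast_one, Nat.add_sub_cancel_left] at h
  have hne : ((m : ℚ_[p]) + 1) ≠ 0 := by exact_mod_cast Nat.succ_ne_zero m
  change (((∑ j ∈ range p, (j : ℤ_[p]) ^ m - p * z m : ℤ_[p])) : ℚ_[p]) = ((_ : ℤ_[p]) : ℚ_[p])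
  rw [PadicInt.coe_sub, PadicInt.coe_sum, PadicInt.coe_mul, PadicInt.coe_mul, PadicInt.coe_sum,
    hz m (by omega), mul_sum]
  simp only [PadicInt.coe_pow, PadicInt.coe_natCast, PadicInt.coe_mul]
  rw [h]
  have e : ∑ i ∈ range m, ((bernoulli i : ℚ) : ℚ_[p]) * ((m + 1).choose i : ℚ_[p]) *
      (p : ℚ_[p]) ^ (m + 1 - i) / ((m : ℚ_[p]) + 1) = ∑ i ∈ range m, (p : ℚ_[p]) ^ 2 *
      ((z i : ℚ_[p]) * ((m + 1).choose i : ℚ_[p]) * (p : ℚ_[p]) ^ (m - 1 - i) *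
        (iv p (m + 1) : ℚ_[p])) := sum_congr rfl fun i hi => by
    have hi' := mem_range.1 hi
    rw [hz i (by omega), iv_coe (m + 1) (by omega) (by omega),
      show m + 1 - i = 2 + (m - 1 - i) by omega, pow_add]
    push_cast
    ring
  rw [e, add_sub_assoc, add_eq_left]
  push_cast
  field_simp
  ring

lemma pow_refl {A : Type*} [CommRing A] (P a : A) (n : ℕ) (hn : Even (n + 1)) :
    P ^ 2 ∣ (P - a) ^ (n + 1) - (a ^ (n + 1) - (n + 1) * P * a ^ n) := by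
  have := sq_dvd_add_pow_sub_sub (-P) a (n + 1)
  rw [neg_sq, Nat.add_sub_cancel] at this
  have e : (P - a) ^ (n + 1) = (a + -P) ^ (n + 1) := by
    rw [← hn.neg_pow]; congr 1; ring
  rw [e]
  convert this using 1
  push_cast; ring

lemma sB (q : ℕ) (hq : p = 2 * q + 1) (h3 : 3 < p) (b : ℤ_[p])
    (hb : (p : ℤ_[p]) ^ 2 ∣ ∑ j ∈ range p, (j : ℤ_[p]) ^ (p - 3) - p * b) :
    (p : ℤ_[p]) ∣ ∑ k ∈ range q, ((k : ℤ_[p]) + 1) ^ (p - 4) + 2 * b := by
  obtain ⟨n, hn⟩ : ∃ n, n = p - 4 := ⟨_, rfl⟩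
  have hpn : p = n + 4 := by omega
  have hev : Even (n + 1) := ⟨q - 1, by omega⟩
  rw [show p - 3 = n + 1 by omega] at hb
  rw [← hn]
  have hr : range p = range (2 * q + 1) := by rw [← hq]
  rw [hr] at hb
  have hP : (p : ℤ_[p]) = n + 4 := by exact_mod_cast hpn
  set T := ∑ j ∈ range (2 * q + 1), (j : ℤ_[p]) ^ (n + 1) with hT
  set s := ∑ k ∈ range q, ((k : ℤ_[p]) + 1) ^ (n + 1) with hs
  set s' := ∑ k ∈ range q, ((k : ℤ_[p]) + 1) ^ n with hs'
  have F2 : (p : ℤ_[p]) ^ 2 ∣ T - (2 * s - (n + 1) * p * s') := by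
    rw [hT, split1 (fun j => (j : ℤ_[p]) ^ (n + 1)) q, hs, hs', mul_sum, mul_sum, ← sum_sub_distrib]
    simp only [Nat.cast_zero, ne_eq, Nat.add_eq_zero_iff, one_ne_zero, and_false,
      not_false_eq_true, zero_pow, zero_add]
    rw [← sum_sub_distrib]
    refine dvd_sum fun k hk => ?_
    have hk' := mem_range.1 hk
    rw [← hq, Nat.cast_sub (by omega)]
    push_cast
    convert pow_refl (p : ℤ_[p]) ((k : ℤ_[p]) + 1) n hev using 1
    ring
  have F3 : (p : ℤ_[p]) ^ 2 ∣ T - (2 * 2 ^ (n + 1) * s - (n + 1) * p * 2 ^ n * s') := by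
    rw [hT, split2 (fun j => (j : ℤ_[p]) ^ (n + 1)) q, hs, hs', mul_sum, mul_sum, ← sum_sub_distrib]
    simp only [Nat.cast_zero, ne_eq, Nat.add_eq_zero_iff, one_ne_zero, and_false,
      not_false_eq_true, zero_pow, zero_add]
    rw [← sum_sub_distrib]
    refine dvd_sum fun k hk => ?_
    have hk' := mem_range.1 hk
    rw [← hq, Nat.cast_sub (by omega)]
    push_cast
    convert pow_refl (p : ℤ_[p]) (2 * ((k : ℤ_[p]) + 1)) n hev using 1
    rw [mul_pow, mul_pow]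
    ring
  have h2 := iv_mul (p := p) 2 (by omega) (by omega)
  have ht := iv_mul (p := p) 3 (by omega) (by omega)
  push_cast at h2 ht
  have hF : (p : ℤ_[p]) ∣ 2 ^ (n + 3) - 1 := by
    apply dvd_of_toZMod
    have hne : (2 : ZMod p) ≠ 0 := fun e => by
      have := congrArg (PadicInt.toZMod (p := p)) h2
      rw [map_mul, map_ofNat, e] at this
      simp at this
    have := ZMod.pow_card_sub_one_eq_one hne
    rw [show p - 1 = n + 3 by omega] at this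
    rw [map_sub, map_pow, map_ofNat, this, map_one, sub_self]
  obtain ⟨u1, hu1⟩ := hb
  obtain ⟨u2, hu2⟩ := F2
  obtain ⟨u3, hu3⟩ := F3
  obtain ⟨f, hf⟩ := hF
  have hp0 : (p : ℤ_[p]) ≠ 0 := Nat.cast_ne_zero.2 (by omega)
  have hsg : s = p * (iv p 2 * (b + (n + 1) * s' + p * (u1 - u2))) := by
    linear_combination (iv p 2) * (hu1 - hu2) - s * h2
  set σ := iv p 2 * (b + (n + 1) * s' + p * (u1 - u2)) with hσ
  have e1 : b + p * u1 = 2 * σ - (n + 1) * s' + p * u2 := by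
    apply mul_left_cancel₀ hp0
    linear_combination hu2 - hu1 + 2 * hsg
  have e2 : b + p * u1 = 2 * 2 ^ (n + 1) * σ - (n + 1) * 2 ^ n * s' + p * u3 := by
    apply mul_left_cancel₀ hp0
    linear_combination hu3 - hu1 + 2 * 2 ^ (n + 1) * hsg
  refine ⟨iv p 3 * (-6 * u1 - 2 * u2 + 8 * u3 + 4 * f * σ - (n + 1) * f * s' + s'), ?_⟩
  linear_combination (iv p 3) * (8 * e2 - 2 * e1 + (4 * σ - (n + 1) * s') * hf - s' * hP)
    - (s' + 2 * b) * ht

lemma iv_refl (a : ℕ) (h1 : 1 ≤ a) (h2 : a < p) :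
    (p : ℤ_[p]) ^ 2 ∣ iv p (p - a) ^ 2 - (iv p a ^ 2 + 2 * p * iv p a ^ 3) := by
  have e1 := iv_mul (p := p) a h1 h2
  have e2 := iv_mul (p := p) (p - a) (by omega) (by omega)
  rw [Nat.cast_sub h2.le] at e2
  have e3 : iv p (p - a) = -iv p a + p * (iv p (p - a) * iv p a) := by
    linear_combination (-iv p a) * e2 - iv p (p - a) * e1
  refine ⟨-2 * iv p (p - a) * iv p a ^ 3 + iv p (p - a) ^ 2 * iv p a ^ 2, ?_⟩
  linear_combination (iv p (p - a) - iv p a + p * (iv p (p - a) * iv p a)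
    - 2 * p * iv p a ^ 2) * e3

lemma iv_two (a : ℕ) (h1 : 1 ≤ a) (h2 : 2 * a < p) : iv p (2 * a) = iv p 2 * iv p a := by
  have e1 := iv_mul (p := p) a h1 (by omega)
  have e2 := iv_mul (p := p) (2 * a) (by omega) h2
  have e3 := iv_mul (p := p) 2 (by omega) (by omega)
  push_cast at e2 e3
  linear_combination (iv p 2 * iv p a) * e2 - iv p (2 * a) * (2 * iv p 2) * e1 - iv p (2 * a) * e3

lemma H2 (q : ℕ) (hq : p = 2 * q + 1) (h3 : 3 < p) :
    (p : ℤ_[p]) ^ 2 ∣ 6 * ∑ k ∈ range q, iv p (k + 1) ^ 2 + 7 * p * ∑ k ∈ range q, iv p (k + 1) ^ 3 := by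
  have h2 := iv_mul (p := p) 2 (by omega) (by omega)
  push_cast at h2
  have e := (split1 (fun j => iv p j ^ 2) q).symm.trans (split2 (fun j => iv p j ^ 2) q)
  rw [add_right_inj, ← hq] at e
  have F2 : (p : ℤ_[p]) ^ 2 ∣ ∑ j ∈ range q, (iv p (j + 1) ^ 2 + iv p (p - (j + 1)) ^ 2) -
      (2 * ∑ k ∈ range q, iv p (k + 1) ^ 2 + 2 * p * ∑ k ∈ range q, iv p (k + 1) ^ 3) := by
    rw [mul_sum, mul_sum, ← sum_add_distrib, ← sum_sub_distrib]
    refine dvd_sum fun k hk => ?_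
    have hk' := mem_range.1 hk
    convert iv_refl (p := p) (k + 1) (by omega) (by omega) using 1
    ring
  have F3 : (p : ℤ_[p]) ^ 2 ∣ ∑ j ∈ range q, (iv p (2 * (j + 1)) ^ 2 + iv p (p - 2 * (j + 1)) ^ 2) -
      (2 * iv p 2 ^ 2 * ∑ k ∈ range q, iv p (k + 1) ^ 2 +
        2 * p * iv p 2 ^ 3 * ∑ k ∈ range q, iv p (k + 1) ^ 3) := by
    rw [mul_sum, mul_sum, ← sum_add_distrib, ← sum_sub_distrib]
    refine dvd_sum fun k hk => ?_
    have hk' := mem_range.1 hk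
    convert iv_refl (p := p) (2 * (k + 1)) (by omega) (by omega) using 1
    rw [iv_two (k + 1) (by omega) (by omega)]
    ring
  obtain ⟨u2, hu2⟩ := F2
  obtain ⟨u3, hu3⟩ := F3
  refine ⟨4 * (u3 - u2), ?_⟩
  linear_combination 4 * (hu3 - hu2) + 4 * e
    + 2 * (2 * iv p 2 + 1) * (∑ k ∈ range q, iv p (k + 1) ^ 2) * h2
    + p * (4 * iv p 2 ^ 2 + 2 * iv p 2 + 1) * (∑ k ∈ range q, iv p (k + 1) ^ 3) * h2

lemma H3s (q : ℕ) (hq : p = 2 * q + 1) (h3 : 3 < p) :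
    (p : ℤ_[p]) ∣ ∑ k ∈ range q, iv p (k + 1) ^ 3 - ∑ k ∈ range q, ((k : ℤ_[p]) + 1) ^ (p - 4) := by
  rw [← sum_sub_distrib]
  refine dvd_sum fun k hk => dvd_of_toZMod _ ?_
  have hk' := mem_range.1 hk
  have e1 := congrArg (PadicInt.toZMod (p := p)) (iv_mul (p := p) (k + 1) (by omega) (by omega))
  simp only [map_mul, map_natCast, map_one, map_sub, map_pow, map_add] at e1 ⊢
  push_cast at e1
  have e2 : ((k : ZMod p) + 1) ≠ 0 := fun e => by simp [e] at e1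
  have e3 := ZMod.pow_card_sub_one_eq_one e2
  rw [show p - 1 = p - 4 + 3 by omega, pow_add] at e3
  set v := PadicInt.toZMod (iv p (k + 1))
  linear_combination -(v ^ 3) * e3 + ((k : ZMod p) + 1) ^ (p - 4) *
      ((((k : ZMod p) + 1) * v) ^ 2 + ((k : ZMod p) + 1) * v + 1) * e1

lemma Es (q : ℕ) (hq : p = 2 * q + 1) (h3 : 3 < p) :
    (p : ℤ_[p]) ∣ ∑ k ∈ range q, EE (iv p) (iv p 2) (k + 1) * iv p (k + 1) -
      7 * ∑ k ∈ range q, ((k : ℤ_[p]) + 1) ^ (p - 4) := by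
  apply dvd_of_toZMod
  have hi : ∀ j, 1 ≤ j → j < p → (j : ZMod p) * PadicInt.toZMod (iv p j) = 1 := fun j a b => by
    simpa using congrArg (PadicInt.toZMod (p := p)) (iv_mul (p := p) j a b)
  have := EK q hq h3 (fun j => PadicInt.toZMod (iv p j)) (fun j a b => hi j a (by omega))
    (PadicInt.toZMod (iv p 2)) (by simpa using hi 2 (by omega) (by omega))
  simp only [map_sub, map_sum, map_mul, map_EE, map_pow, map_add, map_natCast, map_one, map_ofNat]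
  rw [this, sub_self]

lemma main_padic (q : ℕ) (hq : p = 2 * q + 1) (h3 : 3 < p) (b : ℤ_[p])
    (hb : (p : ℤ_[p]) ^ 2 ∣ ∑ j ∈ range p, (j : ℤ_[p]) ^ (p - 3) - p * b) :
    ∃ u : ℤ_[p], be (iv p) (-iv p 2) q * (1 + (-p * iv p 2) *
      UU (iv p) (fun j => -2 * iv p (p - 2 * j)) (-iv p 2) q) =
      1 + 7 * iv p 2 * iv p 3 * b * p ^ 3 + p ^ 4 * u := by
  have h2 := iv_mul (p := p) 2 (by omega) (by omega)
  have ht := iv_mul (p := p) 3 (by omega) (by omega)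
  push_cast at h2 ht
  set h := iv p 2 with hh
  set t := iv p 3
  set x : ℤ_[p] := -p * h with hx
  set w : ℕ → ℤ_[p] := fun j => -2 * iv p (p - 2 * j) with hw
  have hP : (p : ℤ_[p]) = 2 * q + 1 := by exact_mod_cast hq
  have hiv : ∀ j, 1 ≤ j → j ≤ q → (j : ℤ_[p]) * iv p j = 1 := fun j a b => iv_mul j a (by omega)
  have hw' : ∀ j, 1 ≤ j → j ≤ q → ((j : ℤ_[p]) + x) * w j = 1 := fun j a b => by
    have := iv_mul (p := p) (p - 2 * j) (by omega) (by omega)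
    rw [Nat.cast_sub (by omega)] at this
    push_cast at this
    simp only [hw, hx]
    linear_combination this + p * iv p (p - 2 * j) * h2
  have ha : be (iv p) (-h) q * (1 + x * UU (iv p) w q q) = ga (iv p) x q := by
    have h1 := W_closed (iv p) w x q hiv hw' q le_rfl
    have h4 : be (iv p) (-h) q = (∏ t ∈ range q, ((t : ℤ_[p]) + 1 + x)) ^ 2 *
        ∏ t ∈ range q, iv p (t + 1) ^ 2 := by
      rw [be, prod_mul_distrib, ← prod_pow, ← prod_range_reflect (fun t => ((t : ℤ_[p]) + 1 + x) ^ 2) q]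
      congr 1
      refine prod_congr rfl fun k hk => ?_
      have hk' := mem_range.1 hk
      rw [Nat.sub_sub, Nat.cast_sub (by omega)]
      push_cast
      have : (q : ℤ_[p]) - (1 + k) + 1 + x = -(k + h) := by
        rw [hx]; linear_combination -h * hP - (q : ℤ_[p]) * h2
      rw [this]
      linear_combination -((k : ℤ_[p]) + h) * h2
    have h5 : ga (iv p) x q = (∏ t ∈ range q, ((t : ℤ_[p]) + 1 + x)) *
        (∏ t ∈ range q, ((t : ℤ_[p]) + 1 - x)) * ∏ t ∈ range q, iv p (t + 1) ^ 2 := by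
      rw [ga, ← prod_mul_distrib, ← prod_mul_distrib]
      refine prod_congr rfl fun k hk => ?_
      have hk' := mem_range.1 hk
      have := hiv (k + 1) (by omega) (by omega)
      push_cast at this
      linear_combination -(((k : ℤ_[p]) + 1) * iv p (k + 1) + 1) * this
    rw [h4, h5, ← h1]
    ring
  have hb1 : (p : ℤ_[p]) ^ 3 ∣ UU (iv p) w q q - (UU (iv p) w (-h) q -
      p ^ 2 * h ^ 2 * ∑ k ∈ range q, EE (iv p) h (k + 1) * iv p (k + 1)) := by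
    rw [UU, UU, mul_sum, ← sum_sub_distrib, ← sum_sub_distrib]
    refine dvd_sum fun k hk => ?_
    have hk' := mem_range.1 hk
    obtain ⟨u, hu⟩ := be_eps (iv p) h (p * h) h2 (k + 1)
    have e : -h + p * h = (q : ℤ_[p]) := by linear_combination h * hP + (q : ℤ_[p]) * h2
    rw [e] at hu
    have e1 := hiv (k + 1) (by omega) (by omega)
    have e2 := hw' (k + 1) (by omega) (by omega)
    have e3 : w (k + 1) = iv p (k + 1) + p * (h * iv p (k + 1) * w (k + 1)) := by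
      rw [hx] at e2
      linear_combination iv p (k + 1) * e2 - w (k + 1) * e1
    refine ⟨p * h ^ 4 * u * w (k + 1) -
      h ^ 2 * EE (iv p) h (k + 1) * (h * iv p (k + 1) * w (k + 1)), ?_⟩
    linear_combination w (k + 1) * hu - p ^ 2 * h ^ 2 * EE (iv p) h (k + 1) * e3
  obtain ⟨u1, hu1⟩ := hb1
  obtain ⟨u2, hu2⟩ := ga_eps (iv p) x q
  obtain ⟨u3, hu3⟩ := H2 q hq h3
  obtain ⟨u4, hu4⟩ := H3s q hq h3
  obtain ⟨u5, hu5⟩ := Es q hq h3
  obtain ⟨u6, hu6⟩ := sB q hq h3 b hb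
  rw [← hh] at hu5
  set A := be (iv p) (-h) q
  set U := UU (iv p) w q q
  set U0 := UU (iv p) w (-h) q
  set E := ∑ k ∈ range q, EE (iv p) h (k + 1) * iv p (k + 1)
  set s' := ∑ k ∈ range q, ((k : ℤ_[p]) + 1) ^ (p - 4)
  set G2 := ∑ k ∈ range q, iv p (k + 1) ^ 2
  set G3 := ∑ k ∈ range q, iv p (k + 1) ^ 3
  have hA : A = 1 + p * (A * h * U - p * h ^ 2 * G2 + p ^ 3 * h ^ 4 * u2) := by
    rw [hx] at ha hu2
    linear_combination ha + hu2
  set v := A * h * U - p * h ^ 2 * G2 + p ^ 3 * h ^ 4 * u2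
  have hE : E = -14 * b + p * (u5 + 7 * u6) := by linear_combination hu5 + 7 * hu6
  have hG3 : G3 = -2 * b + p * (u4 + u6) := by linear_combination hu4 + hu6
  have hG2 : G2 = h * t * (p ^ 2 * u3 - 7 * p * G3) := by
    linear_combination h * t * hu3 - G2 * (3 * t) * h2 - G2 * ht
  refine ⟨h ^ 4 * u2 - h ^ 3 * t * u3 + 7 * h ^ 3 * t * (u4 + u6) + A * h * u1
    - h ^ 3 * (u5 + 7 * u6) - h ^ 3 * v * E, ?_⟩
  have key : 14 * h ^ 3 * (1 - t) = 7 * h * t := by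
    linear_combination (-14 * h ^ 3) * ht + 7 * h * t * (2 * h + 1) * h2
  rw [hx] at ha hu2 ⊢
  linear_combination ha + hu2 + A * p * h * hu1 - p ^ 2 * h ^ 2 * hG2 + 7 * p ^ 3 * h ^ 3 * t * hG3
    - p ^ 3 * h ^ 3 * E * hA - p ^ 3 * h ^ 3 * hE + p ^ 3 * b * key

/-- The case r = 1. -/
theorem r1 (p : ℕ) (hp : p.Prime) (h3 : 3 < p) : ∃ u : ℚ, ¬ p ∣ u.den ∧
    ∑ k ∈ range ((p - 1) / 2 + 1), (4 * (k : ℚ) + 1) * ((Nat.centralBinom k : ℚ) / 4 ^ k) ^ 4 =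
      p + 7 / 6 * bernoulli (p - 3) * p ^ 4 + p ^ 5 * u := by
  have : Fact p.Prime := ⟨hp⟩
  obtain ⟨q, hq⟩ : ∃ q, p = 2 * q + 1 := hp.odd_of_ne_two (by omega)
  rw [show (p - 1) / 2 = q by omega]
  obtain ⟨b, hb1, hb2⟩ := faul (p := p) h3
  obtain ⟨z, hz⟩ := main_padic q hq h3 b hb2
  set a : ℕ → ℚ_[p] := fun k => (Nat.centralBinom k : ℚ_[p]) / 4 ^ k with ha
  have harec : ∀ k : ℕ, (2 * (k : ℚ_[p]) + 2) * a (k + 1) = (2 * k + 1) * a k := fun k => by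
    have := congrArg (fun n : ℕ => (n : ℚ_[p])) (Nat.succ_mul_centralBinom_succ k)
    simp only [ha]
    push_cast at this
    field_simp
    linear_combination 2 * 4 ^ k * this
  have hI := I1 a (by simp [ha]) harec q
  have hh : ((iv p 2 : ℤ_[p]) : ℚ_[p]) = 2⁻¹ := by simpa using iv_coe (p := p) 2 (by omega) (by omega)
  have ht : ((iv p 3 : ℤ_[p]) : ℚ_[p]) = 3⁻¹ := by simpa using iv_coe (p := p) 3 (by omega) (by omega)
  have hbe : ∀ k, k < p → ((be (iv p) (-iv p 2) k : ℤ_[p]) : ℚ_[p]) = a k ^ 2 := by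
    intro k hk
    induction k with
    | zero => simp [be, ha]
    | succ k ih =>
      rw [be_succ]
      push_cast
      rw [ih (by omega), hh, iv_coe (k + 1) (by omega) hk]
      have hne : ((k : ℚ_[p]) + 1) ≠ 0 := by exact_mod_cast Nat.succ_ne_zero k
      have := harec k
      push_cast
      field_simp
      linear_combination -((2 * (k : ℚ_[p]) + 2) * a (k + 1) + (2 * k + 1) * a k) * this
  have c2 : ((2 : ℤ_[p]) : ℚ_[p]) = 2 := rfl
  have c7 : ((7 : ℤ_[p]) : ℚ_[p]) = 7 := rfl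
  have hP : (p : ℚ_[p]) = 2 * q + 1 := by exact_mod_cast hq
  have hp0 : (p : ℚ_[p]) ≠ 0 := Nat.cast_ne_zero.2 (by omega)
  have hU : ((UU (iv p) (fun j => -2 * iv p (p - 2 * j)) (-iv p 2) q : ℤ_[p]) : ℚ_[p]) =
      -2 * ∑ k ∈ range q, a (k + 1) ^ 2 / (p - 2 * ((k + 1 : ℕ) : ℚ_[p])) := by
    rw [UU, PadicInt.coe_sum, mul_sum]
    refine sum_congr rfl fun k hk => ?_
    have hk' := mem_range.1 hk
    rw [PadicInt.coe_mul, hbe (k + 1) (by omega), PadicInt.coe_mul,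
      iv_coe (p - 2 * (k + 1)) (by omega) (by omega), Nat.cast_sub (by omega)]
    push_cast
    rw [c2]
    ring
  have hz' := congrArg (fun y : ℤ_[p] => (y : ℚ_[p])) hz
  push_cast at hz'
  rw [hU, hbe q (by omega), hh, ht, hb1, c7] at hz'
  rw [← hP, sum_range_succ' (fun k => a k ^ 2 / ((p : ℚ_[p]) - 2 * k))] at hI
  set S : ℚ := ∑ k ∈ range (q + 1), (4 * (k : ℚ) + 1) * ((Nat.centralBinom k : ℚ) / 4 ^ k) ^ 4
    with hS
  have hS' : (S : ℚ_[p]) = p + 7 / 6 * ((bernoulli (p - 3) : ℚ) : ℚ_[p]) * p ^ 4 + p ^ 5 * z := by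
    rw [hS]
    push_cast
    simp only [ha] at hI hz'
    rw [hI]
    simp only [Nat.centralBinom_zero, Nat.cast_one, pow_zero, div_one, one_pow, Nat.cast_zero,
      mul_zero, sub_zero]
    push_cast at hz' ⊢
    field_simp
    field_simp at hz'
    linear_combination hz'
  have hp1 : (p : ℚ) ≠ 0 := Nat.cast_ne_zero.2 (by omega)
  refine ⟨(S - p - 7 / 6 * bernoulli (p - 3) * p ^ 4) / p ^ 5, ?_, by field_simp; ring⟩
  have hc : (((S - p - 7 / 6 * bernoulli (p - 3) * p ^ 4) / p ^ 5 : ℚ) : ℚ_[p]) = z := by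
    push_cast
    rw [hS']
    field_simp
    ring
  have hn : ‖(((S - p - 7 / 6 * bernoulli (p - 3) * p ^ 4) / p ^ 5 : ℚ) : ℚ_[p])‖ ≤ 1 := by
    rw [hc]; exact z.2
  have := PadicInt.isUnit_iff.1 (PadicInt.isUnit_den _ hn)
  rw [PadicInt.norm_natCast_eq_one_iff] at this
  exact (Nat.Prime.coprime_iff_not_dvd hp).1 this

end Pool.Agent.P.MP_8d9088_nt.R1
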