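import Mathlib

/-! Ring identities for the case r = 1 of the (4k+1) supercongruence. -/

open Finset

namespace Pool.Agent.P.MP_8d9088_nt.R1

section gen
variable {A : Type*} [CommRing A]

def be (iv : ℕ → A) (y : A) (k : ℕ) : A :=
  ∏ t ∈ range k, (((t : A) - y) * ((t : A) + 1 + y) * iv (t + 1) ^ 2)

def ga (iv : ℕ → A) (y : A) (k : ℕ) : A :=
  ∏ t ∈ range k, (1 - y ^ 2 * iv (t + 1) ^ 2)

def EE (iv : ℕ → A) (h : A) : ℕ → A
  | 0 => 0
  | k + 1 => EE iv h k * (((k : A) + h) ^ 2 * iv (k + 1) ^ 2) + be iv (-h) k * iv (k + 1) ^ 2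

def UU (iv w : ℕ → A) (y : A) (m : ℕ) : A := ∑ k ∈ range m, be iv y (k + 1) * w (k + 1)

lemma be_succ (iv : ℕ → A) (y : A) (k : ℕ) :
    be iv y (k + 1) = be iv y k * (((k : A) - y) * ((k : A) + 1 + y) * iv (k + 1) ^ 2) := by
  simp [be, prod_range_succ]

lemma ga_succ (iv : ℕ → A) (y : A) (k : ℕ) :
    ga iv y (k + 1) = ga iv y k * (1 - y ^ 2 * iv (k + 1) ^ 2) := by
  simp [ga, prod_range_succ]

lemma be_closed (iv : ℕ → A) (y : A) (k : ℕ) (hiv : ∀ j, 1 ≤ j → j ≤ k → (j : A) * iv j = 1) :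
    be iv y (k + 1) = -y * ((k : A) + 1 + y) * iv (k + 1) ^ 2 * ga iv y k := by
  induction k with
  | zero => simp [be, ga]
  | succ k ih =>
    rw [be_succ, ih (fun j h1 h2 => hiv j h1 (by omega)), ga_succ]
    have h := hiv (k + 1) (by omega) le_rfl
    push_cast at h ⊢
    linear_combination (-y * (k + 1 + 1 + y) * iv (k + 1 + 1) ^ 2 * ga iv y k *
      ((k + 1) * iv (k + 1) + 1)) * h

lemma be_symm (iv : ℕ → A) (y : A) (k : ℕ) : be iv (y - 1) k = be iv (-y) k := by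
  unfold be
  exact prod_congr rfl fun t _ => by ring

lemma ga_neg (iv : ℕ → A) (y : A) (k : ℕ) : ga iv (-y) k = ga iv y k := by
  unfold ga
  exact prod_congr rfl fun t _ => by ring

lemma UU_rec (iv w : ℕ → A) (x y : A) (m : ℕ) (hiv : ∀ j, 1 ≤ j → j ≤ m → (j : A) * iv j = 1)
    (hw : ∀ j, 1 ≤ j → j ≤ m → ((j : A) + x) * w j = 1) :
    (x + y) * UU iv w y m - (y - x) * UU iv w (y - 1) m = 2 * (ga iv y m - 1) := by
  induction m with
  | zero => simp [UU, ga]
  | succ m ih =>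
    have ih' := ih (fun j h1 h2 => hiv j h1 (by omega)) (fun j h1 h2 => hw j h1 (by omega))
    have h1 := be_closed iv y m (fun j h1 h2 => hiv j h1 (by omega))
    have h2 := be_closed iv (-y) m (fun j h1 h2 => hiv j h1 (by omega))
    rw [← be_symm, ga_neg] at h2
    have h3 := hw (m + 1) (by omega) le_rfl
    push_cast at h3
    simp only [UU, sum_range_succ] at ih' ⊢
    rw [ga_succ, h1, h2]
    linear_combination ih' - 2 * y ^ 2 * iv (m + 1) ^ 2 * ga iv y m * h3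

lemma be_eps (iv : ℕ → A) (h e : A) (hh : 2 * h = 1) (k : ℕ) :
    e ^ 4 ∣ be iv (-h + e) k - (be iv (-h) k - e ^ 2 * EE iv h k) := by
  induction k with
  | zero => simp [be, EE]
  | succ k ih =>
    obtain ⟨u, hu⟩ := ih
    have h1 : (1 : A) = 2 * h := hh.symm
    refine ⟨u * ((((k : A) + h) ^ 2 - e ^ 2) * iv (k + 1) ^ 2) + EE iv h k * iv (k + 1) ^ 2, ?_⟩
    rw [be_succ, be_succ, EE]
    have e1 : ((k : A) - (-h + e)) * ((k : A) + 1 + (-h + e)) = (k + h) ^ 2 - e ^ 2 := by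
      linear_combination -(k + h - e) * hh
    have e2 : ((k : A) - (-h)) * ((k : A) + 1 + (-h)) = (k + h) ^ 2 := by
      linear_combination -(k + h) * hh
    rw [e1, e2]
    linear_combination ((((k : A) + h) ^ 2 - e ^ 2) * iv (k + 1) ^ 2) * hu

lemma ga_eps (iv : ℕ → A) (e : A) (k : ℕ) :
    e ^ 4 ∣ ga iv e k - (1 - e ^ 2 * ∑ t ∈ range k, iv (t + 1) ^ 2) := by
  induction k with
  | zero => simp [ga]
  | succ k ih =>
    obtain ⟨u, hu⟩ := ih
    refine ⟨u * (1 - e ^ 2 * iv (k + 1) ^ 2) + (∑ t ∈ range k, iv (t + 1) ^ 2) * iv (k + 1) ^ 2, ?_⟩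
    rw [ga_succ, sum_range_succ]
    linear_combination (1 - e ^ 2 * iv (k + 1) ^ 2) * hu

lemma ga_zero (iv : ℕ → A) (y : A) (m j : ℕ) (h1 : 1 ≤ j) (h2 : j ≤ m)
    (h : y ^ 2 * iv j ^ 2 = 1) : ga iv y m = 0 := by
  unfold ga
  refine prod_eq_zero (i := j - 1) (mem_range.2 (by omega)) ?_
  rw [Nat.sub_add_cancel h1, h, sub_self]

/-- The Legendre type identity. -/
lemma W_closed (iv w : ℕ → A) (x : A) (m : ℕ) (hiv : ∀ j, 1 ≤ j → j ≤ m → (j : A) * iv j = 1)
    (hw : ∀ j, 1 ≤ j → j ≤ m → ((j : A) + x) * w j = 1) (n : ℕ) (hn : n ≤ m) :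
    (1 + x * UU iv w n m) * ∏ t ∈ range n, ((t : A) + 1 + x) = ∏ t ∈ range n, ((t : A) + 1 - x) := by
  induction n with
  | zero =>
    have : UU iv w (0 : A) m = 0 := by
      unfold UU
      refine sum_eq_zero fun k _ => ?_
      rw [be, prod_range_succ']
      simp
    simp [this]
  | succ n ih =>
    have ih' := ih (by omega)
    have h1 := UU_rec iv w x ((n + 1 : ℕ) : A) m hiv hw
    have h2 : ga iv ((n + 1 : ℕ) : A) m = 0 := by
      refine ga_zero iv _ m (n + 1) (by omega) hn ?_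
      rw [← mul_pow, hiv (n + 1) (by omega) hn, one_pow]
    rw [h2] at h1
    rw [prod_range_succ, prod_range_succ, ← ih']
    push_cast at h1 ⊢
    rw [add_sub_cancel_right] at h1
    linear_combination (x * ∏ t ∈ range n, ((t : A) + 1 + x)) * h1

lemma split1 (f : ℕ → A) (q : ℕ) :
    ∑ j ∈ range (2 * q + 1), f j = f 0 + ∑ j ∈ range q, (f (j + 1) + f (2 * q + 1 - (j + 1))) := by
  rw [sum_range_succ', two_mul, sum_range_add, sum_add_distrib,
    ← sum_range_reflect (fun j => f (q + j + 1)) q]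
  have : ∑ j ∈ range q, f (q + (q - 1 - j) + 1) = ∑ j ∈ range q, f (q + q + 1 - (j + 1)) :=
    sum_congr rfl fun j hj => by
      have := mem_range.1 hj
      congr 1; omega
  rw [this]; ring

lemma split2' (f : ℕ → A) (q : ℕ) :
    ∑ j ∈ range (2 * q + 1), f j = f 0 + ∑ j ∈ range q, (f (2 * (j + 1)) + f (2 * j + 1)) := by
  induction q with
  | zero => simp
  | succ q ih =>
    rw [show 2 * (q + 1) + 1 = 2 * q + 1 + 1 + 1 by ring, sum_range_succ, sum_range_succ, ih,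
      sum_range_succ, show 2 * (q + 1) = 2 * q + 1 + 1 by ring]
    ring

lemma split2 (f : ℕ → A) (q : ℕ) :
    ∑ j ∈ range (2 * q + 1), f j =
      f 0 + ∑ j ∈ range q, (f (2 * (j + 1)) + f (2 * q + 1 - 2 * (j + 1))) := by
  rw [split2', sum_add_distrib, sum_add_distrib, ← sum_range_reflect (fun j => f (2 * j + 1)) q]
  congr 2
  refine sum_congr rfl fun j hj => ?_
  have := mem_range.1 hj
  congr 1; omega

end gen

section hom
variable {A B : Type*} [CommRing A] [CommRing B] (φ : A →+* B)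

lemma map_be (iv : ℕ → A) (y : A) (k : ℕ) : φ (be iv y k) = be (fun j => φ (iv j)) (φ y) k := by
  simp [be, map_prod]

lemma map_ga (iv : ℕ → A) (y : A) (k : ℕ) : φ (ga iv y k) = ga (fun j => φ (iv j)) (φ y) k := by
  simp [ga, map_prod]

lemma map_EE (iv : ℕ → A) (h : A) (k : ℕ) : φ (EE iv h k) = EE (fun j => φ (iv j)) (φ h) k := by
  induction k with
  | zero => simp [EE]
  | succ k ih => simp [EE, ih, map_be]

end hom

/-- The identity S(n) = N^2 a_n^2 sum a_k^2/(N-2k), telescoping step. -/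
lemma I1_step {F : Type*} [Field F] (a : ℕ → F)
    (ha : ∀ k : ℕ, (2 * (k : F) + 2) * a (k + 1) = (2 * k + 1) * a k) (x : F) (m : ℕ)
    (hx : ∀ k : ℕ, k ≤ m → x - 2 * k ≠ 0) :
    x ^ 2 * ∑ k ∈ range (m + 1), a k ^ 2 / (x - 2 * k) -
      (x - 1) ^ 2 * ∑ k ∈ range m, a k ^ 2 / (x - 2 - 2 * k) = (x + 2 * m) * a m ^ 2 := by
  induction m with
  | zero =>
    have := hx 0 le_rfl
    simp at this ⊢
    field_simp
  | succ m ih =>
    have ih' := ih (fun k hk => hx k (by omega))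
    have h1 := hx (m + 1) le_rfl
    have h2 := ha m
    rw [sum_range_succ _ (m + 1), sum_range_succ (fun k => a k ^ 2 / (x - 2 - 2 * (k : F))) m]
    push_cast at h1 ⊢
    have h3 : x - 2 - 2 * (m : F) = x - 2 * (m + 1) := by ring
    rw [h3]
    have h4 : x ^ 2 * (a (m + 1) ^ 2 / (x - 2 * (m + 1))) - (x - 1) ^ 2 * (a m ^ 2 / (x - 2 * (m + 1)))
        = (x + 2 * (m + 1)) * a (m + 1) ^ 2 - (x + 2 * m) * a m ^ 2 := by
      field_simp
      linear_combination ((2 * (m : F) + 2) * a (m + 1) + (2 * m + 1) * a m) * h2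
    linear_combination ih' + h4

lemma I1 {F : Type*} [Field F] [CharZero F] (a : ℕ → F) (h0 : a 0 = 1)
    (ha : ∀ k : ℕ, (2 * (k : F) + 2) * a (k + 1) = (2 * k + 1) * a k) (n : ℕ) :
    ∑ k ∈ range (n + 1), (4 * (k : F) + 1) * a k ^ 4 =
      (2 * n + 1) ^ 2 * a n ^ 2 * ∑ k ∈ range (n + 1), a k ^ 2 / (2 * n + 1 - 2 * k) := by
  induction n with
  | zero => simp [h0]
  | succ n ih =>
    rw [sum_range_succ, ih]
    have h1 := I1_step a ha (2 * ((n + 1 : ℕ) : F) + 1) (n + 1) (fun k _ => by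
      have : ((2 * ((n + 1 : ℕ) : ℤ) + 1 - 2 * (k : ℤ) : ℤ) : F) ≠ 0 := by
        rw [Int.cast_ne_zero]; omega
      simpa using this)
    have h2 := ha n
    have h3 : ∑ k ∈ range (n + 1), a k ^ 2 / (2 * ((n + 1 : ℕ) : F) + 1 - 2 - 2 * k) =
        ∑ k ∈ range (n + 1), a k ^ 2 / (2 * (n : F) + 1 - 2 * k) :=
      sum_congr rfl fun k _ => by congr 1; push_cast; ring
    rw [h3] at h1
    push_cast at h1 ⊢
    linear_combination (-(a (n + 1)) ^ 2) * h1 -
      (∑ k ∈ range (n + 1), a k ^ 2 / (2 * (n : F) + 1 - 2 * k)) *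
        ((2 * (n : F) + 2) * a (n + 1) + (2 * n + 1) * a n) * h2

end Pool.Agent.P.MP_8d9088_nt.R1
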