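import Pool.Agent.P.MP_8d9088_nt.R1a

/-! The computation modulo p for the case r = 1. -/

open Finset Polynomial

namespace Pool.Agent.P.MP_8d9088_nt.R1

variable {p : ℕ} [hp : Fact p.Prime]

lemma gaK (q : ℕ) (hq : p = 2 * q + 1) (iv : ℕ → ZMod p)
    (hiv : ∀ j, 1 ≤ j → j ≤ q → (j : ZMod p) * iv j = 1) (y : ZMod p) :
    ga iv y q = 1 - y ^ (p - 1) := by
  by_cases hy : y = 0
  · subst hy
    have : p - 1 ≠ 0 := by have := hp.out.two_le; omega
    simp [ga, this]
  · rw [ZMod.pow_card_sub_one_eq_one hy, sub_self]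
    have h1 : y.val ≠ 0 := by simpa using hy
    have h2 : y.val < p := ZMod.val_lt y
    by_cases h3 : y.val ≤ q
    · refine ga_zero iv y q y.val (by omega) h3 ?_
      have := hiv y.val (by omega) h3
      rw [ZMod.natCast_zmod_val] at this
      rw [← mul_pow, this, one_pow]
    · refine ga_zero iv y q (p - y.val) (by omega) (by omega) ?_
      have := hiv (p - y.val) (by omega) (by omega)
      rw [Nat.cast_sub h2.le, ZMod.natCast_zmod_val, ZMod.natCast_self] at this
      linear_combination (-y * iv (p - y.val) + 1) * this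

lemma ga_deg {K : Type*} [CommRing K] (iv : ℕ → K) (c : K) (k : ℕ) :
    (ga (fun j => C (iv j)) (X + C c) k).natDegree ≤ 2 * k := by
  induction k with
  | zero => simp [ga]
  | succ k ih =>
    rw [ga_succ]
    refine natDegree_mul_le.trans ?_
    have : (1 - (X + C c) ^ 2 * C (iv (k + 1)) ^ 2 : K[X]).natDegree ≤ 2 := by
      compute_degree
    omega

lemma gaKX (q : ℕ) (hq : p = 2 * q + 1) (iv : ℕ → ZMod p)
    (hiv : ∀ j, 1 ≤ j → j ≤ q → (j : ZMod p) * iv j = 1) (c : ZMod p) :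
    ga (fun j => C (iv j)) (X + C c) q = 1 - (X + C c) ^ (p - 1) := by
  refine eq_of_natDegree_lt_card_of_eval_eq _ _ (f := id) Function.injective_id ?_ ?_
  · intro x
    have := map_ga (evalRingHom x) (fun j => C (iv j)) (X + C c) q
    simp only [coe_evalRingHom, eval_C, eval_add, eval_X] at this
    simp only [id, this, eval_sub, eval_one, eval_pow, eval_add, eval_X, eval_C]
    exact gaK q hq iv hiv _
  · rw [ZMod.card]
    have h1 := ga_deg iv c q
    have h2 : (1 - (X + C c) ^ (p - 1) : (ZMod p)[X]).natDegree ≤ p - 1 := by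
      refine (natDegree_sub_le _ _).trans (max_le (by simp) ?_)
      refine natDegree_pow_le.trans ?_
      rw [natDegree_X_add_C, mul_one]
    omega

lemma EK (q : ℕ) (hq : p = 2 * q + 1) (h3 : 3 < p) (iv : ℕ → ZMod p)
    (hiv : ∀ j, 1 ≤ j → j ≤ q → (j : ZMod p) * iv j = 1) (h : ZMod p) (hh : 2 * h = 1) :
    ∑ k ∈ range q, EE iv h (k + 1) * iv (k + 1) = 7 * ∑ k ∈ range q, ((k : ZMod p) + 1) ^ (p - 4) := by
  set ivX : ℕ → (ZMod p)[X] := fun j => C (iv j) with hivX
  have hivX' : ∀ j, 1 ≤ j → j ≤ q → (j : (ZMod p)[X]) * ivX j = 1 := fun j h1 h2 => by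
    rw [hivX, ← C_eq_natCast, ← C_mul, hiv j h1 h2, C_1]
  have h2ne : (2 : ZMod p) ≠ 0 := fun e => by simp [e] at hh
  have hch : (((p - 2).choose 2 : ℕ) : ZMod p) = 3 := by
    have e1 : 2 * (p - 2).choose 2 = (p - 2) * (p - 2 - 1) := by
      rw [Nat.choose_two_right]
      exact Nat.mul_div_cancel' (Nat.even_mul_pred_self (p - 2)).two_dvd
    have e2 : ((2 * (p - 2).choose 2 : ℕ) : ZMod p) = (((p - 2) * (p - 2 - 1) : ℕ) : ZMod p) := by
      rw [e1]
    rw [Nat.sub_sub] at e2
    push_cast [Nat.cast_sub (show 2 ≤ p by omega), Nat.cast_sub (show 2 + 1 ≤ p by omega)] at e2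
    rw [ZMod.natCast_self] at e2
    apply mul_left_cancel₀ h2ne
    linear_combination e2
  have step : ∀ c : ZMod p, (UU ivX ivX (X + C c) q).coeff 2 =
      (UU ivX ivX (X + C (c - 1)) q).coeff 2 - 6 * c ^ (p - 4) := by
    intro c
    have h1 := UU_rec ivX ivX 0 (X + C c) q hivX' (fun j a b => by simpa using hivX' j a b)
    rw [gaKX q hq iv hiv c] at h1
    have h2 : UU ivX ivX (X + C c) q = UU ivX ivX (X + C (c - 1)) q - C 2 * (X + C c) ^ (p - 2) := by
      apply mul_left_cancel₀ (X_add_C_ne_zero c)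
      have e : (X + C c : (ZMod p)[X]) ^ (p - 1) = (X + C c) * (X + C c) ^ (p - 2) := by
        rw [← pow_succ']; congr 1; omega
      have e2 : (X + C (c - 1) : (ZMod p)[X]) = X + C c - 1 := by
        rw [C_sub, C_1]; ring
      have e3 : (C 2 : (ZMod p)[X]) = 2 := rfl
      rw [e] at h1
      rw [e2, e3]
      linear_combination h1
    rw [h2, coeff_sub, coeff_C_mul, coeff_X_add_C_pow, hch, show p - 2 - 2 = p - 4 by omega]
    ring
  have chain : ∀ n : ℕ, (UU ivX ivX (X + C (n : ZMod p)) q).coeff 2 =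
      (UU ivX ivX (X + C 0) q).coeff 2 - 6 * ∑ k ∈ range n, ((k : ZMod p) + 1) ^ (p - 4) := by
    intro n
    induction n with
    | zero => simp
    | succ n ih =>
      rw [step, sum_range_succ]
      push_cast
      rw [add_sub_cancel_right, ih]
      ring
  have z0 : (UU ivX ivX (X + C 0) q).coeff 2 = -∑ k ∈ range q, ((k : ZMod p) + 1) ^ (p - 4) := by
    rw [C_0, add_zero, UU, finsetSum_coeff, ← sum_neg_distrib]
    refine sum_congr rfl fun k hk => ?_
    have hk' := mem_range.1 hk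
    rw [be_closed ivX X k (fun j a b => hivX' j a (by omega))]
    obtain ⟨u, hu⟩ := ga_eps ivX X k
    have hd : X ^ 3 ∣ -X * ((k : (ZMod p)[X]) + 1 + X) * ivX (k + 1) ^ 2 * ga ivX X k * ivX (k + 1)
        - (C (-((k : ZMod p) + 1) * iv (k + 1) ^ 3) * X ^ 1 + C (-iv (k + 1) ^ 3) * X ^ 2) := by
      refine ⟨-((k : (ZMod p)[X]) + 1 + X) * ivX (k + 1) ^ 3 *
        (X ^ 2 * u - ∑ t ∈ range k, ivX (t + 1) ^ 2), ?_⟩
      simp only [C_mul, C_neg, C_add, C_1, C_pow, C_eq_natCast]
      linear_combination (-X * ((k : (ZMod p)[X]) + 1 + X) * ivX (k + 1) ^ 3) * hu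
    have hc := (X_pow_dvd_iff.1 hd) 2 (by norm_num)
    rw [coeff_sub, coeff_add, coeff_C_mul_X_pow, coeff_C_mul_X_pow] at hc
    simp only [OfNat.ofNat_ne_one, if_false, if_true, zero_add] at hc
    rw [sub_eq_zero.1 hc]
    have e1 := hiv (k + 1) (by omega) (by omega)
    push_cast at e1
    have e2 : ((k : ZMod p) + 1) ≠ 0 := fun e => by simp [e] at e1
    have e3 := ZMod.pow_card_sub_one_eq_one e2
    rw [show p - 1 = p - 4 + 3 by omega, pow_add] at e3
    linear_combination (iv (k + 1) ^ 3) * e3 - ((k : ZMod p) + 1) ^ (p - 4) *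
      ((((k : ZMod p) + 1) * iv (k + 1)) ^ 2 + ((k : ZMod p) + 1) * iv (k + 1) + 1) * e1
  have zq : (UU ivX ivX (X + C (q : ZMod p)) q).coeff 2 =
      -∑ k ∈ range q, EE iv h (k + 1) * iv (k + 1) := by
    have hqh : (q : ZMod p) = -h := by
      have : ((2 * q + 1 : ℕ) : ZMod p) = 0 := by rw [← hq, ZMod.natCast_self]
      push_cast at this
      linear_combination h * this - (q : ZMod p) * hh
    rw [hqh, UU, finsetSum_coeff, ← sum_neg_distrib]
    refine sum_congr rfl fun k _ => ?_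
    have hhX : 2 * (C h : (ZMod p)[X]) = 1 := by
      rw [show (2 : (ZMod p)[X]) = C 2 from rfl, ← C_mul, hh, C_1]
    obtain ⟨u, hu⟩ := be_eps ivX (C h) X hhX (k + 1)
    have m1 := map_be (C : ZMod p →+* (ZMod p)[X]) iv (-h) (k + 1)
    have m2 := map_EE (C : ZMod p →+* (ZMod p)[X]) iv h (k + 1)
    rw [C_neg] at m1
    have hd : X ^ 4 ∣ be ivX (X + C (-h)) (k + 1) * ivX (k + 1)
        - (C (be iv (-h) (k + 1) * iv (k + 1)) * X ^ 0 +
          C (-(EE iv h (k + 1) * iv (k + 1))) * X ^ 2) := by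
      refine ⟨u * ivX (k + 1), ?_⟩
      simp only [C_mul, C_neg, m1, m2]
      rw [add_comm X]
      linear_combination ivX (k + 1) * hu
    have hc := (X_pow_dvd_iff.1 hd) 2 (by norm_num)
    rw [coeff_sub, coeff_add, coeff_C_mul_X_pow, coeff_C_mul_X_pow] at hc
    simp only [OfNat.ofNat_ne_zero, if_false, if_true, zero_add] at hc
    exact sub_eq_zero.1 hc
  have := chain q
  rw [z0, zq] at this
  linear_combination -this

end Pool.Agent.P.MP_8d9088_nt.R1
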