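import Pool.Agent.P.MP_8d9088_nt.Apx

/-! The interpolation of the squared ratios `c (x p) / c x`. -/

namespace Pool.Agent.P.MP_8d9088_nt

open Polynomial Finset

variable {p : ℕ} [hp : Fact p.Prime]

/-- Products over arithmetic progressions with difference two. -/
def Pr (p : ℕ) (e : ℚ) (i : ℕ) (y : ℚ) : ℚ := ∏ l ∈ range i, ((p : ℚ) * y + (2 * l + e))

omit hp in
theorem Pr_refl {m : ℕ} (hm : p = 2 * m + 1) {i j : ℕ} (hij : i + j = m) (e y : ℚ) :
    Pr p e j (-1 - y) * Pr p (3 - e) i y = (-1) ^ j * Pr p (3 - e) m y := by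
  have hp' : (p : ℚ) = 2 * (i + j) + 1 := by rw [hm, ← hij]; push_cast; ring
  have h1 : Pr p e j (-1 - y)
      = (-1) ^ j * ∏ l ∈ range j, ((p : ℚ) * y + (2 * ((i + l : ℕ) : ℚ) + (3 - e))) := by
    rw [Pr, ← prod_range_reflect]
    rw [show ((-1 : ℚ)) ^ j = ∏ _l ∈ range j, (-1 : ℚ) by simp, ← prod_mul_distrib]
    refine prod_congr rfl fun l hl => ?_
    have hl' : l < j := mem_range.1 hl
    have : ((j - 1 - l : ℕ) : ℚ) = j - 1 - l := by
      rw [Nat.sub_sub, Nat.cast_sub (by omega)]; push_cast; ring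
    rw [this]; push_cast
    linear_combination -hp'
  rw [h1, ← hij]
  simp only [Pr]
  rw [prod_range_add]
  ring

theorem Pr_one_unit {m : ℕ} (hm : p = 2 * m + 1) {i : ℕ} (hi : i ≤ m) {y : ℚ} (hy : y ∈ R p) :
    U p (Pr p 1 i y) :=
  U.prod fun l hl => by
    have := U.lin (p := p) (c := 2 * l + 1) (by omega) (by have := mem_range.1 hl; omega) hy
    simpa using this

theorem Pr_two_unit {m : ℕ} (hm : p = 2 * m + 1) {i : ℕ} (hi : i ≤ m) {y : ℚ} (hy : y ∈ R p) :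
    U p (Pr p 2 i y) :=
  U.prod fun l hl => by
    have := U.lin (p := p) (c := 2 * l + 2) (by omega) (by have := mem_range.1 hl; omega) hy
    simpa using this

theorem lin_mem (l : ℕ) (e : ℕ) : (2 * (l : ℚ) + e) ∈ R p :=
  add_mem (mul_mem (ofNat_mem _ 2) (nat_mem l)) (nat_mem e)

theorem Apx.pr_one (K i : ℕ) : Apx p K (Pr p 1 i) :=
  Apx.prod _ fun l _ => Apx.lin (by simpa using lin_mem (p := p) l 1)

theorem Apx.pr_two (K i : ℕ) : Apx p K (Pr p 2 i) :=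
  Apx.prod _ fun l _ => Apx.lin (by simpa using lin_mem (p := p) l 2)

theorem Apx.pr_one_inv {m : ℕ} (hm : p = 2 * m + 1) (K : ℕ) {i : ℕ} (hi : i ≤ m) :
    Apx p K (fun y => (Pr p 1 i y)⁻¹) := by
  refine (Apx.prod (range i) (F := fun l y => ((p : ℚ) * y + (2 * l + 1))⁻¹) fun l hl =>
    Apx.inv_lin ?_).congr fun y => by rw [Pr, prod_inv_distrib]
  have := U.lt (p := p) (c := 2 * l + 1) (by omega) (by have := mem_range.1 hl; omega)
  simpa using this

theorem Apx.pr_two_inv {m : ℕ} (hm : p = 2 * m + 1) (K : ℕ) {i : ℕ} (hi : i ≤ m) :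
    Apx p K (fun y => (Pr p 2 i y)⁻¹) := by
  refine (Apx.prod (range i) (F := fun l y => ((p : ℚ) * y + (2 * l + 2))⁻¹) fun l hl =>
    Apx.inv_lin ?_).congr fun y => by rw [Pr, prod_inv_distrib]
  have := U.lt (p := p) (c := 2 * l + 2) (by omega) (by have := mem_range.1 hl; omega)
  simpa using this

theorem coeff_zero_coe (f : (R p)[X]) : ((f.coeff 0 : R p) : ℚ) = aeval ((p : ℚ) * 0) f := by
  rw [mul_zero, coeff_zero_eq_eval_zero, ← aeval_coe]; rfl

theorem mem_II_of {f : (R p)[X]} (h : D p 1 (aeval ((p : ℚ) * 0) f)) : f ∈ II (p : R p) := by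
  obtain ⟨u, hu, he⟩ := h
  rw [← coeff_zero_coe, pow_one] at he
  have h1 : f.coeff 0 = (p : R p) * ⟨u, hu⟩ := Subtype.ext (by simpa using he)
  have h2 := add_mem (sub_C_mem_II (p : R p) f)
    (Ideal.mul_mem_right (C (⟨u, hu⟩ : R p)) _ (C_mem_II (p : R p)))
  rwa [← C_mul, ← h1, sub_add_cancel] at h2

/-- The properties of the interpolating function. -/
structure Eul (p : ℕ) [Fact p.Prime] (m K : ℕ) (F : ℚ → ℚ) : Prop where
  apx : Apx p K F
  lip : ∀ y ∈ R p, ∀ z ∈ R p, ∃ r ∈ R p, F y - F z = p * (y - z) * r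
  one : ∀ y ∈ R p, D p 1 (F y - 1)
  eqn : ∀ y ∈ R p, D p K (F y * F (y + 1) * Pr p 1 m y ^ 2 - Pr p 2 m y ^ 2)
  inv : ∀ y ∈ R p, D p K (F y * F (-y) - 1)

omit hp in
theorem Pr_one_refl {m : ℕ} (hm : p = 2 * m + 1) (y : ℚ) :
    Pr p 1 m (-1 - y) ^ 2 = Pr p 2 m y ^ 2 := by
  have h := Pr_refl hm (i := 0) (j := m) (by simp) 1 y
  rw [show (3 : ℚ) - 1 = 2 by norm_num] at h
  have h0 : Pr p 2 0 y = 1 := by simp [Pr]
  rw [h0, mul_one] at h
  rw [h, mul_pow, ← pow_mul, mul_comm m 2, pow_mul]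
  simp

omit hp in
theorem Pr_two_refl {m : ℕ} (hm : p = 2 * m + 1) (y : ℚ) :
    Pr p 2 m (-1 - y) ^ 2 = Pr p 1 m y ^ 2 := by
  have h := Pr_one_refl hm (-1 - y)
  rw [show -1 - (-1 - y) = y by ring] at h
  exact h.symm

theorem Pr_cong {m : ℕ} (hm : p = 2 * m + 1) {y : ℚ} (hy : y ∈ R p) :
    D p 1 (Pr p 1 m y ^ 2 - Pr p 2 m y ^ 2) := by
  rw [← Pr_one_refl hm y]
  have hy' : -1 - y ∈ R p := sub_mem (neg_mem (one_mem _)) hy
  exact ((Apx.pr_one 1 m).sub_neg le_rfl hy hy').sq_sub (Pr_one_unit hm le_rfl hy').mem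

theorem exists_eul (h3 : 3 < p) {m : ℕ} (hm : p = 2 * m + 1) (K : ℕ) : ∃ F, Eul p m K F := by
  set α : (R p)[X] := (∏ l ∈ range m, (X + C (2 * (l : R p) + 1))) ^ 2 with hα
  set β : (R p)[X] := (∏ l ∈ range m, (X + C (2 * (l : R p) + 2))) ^ 2 with hβ
  have ea : ∀ y : ℚ, aeval ((p : ℚ) * y) α = Pr p 1 m y ^ 2 := by
    intro y
    simp only [hα, map_pow, map_prod, map_add, aeval_X, map_mul, map_natCast, map_one, Pr,
      map_ofNat]
  have eb : ∀ y : ℚ, aeval ((p : ℚ) * y) β = Pr p 2 m y ^ 2 := by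
    intro y
    simp only [hβ, map_pow, map_prod, map_add, aeval_X, map_mul, map_natCast, Pr, map_ofNat]
  have hu : U p (Pr p 1 m 0 ^ 2) := (Pr_one_unit hm le_rfl (zero_mem _)).pow 2
  have h2 := two_unit h3
  obtain ⟨Y, hY1, hY2⟩ := exists_euler (p : R p) ⟨2⁻¹, h2.inv⟩
    (Subtype.ext (by show (2 : ℚ) * 2⁻¹ = 1; norm_num)) α β ⟨_, hu.inv⟩
    (Subtype.ext (by
      show ((α.coeff 0 : R p) : ℚ) * (Pr p 1 m 0 ^ 2)⁻¹ = 1
      rw [coeff_zero_coe, ea, mul_inv_cancel₀ hu.ne]))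
    (mem_II_of (by rw [map_sub, ea, eb]; exact Pr_cong hm (zero_mem _))) K
  set F : ℚ → ℚ := fun y => aeval ((p : ℚ) * y) Y with hF
  have lip : ∀ y ∈ R p, ∀ z ∈ R p, ∃ r ∈ R p, F y - F z = p * (y - z) * r := by
    intro y hy z hz
    obtain ⟨r, hr, h⟩ := aeval_lip Y (mul_mem (nat_mem p) hy) (mul_mem (nat_mem p) hz)
    exact ⟨r, hr, by simp only [hF]; rw [h]; ring⟩
  have one : ∀ y ∈ R p, D p 1 (F y - 1) := by
    intro y hy
    have := D_of_mem (k := 1) (E := Y - 1) (by simpa using hY1) hy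
    simpa using this
  have mem : ∀ y ∈ R p, F y ∈ R p := fun y hy => (one y hy).mem_of_sub (one_mem _)
  have eqn : ∀ y ∈ R p, D p K (F y * F (y + 1) * Pr p 1 m y ^ 2 - Pr p 2 m y ^ 2) := by
    intro y hy
    have := (D_of_mem hY2 hy).mono (Nat.le_succ K)
    rwa [map_sub, map_mul, map_mul, aeval_taylor, ea, eb] at this
  refine ⟨F, Apx.poly Y, lip, one, eqn, ?_⟩
  set G : ℚ → ℚ := fun y => F y * F (-y) with hG
  have Gm : ∀ y ∈ R p, G y ∈ R p := fun y hy => mul_mem (mem y hy) (mem _ (neg_mem hy))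
  have s1 : ∀ y ∈ R p, D p K (G y * G (y + 1) - 1) := by
    intro y hy
    have hy' : -1 - y ∈ R p := sub_mem (neg_mem (one_mem _)) hy
    have e1 := eqn y hy
    have e2 := eqn _ hy'
    rw [Pr_one_refl hm, Pr_two_refl hm, show -1 - y + 1 = -y by ring,
      show -1 - y = -(y + 1) by ring] at e2
    have ua := (Pr_one_unit hm le_rfl hy).pow 2
    have ub := (Pr_two_unit hm le_rfl hy).pow 2
    have e3 := e1.mul_sub e2 ub.mem (e2.mem_of_sub ua.mem)
    refine D.of_mul (y := Pr p 1 m y ^ 2 * Pr p 2 m y ^ 2) (e3.of_eq ?_) (ua.mul ub)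
    simp only [hG]; ring
  have s2 : ∀ y ∈ R p, D p K (G (y + 2) - G y) := by
    intro y hy
    have hy1 : y + 1 ∈ R p := add_mem hy (one_mem _)
    have hy2 : y + 2 ∈ R p := add_mem hy (ofNat_mem _ 2)
    have e1 := (s1 y hy).lmul (Gm _ hy2)
    have e2 := (s1 _ hy1).lmul (Gm _ hy)
    rw [show y + 1 + 1 = y + 2 by ring] at e2
    exact (e2.sub e1).of_eq (by ring)
  have s3 : ∀ y ∈ R p, ∀ n : ℕ, D p K (G (y + 2 * n) - G y) := by
    intro y hy n
    induction n with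
    | zero => exact (D.zero K).of_eq (by simp)
    | succ n ih =>
      have := s2 _ (add_mem hy (mul_mem (ofNat_mem _ 2) (nat_mem n)))
      rw [show y + 2 * (n : ℚ) + 2 = y + 2 * ((n + 1 : ℕ) : ℚ) by push_cast; ring] at this
      exact this.trans ih
  intro y hy
  have hodd : Odd (p ^ K) := Odd.pow ⟨m, hm⟩
  obtain ⟨n, hn⟩ := hodd
  have hn' : (p : ℚ) ^ K = 2 * n + 1 := by exact_mod_cast hn
  have hy1 : y + 1 ∈ R p := add_mem hy (one_mem _)
  have hz : y + 2 * ((n + 1 : ℕ) : ℚ) ∈ R p := add_mem hy (mul_mem (ofNat_mem _ 2) (nat_mem _))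
  have s4 : D p K (G (y + 2 * ((n + 1 : ℕ) : ℚ)) - G (y + 1)) := by
    obtain ⟨r, hr, e1⟩ := lip _ hz _ hy1
    obtain ⟨r', hr', e2⟩ := lip _ (neg_mem hz) _ (neg_mem hy1)
    refine D.mul_sub ?_ ?_ (mem _ hy1) (mem _ (neg_mem hz))
    · refine (D.pow_mul K (mul_mem (nat_mem p) hr)).of_eq ?_
      rw [e1, hn']; push_cast; ring
    · refine (D.pow_mul K (neg_mem (mul_mem (nat_mem p) hr'))).of_eq ?_
      rw [e2, hn']; push_cast; ring
  have s5 : D p K (G y - G (y + 1)) := (s3 y hy (n + 1)).symm.trans s4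
  have s6 : D p K ((G y - 1) * (G y + 1)) :=
    ((s5.lmul (Gm y hy)).add (s1 y hy)).of_eq (by ring)
  refine s6.of_mul (h2.of_sub ?_)
  exact ((one y hy).mul_sub (one _ (neg_mem hy)) (one_mem _) (mem _ (neg_mem hy))).of_eq
    (by simp only [hG]; ring)

variable {m K : ℕ} {F : ℚ → ℚ}

theorem Eul.mem (h : Eul p m K F) {y : ℚ} (hy : y ∈ R p) : F y ∈ R p := h.apx.mem hy

theorem Eul.unit (h : Eul p m K F) {y : ℚ} (hy : y ∈ R p) : U p (F y) :=
  U.one.of_sub (h.one y hy)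

theorem Eul.zero (h3 : 3 < p) (h : Eul p m K F) : D p K (F 0 - 1) := by
  have h1 := h.inv 0 (zero_mem _)
  rw [neg_zero] at h1
  refine D.of_mul (y := F 0 + 1) (h1.of_eq (by ring)) ((two_unit h3).of_sub ?_)
  exact (h.one 0 (zero_mem _)).of_eq (by ring)

/-- `F (-1 - y) = F y θ(y) ^ 2`. -/
theorem Eul.refl (hm : p = 2 * m + 1) (h : Eul p m K F) {y : ℚ} (hy : y ∈ R p) :
    D p K (F (-1 - y) - F y * (Pr p 1 m y / Pr p 2 m y) ^ 2) := by
  have hy1 : y + 1 ∈ R p := add_mem hy (one_mem _)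
  have e1 := h.eqn y hy
  have e2 := h.inv _ hy1
  rw [show -(y + 1) = -1 - y by ring] at e2
  have ub := (Pr_two_unit hm le_rfl hy).pow 2
  have e3 := (e2.lmul ub.mem).sub e1
  refine D.of_mul (y := F (y + 1) * Pr p 2 m y ^ 2) (e3.of_eq ?_) ((h.unit hy1).mul ub)
  have := (Pr_two_unit hm le_rfl hy).ne
  field_simp
  ring

/-- The central binomial coefficient divided by `4 ^ k`. -/
def cc (k : ℕ) : ℚ := ∏ l ∈ range k, (2 * (l : ℚ) + 1) / (2 * l + 2)

omit hp in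
theorem cc_succ (k : ℕ) : cc (k + 1) = cc k * ((2 * (k : ℚ) + 1) / (2 * k + 2)) :=
  prod_range_succ _ _

omit hp in
theorem cc_pos (k : ℕ) : 0 < cc k := prod_pos fun l _ => by positivity

omit hp in
theorem cc_eq (k : ℕ) : cc k = (k.centralBinom : ℚ) / 4 ^ k := by
  induction k with
  | zero => simp [cc]
  | succ k ih =>
    have h : ((k : ℚ) + 1) * ((k + 1).centralBinom : ℚ) = 2 * (2 * k + 1) * k.centralBinom := by
      exact_mod_cast Nat.succ_mul_centralBinom_succ k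
    rw [cc_succ, ih]
    have : ((k + 1).centralBinom : ℚ) = 2 * (2 * k + 1) * k.centralBinom / ((k : ℚ) + 1) := by
      rw [eq_div_iff (by positivity)]; linear_combination h
    rw [this]
    field_simp
    ring

theorem cc_mem (h3 : 3 < p) (k : ℕ) : cc k ∈ R p := by
  rw [cc_eq]; exact div_mem (nat_mem _) ((four_unit h3).pow k)

omit hp in
theorem cc_add (x i : ℕ) :
    cc (x * p + i) = cc (x * p) * (Pr p 1 i (2 * x) / Pr p 2 i (2 * x)) := by
  rw [cc, prod_range_add, Pr, Pr, ← prod_div_distrib]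
  congr 1
  refine prod_congr rfl fun l _ => ?_
  push_cast
  congr 1 <;> ring

omit hp in
theorem cc_add' (hm : p = 2 * m + 1) (x i : ℕ) :
    cc (x * p + m + (i + 1)) = cc (x * p + m) *
      (p * (2 * x + 1) * (Pr p 2 i (2 * x + 1) / Pr p 1 (i + 1) (2 * x + 1))) := by
  have hp' : (p : ℚ) = 2 * m + 1 := by rw [hm]; push_cast; ring
  rw [cc, prod_range_add]
  congr 1
  have h1 : ∏ l ∈ range (i + 1), (2 * ((x * p + m + l : ℕ) : ℚ) + 1) /
      (2 * ((x * p + m + l : ℕ) : ℚ) + 2) = ∏ l ∈ range (i + 1),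
      ((p : ℚ) * (2 * x + 1) + 2 * l) / ((p : ℚ) * (2 * x + 1) + (2 * l + 1)) := by
    refine prod_congr rfl fun l _ => ?_
    push_cast
    congr 1 <;> linear_combination -hp'
  rw [h1, prod_div_distrib, prod_range_succ' (fun l : ℕ => (p : ℚ) * (2 * x + 1) + 2 * l)]
  simp only [Pr]
  have h2 : ∏ l ∈ range i, ((p : ℚ) * (2 * x + 1) + 2 * ((l + 1 : ℕ) : ℚ))
      = ∏ l ∈ range i, ((p : ℚ) * (2 * x + 1) + (2 * l + 2)) :=
    prod_congr rfl fun l _ => by push_cast; ring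
  rw [h2]
  push_cast
  ring

theorem Eul.sigma (h3 : 3 < p) (hm : p = 2 * m + 1) (h : Eul p m K F) (x : ℕ) :
    D p K ((cc (x * p) / cc x) ^ 2 - F (2 * x)) := by
  induction x with
  | zero => exact (h.zero h3).neg.of_eq (by simp [cc])
  | succ x ih =>
    have hy : (2 * x : ℚ) ∈ R p := mul_mem (ofNat_mem _ 2) (nat_mem x)
    have hy1 : (2 * x + 1 : ℚ) ∈ R p := add_mem hy (one_mem _)
    have hy2 : (2 * x + 1 + 1 : ℚ) ∈ R p := add_mem hy1 (one_mem _)
    have uA := Pr_one_unit hm le_rfl hy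
    have uB := Pr_two_unit hm le_rfl hy
    have uA' := Pr_one_unit hm le_rfl hy1
    have uB' := Pr_two_unit hm le_rfl hy1
    have hp' : (p : ℚ) = 2 * m + 1 := by rw [hm]; push_cast; ring
    have hp0 : (p : ℚ) ≠ 0 := p_ne
    have e : cc ((x + 1) * p) / cc (x + 1) = cc (x * p) / cc x *
        (Pr p 1 m (2 * x) * Pr p 2 m (2 * x + 1) / (Pr p 2 m (2 * x) * Pr p 1 m (2 * x + 1))) := by
      have h1 : (x + 1) * p = x * p + m + (m + 1) := by rw [add_mul, hm]; ring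
      have h2 : Pr p 1 (m + 1) (2 * x + 1) = Pr p 1 m (2 * x + 1) * (p * (2 * x + 2)) := by
        rw [Pr, prod_range_succ, ← Pr]; congr 1; linear_combination -hp'
      rw [h1, cc_add' hm, cc_add, cc_succ, h2]
      have := (cc_pos x).ne'
      have := uA'.ne
      have := uB.ne
      field_simp
    have e1 := h.eqn _ hy
    have e2 := h.eqn _ hy1
    have e3 := ((ih.rmul (((uA.mul uB').div (uB.mul uA')).pow 2).mem).sub
      (e2.lmul (mul_mem (h.mem hy) ((uA.div (uB.mul uA')).pow 2).mem))).add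
      (e1.lmul (div_mem (h.mem hy2) (uB.pow 2)))
    refine e3.of_eq ?_
    rw [e, show (2 * ((x + 1 : ℕ) : ℚ)) = 2 * x + 1 + 1 by push_cast; ring]
    have := uA'.ne
    have := uB.ne
    field_simp
    ring

theorem Eul.rho (h3 : 3 < p) (hm : p = 2 * m + 1) (h : Eul p m K F) (x : ℕ) :
    D p K ((cc (x * p + m) / cc x) ^ 2 - F (-(2 * x + 1))) := by
  have hy : (2 * x : ℚ) ∈ R p := mul_mem (ofNat_mem _ 2) (nat_mem x)
  have u := ((Pr_one_unit hm le_rfl hy).div (Pr_two_unit hm le_rfl hy)).pow 2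
  have e := ((h.sigma h3 hm x).rmul u.mem).sub (h.refl hm hy)
  refine e.of_eq ?_
  rw [cc_add, show -(2 * (x : ℚ) + 1) = -1 - 2 * x by ring]
  ring

end Pool.Agent.P.MP_8d9088_nt
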